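import Mathlib

set_option autoImplicit false
set_option linter.unusedSectionVars false
set_option linter.unusedVariables false

/-!
# Correlations in a finite abelian group: integrality
-/

namespace Pool.Agent.Helper31K9.RNG

open Finset

section
variable {A : Type} [CommGroup A] [Fintype A] [DecidableEq A]

/-- the correlation function of `d` -/
def corr (d : A → ℤ) (x : A) : ℤ := ∑ y, d y * d (x * y)

/-- the number of representations `x = y⁻¹ * z ^ p` -/
def rep (d : A → ℤ) (p : ℕ) (x : A) : ℤ := ∑ z, d z * d (z ^ p * x⁻¹)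

theorem sum_corr (d : A → ℤ) : ∑ x, corr d x = (∑ y, d y) ^ 2 := by
  unfold corr
  rw [sum_comm, sq, sum_mul]
  refine sum_congr rfl fun y _ => ?_
  rw [← mul_sum]
  congr 1
  exact Fintype.sum_equiv (Equiv.mulRight y) _ _ (fun x => rfl)

theorem sum_rep (d : A → ℤ) (p : ℕ) : ∑ x, rep d p x = (∑ y, d y) ^ 2 := by
  unfold rep
  rw [sum_comm, sq, sum_mul]
  refine sum_congr rfl fun z _ => ?_
  rw [← mul_sum]
  congr 1
  exact Fintype.sum_equiv ((Equiv.inv A).trans (Equiv.mulLeft (z ^ p))) _ _ (fun x => rfl)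

/-- pair correlations -/
theorem corr_pair (d : A → ℤ) (a b : A) : ∑ x, d (a * x) * d (b * x) = corr d (b * a⁻¹) := by
  unfold corr
  refine Fintype.sum_equiv (Equiv.mulLeft a) _ _ (fun x => ?_)
  simp only [Equiv.coe_mulLeft]
  congr 2
  group

theorem sum_rep_sq (d : A → ℤ) (p : ℕ) :
    ∑ x, rep d p x ^ 2 = ∑ w, corr d w * corr d (w ^ p) := by
  have h1 : ∀ x, rep d p x ^ 2 =
      ∑ z, ∑ z', d z * d z' * (d (z ^ p * x⁻¹) * d (z' ^ p * x⁻¹)) := by
    intro x
    unfold rep
    rw [sq, sum_mul_sum]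
    refine sum_congr rfl fun z _ => sum_congr rfl fun z' _ => ?_
    ring
  rw [sum_congr rfl fun x _ => h1 x, sum_comm]
  have h2 : ∀ z : A, ∑ x, ∑ z', d z * d z' * (d (z ^ p * x⁻¹) * d (z' ^ p * x⁻¹)) =
      ∑ w, d z * d (w * z) * corr d (w ^ p) := by
    intro z
    rw [sum_comm]
    refine (Fintype.sum_equiv (Equiv.mulRight z) _ _ fun w => ?_).symm
    simp only [Equiv.coe_mulRight]
    rw [← mul_sum]
    congr 1
    rw [← Fintype.sum_equiv (Equiv.inv A) (fun x => d (z ^ p * x) * d ((w * z) ^ p * x)) _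
      (fun x => by simp), corr_pair]
    congr 1
    rw [mul_pow]
    group
  rw [sum_congr rfl fun z _ => h2 z, sum_comm]
  refine sum_congr rfl fun w _ => ?_
  rw [← sum_mul]
  rfl

/-- a sum of an `S`-invariant function is divisible by the order of `S` -/
theorem dvd_sum_inv (S : Subgroup A) (F : A → ℤ) (hF : ∀ z, ∀ u ∈ S, F (z * u) = F z) :
    (Nat.card S : ℤ) ∣ ∑ z, F z := by
  classical
  have h1 := Fintype.sum_equiv (Subgroup.groupEquivQuotientProdSubgroup (s := S)) F
    (fun q => F (q.1.out)) ?_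
  · rw [h1, Fintype.sum_prod_type]
    simp only [sum_const, card_univ, nsmul_eq_mul]
    rw [← mul_sum, Nat.card_eq_fintype_card]
    exact dvd_mul_right _ _
  · intro x
    set q := Subgroup.groupEquivQuotientProdSubgroup (s := S) x with hq
    have h2 : x = (Subgroup.groupEquivQuotientProdSubgroup (s := S)).symm q := by
      rw [hq, Equiv.symm_apply_apply]
    have h3 : q.1 = QuotientGroup.mk x := by
      rw [hq]
      rfl
    have h4 : (q.1.out)⁻¹ * x ∈ S := by
      rw [← QuotientGroup.eq, ← h3, QuotientGroup.out_eq']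
    have h5 := hF q.1.out _ h4
    rw [← h5]
    congr 1
    group

end

end Pool.Agent.Helper31K9.RNG
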