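import Mathlib
import Pool.Agent.Helper31K9.RNG.AbsA

set_option autoImplicit false
set_option linter.unusedSectionVars false
set_option linter.unusedVariables false

/-!
# Correlations in a finite abelian group: the group algebra in characteristic `p`
-/

namespace Pool.Agent.Helper31K9.RNG

open Finset MonoidAlgebra

section
variable {A : Type} [CommGroup A] [Fintype A] [DecidableEq A]

/-- the indicator function of a subgroup -/
noncomputable def ind (S : Subgroup A) (x : A) : ℤ := by
  classical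
  exact if x ∈ S then 1 else 0

theorem ind_of_mem {S : Subgroup A} {x : A} (h : x ∈ S) : ind S x = 1 := by
  unfold ind
  rw [if_pos h]

theorem ind_of_not {S : Subgroup A} {x : A} (h : x ∉ S) : ind S x = 0 := by
  unfold ind
  rw [if_neg h]

theorem ind_inv (S : Subgroup A) (x : A) : ind S x⁻¹ = ind S x := by
  by_cases h : x ∈ S
  · rw [ind_of_mem h, ind_of_mem (S.inv_mem h)]
  · rw [ind_of_not h, ind_of_not (fun h' => h (by simpa using S.inv_mem h'))]

variable (p : ℕ) [Fact p.Prime]

/-- the element of the group algebra of a function -/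
noncomputable def el (f : A → ℤ) : MonoidAlgebra (ZMod p) A := ∑ y, single y ((f y : ℤ) : ZMod p)

theorem coeff_sum_single (c : A → ZMod p) (f : A → A) (x : A) :
    (∑ y, single (f y) (c y) : MonoidAlgebra (ZMod p) A).coeff x =
      ∑ y, if f y = x then c y else 0 := by
  rw [coeff_sum]
  simp [Finsupp.finsetSum_apply, Finsupp.single_apply]

theorem coeff_el (f : A → ℤ) (x : A) : (el p f).coeff x = ((f x : ℤ) : ZMod p) := by
  unfold el
  rw [coeff_sum_single p (fun y => ((f y : ℤ) : ZMod p)) (fun y => y)]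
  simp

theorem el_congr {f g : A → ℤ} (h : ∀ x, ((f x : ℤ) : ZMod p) = g x) : el p f = el p g := by
  unfold el
  exact sum_congr rfl fun y _ => by rw [h]

theorem el_eq_zero {f : A → ℤ} (h : ∀ x, ((f x : ℤ) : ZMod p) = 0) : el p f = 0 := by
  unfold el
  exact sum_eq_zero fun y _ => by rw [h]; simp

theorem el_add (f g : A → ℤ) : el p (fun x => f x + g x) = el p f + el p g := by
  unfold el
  rw [← sum_add_distrib]
  refine sum_congr rfl fun y _ => ?_
  rw [← single_add, Int.cast_add]

theorem el_smul (c : ℤ) (f : A → ℤ) : el p (fun x => c * f x) = c • el p f := by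
  unfold el
  rw [smul_sum]
  refine sum_congr rfl fun y _ => ?_
  rw [← MonoidAlgebra.coeff_inj]
  ext z
  simp [Finsupp.single_apply]

theorem el_mul (f g : A → ℤ) : el p f * el p g = el p (fun x => ∑ y, f y * g (y⁻¹ * x)) := by
  unfold el
  rw [sum_mul_sum]
  simp only [single_mul_single]
  have h1 : ∀ y : A, ∑ z, (single (y * z) (((f y : ℤ) : ZMod p) * ((g z : ℤ) : ZMod p)) :
      MonoidAlgebra (ZMod p) A) = ∑ x, single x (((f y * g (y⁻¹ * x) : ℤ)) : ZMod p) := by
    intro y
    refine Fintype.sum_equiv (Equiv.mulLeft y) _ _ fun z => ?_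
    simp only [Equiv.coe_mulLeft, inv_mul_cancel_left, Int.cast_mul]
  rw [sum_congr rfl fun y _ => h1 y, sum_comm]
  refine sum_congr rfl fun x _ => ?_
  rw [Int.cast_sum]
  exact (map_sum (singleAddHom x) _ _).symm

theorem el_pow (d : A → ℤ) : (el p d) ^ p = ∑ y, single (y ^ p) ((d y : ℤ) : ZMod p) := by
  have : CharP (MonoidAlgebra (ZMod p) A) p :=
    charP_of_injective_algebraMap (FaithfulSMul.algebraMap_injective (ZMod p)
      (MonoidAlgebra (ZMod p) A)) p
  unfold el
  rw [sum_pow_char]
  refine sum_congr rfl fun y _ => ?_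
  rw [single_pow, ZMod.pow_card]

theorem el_rep (d : A → ℤ) :
    el p (rep d p) = el p (fun x => d x⁻¹) * ∑ y, single (y ^ p) ((d y : ℤ) : ZMod p) := by
  unfold el
  rw [sum_mul_sum, sum_comm]
  simp only [single_mul_single]
  have h1 : ∀ z : A, ∑ y, (single (y * z ^ p) (((d y⁻¹ : ℤ) : ZMod p) * ((d z : ℤ) : ZMod p)) :
      MonoidAlgebra (ZMod p) A) = ∑ x, single x (((d z * d (z ^ p * x⁻¹) : ℤ)) : ZMod p) := by
    intro z
    refine Fintype.sum_equiv (Equiv.mulRight (z ^ p)) _ _ fun y => ?_
    simp only [Equiv.coe_mulRight]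
    rw [show z ^ p * (y * z ^ p)⁻¹ = y⁻¹ by rw [mul_inv, mul_comm y⁻¹, mul_inv_cancel_left],
      Int.cast_mul, mul_comm ((d z : ℤ) : ZMod p)]
  rw [sum_congr rfl fun z _ => h1 z, sum_comm]
  refine sum_congr rfl fun x _ => ?_
  unfold rep
  rw [Int.cast_sum]
  exact map_sum (singleAddHom x) _ _

theorem dvd_rep (hp : p ≠ 2) (S N : Subgroup A) (m s h a : ℤ) (hps : (p : ℤ) ∣ s) (d : A → ℤ)
    (hsum : ∑ y, d y = m * s)
    (hcorr : ∀ x, corr d x = m * s * h * ind S x - m * h * ind N x + m ^ 2)
    (hcoset : ∀ x, ∑ y, ind N y * d (y * x) = a * m) (x : A) : (p : ℤ) ∣ rep d p x := by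
  have hs0 : ((s : ℤ) : ZMod p) = 0 := (ZMod.intCast_zmod_eq_zero_iff_dvd s p).2 hps
  have e1 : el p (fun x => d x⁻¹) * el p d = (-(m * h)) • el p (ind N) + (m ^ 2) • el p (fun _ : A => 1) := by
    rw [el_mul, ← el_smul, ← el_smul, ← el_add]
    apply el_congr
    intro x
    have : ∑ y, d y⁻¹ * d (y⁻¹ * x) = corr d x := by
      unfold corr
      refine Fintype.sum_equiv (Equiv.inv A) _ _ fun y => ?_
      simp only [Equiv.inv_apply]
      rw [mul_comm y⁻¹ x]
    rw [this, hcorr]
    push_cast
    rw [hs0]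
    ring
  have e2 : el p (ind N) * el p d = (a * m) • el p (fun _ : A => 1) := by
    rw [el_mul, ← el_smul]
    apply el_congr
    intro x
    rw [mul_one, ← hcoset x]
    congr 1
    refine Fintype.sum_equiv (Equiv.inv A) _ _ fun y => ?_
    simp only [Equiv.inv_apply]
    rw [ind_inv]
  have e3 : el p (fun _ : A => 1) * el p d = 0 := by
    rw [el_mul]
    apply el_eq_zero
    intro x
    have : ∑ y, 1 * d (y⁻¹ * x) = m * s := by
      rw [← hsum]
      refine Fintype.sum_equiv ((Equiv.inv A).trans (Equiv.mulRight x)) _ _ fun y => ?_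
      simp
    rw [this]
    push_cast
    rw [hs0, mul_zero]
  have h3 : 3 ≤ p := by
    have := (Fact.out : p.Prime).two_le
    omega
  obtain ⟨r, hr⟩ := Nat.exists_eq_add_of_le h3
  have e4 : el p (rep d p) = 0 := by
    rw [el_rep, ← el_pow]
    have key : ∀ n, n = 3 + r → (el p d) ^ n = el p d * (el p d * (el p d * (el p d) ^ r)) := by
      intro n hn
      rw [hn]
      ring
    rw [key p hr, ← mul_assoc, e1, ← mul_assoc, add_mul, smul_mul_assoc, smul_mul_assoc, e2, e3,
      smul_zero, add_zero, smul_mul_assoc, smul_mul_assoc, ← mul_assoc, e3, zero_mul, smul_zero,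
      smul_zero]
  have e5 := coeff_el p (rep d p) x
  rw [e4] at e5
  exact (ZMod.intCast_zmod_eq_zero_iff_dvd _ p).1 e5.symm

end

end Pool.Agent.Helper31K9.RNG
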