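import Mathlib
import Pool.Agent.Helper31K9.RNG.AbsB

set_option autoImplicit false
set_option linter.unusedSectionVars false
set_option linter.unusedVariables false

/-!
# Correlations in a finite abelian group: the counts and the final inequality
-/

namespace Pool.Agent.Helper31K9.RNG

open Finset

section
variable {A : Type} [CommGroup A] [Fintype A] [DecidableEq A]

theorem card_rel {S T : Subgroup A} (h : S ≤ T) : Nat.card S * S.relIndex T = Nat.card T := by
  have h1 := Subgroup.relIndex_mul_relIndex (⊥ : Subgroup A) S T bot_le h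
  rwa [Subgroup.relIndex_bot_left, Subgroup.relIndex_bot_left] at h1

/-- the elements of `N` with `p`-th power in `S` -/
def tor (p : ℕ) (S N : Subgroup A) : Subgroup A := N ⊓ S.comap (powMonoidHom p)

theorem mem_tor {p : ℕ} {S N : Subgroup A} {w : A} : w ∈ tor p S N ↔ w ∈ N ∧ w ^ p ∈ S := by
  unfold tor
  rw [Subgroup.mem_inf, Subgroup.mem_comap]
  rfl

theorem le_tor {p : ℕ} {S N : Subgroup A} (h : S ≤ N) : S ≤ tor p S N :=
  fun w hw => mem_tor.2 ⟨h hw, S.pow_mem hw p⟩

theorem tor_lower {p : ℕ} (hp : p.Prime) {S N : Subgroup A} (h : S ≤ N) {r : ℕ}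
    (hr : Nat.card N = Nat.card S * r) (hpr : p ∣ r) :
    Nat.card S * p ≤ Nat.card (tor p S N) := by
  have : Fact p.Prime := ⟨hp⟩
  have hS : 0 < Nat.card S := Nat.card_pos
  have h1 : S.relIndex N = r := by
    have := card_rel h
    rw [hr] at this
    exact Nat.eq_of_mul_eq_mul_left hS this
  have h2 : p ∣ Nat.card (N ⧸ S.subgroupOf N) := by
    have : Nat.card (N ⧸ S.subgroupOf N) = r := h1
    rw [this]
    exact hpr
  obtain ⟨q, hq⟩ := exists_prime_orderOf_dvd_card' p h2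
  obtain ⟨w, rfl⟩ := QuotientGroup.mk_surjective q
  have h3 : (w : A) ^ p ∈ S := by
    have := pow_orderOf_eq_one (QuotientGroup.mk w : N ⧸ S.subgroupOf N)
    rw [hq, ← QuotientGroup.mk_pow, QuotientGroup.eq_one_iff, Subgroup.mem_subgroupOf] at this
    simpa using this
  have h4 : (w : A) ∉ S := by
    intro hw
    have : (QuotientGroup.mk w : N ⧸ S.subgroupOf N) = 1 := by
      rw [QuotientGroup.eq_one_iff, Subgroup.mem_subgroupOf]
      exact hw
    rw [this, orderOf_one] at hq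
    exact hp.one_lt.ne hq
  have hwT : (w : A) ∈ tor p S N := mem_tor.2 ⟨w.2, h3⟩
  have h5 : p ∣ S.relIndex (tor p S N) := by
    have e : orderOf (QuotientGroup.mk ⟨w, hwT⟩ : tor p S N ⧸ S.subgroupOf (tor p S N)) = p := by
      apply orderOf_eq_prime
      · rw [← QuotientGroup.mk_pow, QuotientGroup.eq_one_iff, Subgroup.mem_subgroupOf]
        simpa using h3
      · intro h6
        rw [QuotientGroup.eq_one_iff, Subgroup.mem_subgroupOf] at h6
        exact h4 h6
    have h7 := orderOf_dvd_natCard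
      (QuotientGroup.mk ⟨w, hwT⟩ : tor p S N ⧸ S.subgroupOf (tor p S N))
    rw [e] at h7
    exact h7
  rw [← card_rel (le_tor h)]
  apply Nat.mul_le_mul_left
  apply Nat.le_of_dvd _ h5
  apply Nat.pos_of_ne_zero
  intro h6
  have := card_rel (le_tor (p := p) h)
  rw [h6, mul_zero] at this
  have : 0 < Nat.card (tor p S N) := Nat.card_pos
  omega

theorem tor_upper {p : ℕ} (hp : p.Prime) {S N : Subgroup A} (h : S ≤ N) {s : ℕ}
    (hA : Nat.card A = s ^ 2) (hps : p ∣ s) (hps2 : ¬ p ^ 2 ∣ s) :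
    Nat.card (tor p S N) ≤ Nat.card S * p ^ 2 := by
  have : Fact p.Prime := ⟨hp⟩
  have h1 : IsPGroup p (tor p S N ⧸ S.subgroupOf (tor p S N)) := by
    intro q
    obtain ⟨w, rfl⟩ := QuotientGroup.mk_surjective q
    refine ⟨1, ?_⟩
    rw [← QuotientGroup.mk_pow, QuotientGroup.eq_one_iff, Subgroup.mem_subgroupOf]
    simpa using (mem_tor.1 w.2).2
  obtain ⟨j, hj⟩ := IsPGroup.iff_card.1 h1
  have hj' : S.relIndex (tor p S N) = p ^ j := hj
  rw [← card_rel (le_tor h), hj']
  apply Nat.mul_le_mul_left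
  have h2 : p ^ j ∣ s ^ 2 := by
    rw [← hA, ← hj']
    have h3 : S.relIndex (tor p S N) ∣ Nat.card (tor p S N) := by
      rw [← card_rel (le_tor h)]
      exact Dvd.intro_left _ rfl
    exact h3.trans (Subgroup.card_subgroup_dvd_card _)
  obtain ⟨u, rfl⟩ := hps
  have h4 : ¬ p ∣ u := by
    rintro ⟨v, rfl⟩
    exact hps2 ⟨v, by ring⟩
  have h5 : (p ^ j).Coprime (u ^ 2) :=
    Nat.Coprime.pow _ _ ((Nat.Prime.coprime_iff_not_dvd hp).2 h4)
  rw [mul_pow] at h2
  exact Nat.le_of_dvd (pow_pos hp.pos 2) (h5.dvd_of_dvd_mul_right h2)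

theorem sum_ind (S : Subgroup A) : ∑ x, ind S x = Nat.card S := by
  classical
  unfold ind
  rw [Finset.sum_boole, Nat.card_eq_fintype_card, Fintype.card_subtype]

theorem sum_ind_pow (p : ℕ) (S N : Subgroup A) :
    ∑ x, ind N x * ind S (x ^ p) = Nat.card (tor p S N) := by
  rw [← sum_ind]
  refine sum_congr rfl fun x _ => ?_
  by_cases h1 : x ∈ N
  · rw [ind_of_mem h1, one_mul]
    by_cases h2 : x ^ p ∈ S
    · rw [ind_of_mem h2, ind_of_mem (mem_tor.2 ⟨h1, h2⟩)]
    · rw [ind_of_not h2, ind_of_not fun h => h2 (mem_tor.1 h).2]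
  · rw [ind_of_not h1, ind_of_not fun h => h1 (mem_tor.1 h).1, zero_mul]

theorem ind_mul_ind {S N : Subgroup A} (h : S ≤ N) (x : A) : ind N x * ind S x = ind S x := by
  by_cases h1 : x ∈ S
  · rw [ind_of_mem (h h1), ind_of_mem h1, one_mul]
  · rw [ind_of_not h1, mul_zero]

theorem ind_mul_pow {S N : Subgroup A} (h : S ≤ N) (p : ℕ) (x : A) :
    ind S x * ind N (x ^ p) = ind S x := by
  by_cases h1 : x ∈ S
  · rw [ind_of_mem h1, ind_of_mem (N.pow_mem (h h1) p), one_mul]
  · rw [ind_of_not h1, zero_mul]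

/-- the coset sums -/
theorem coset_sum (S N : Subgroup A) (hSN : S ≤ N) (m s h a : ℤ) (hs : s ≠ 0) (d : A → ℤ)
    (hA : (Fintype.card A : ℤ) = s ^ 2) (hS : (Nat.card S : ℤ) = a)
    (hN : (Nat.card N : ℤ) = a * s) (hsum : ∑ y, d y = m * s)
    (hcorr : ∀ x, corr d x = m * s * h * ind S x - m * h * ind N x + m ^ 2) (x : A) :
    ∑ y, ind N y * d (y * x) = a * m := by
  set f : A → ℤ := fun x => ∑ y, ind N y * d (y * x) with hf
  have h1 : ∑ x, f x = (a * s) * (m * s) := by
    rw [hf]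
    simp only
    rw [sum_comm, ← hN, ← sum_ind, sum_mul]
    refine sum_congr rfl fun y _ => ?_
    rw [← mul_sum]
    congr 1
    rw [← hsum]
    exact Fintype.sum_equiv (Equiv.mulLeft y) _ _ (fun x => rfl)
  have h2 : ∑ w, ind N w * corr d w = m ^ 2 * a * s := by
    have : ∀ w, ind N w * corr d w = m * s * h * ind S w - m * h * ind N w + m ^ 2 * ind N w := by
      intro w
      rw [hcorr]
      have e1 := ind_mul_ind hSN w
      have e2 := ind_mul_ind (le_refl N) w
      linear_combination (m * s * h) * e1 - m * h * e2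
    rw [sum_congr rfl fun w _ => this w, sum_add_distrib, sum_sub_distrib, ← mul_sum, ← mul_sum,
      ← mul_sum, sum_ind, sum_ind, hS, hN]
    ring
  have h3 : ∑ x, f x ^ 2 = (a * s) * (m ^ 2 * a * s) := by
    have e1 : ∀ x, f x ^ 2 = ∑ y, ∑ y', ind N y * ind N y' * (d (y * x) * d (y' * x)) := by
      intro x
      rw [hf]
      simp only
      rw [sq, sum_mul_sum]
      refine sum_congr rfl fun y _ => sum_congr rfl fun y' _ => ?_
      ring
    rw [sum_congr rfl fun x _ => e1 x, sum_comm]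
    have e2 : ∀ y : A, ∑ x, ∑ y', ind N y * ind N y' * (d (y * x) * d (y' * x)) =
        ind N y * (m ^ 2 * a * s) := by
      intro y
      by_cases hy : y ∈ N
      · rw [ind_of_mem hy, one_mul, ← h2, sum_comm]
        refine (Fintype.sum_equiv (Equiv.mulRight y) _ _ fun w => ?_).symm
        simp only [Equiv.coe_mulRight]
        rw [← mul_sum, corr_pair, one_mul, mul_inv_cancel_right]
        congr 1
        by_cases hw : w ∈ N
        · rw [ind_of_mem hw, ind_of_mem (N.mul_mem hw hy)]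
        · rw [ind_of_not hw, ind_of_not fun h => hw ((N.mul_mem_cancel_right hy).1 h)]
      · rw [ind_of_not hy]
        simp
    rw [sum_congr rfl fun y _ => e2 y, ← sum_mul, sum_ind, hN]
  have h4 : ∑ x, (f x - a * m) ^ 2 = 0 := by
    have : ∀ x, (f x - a * m) ^ 2 = f x ^ 2 - 2 * (a * m) * f x + (a * m) ^ 2 := fun x => by ring
    rw [sum_congr rfl fun x _ => this x, sum_add_distrib, sum_sub_distrib, ← mul_sum, h1, h3,
      sum_const, card_univ, nsmul_eq_mul, hA]
    ring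
  have h5 := (sum_eq_zero_iff_of_nonneg (fun x _ => sq_nonneg _)).1 h4 x (mem_univ x)
  have h6 : f x - a * m = 0 := by
    simpa using h5
  linarith

theorem inv_S (S N : Subgroup A) (hSN : S ≤ N) (m s h : ℤ) (d : A → ℤ)
    (hcorr : ∀ x, corr d x = m * s * h * ind S x - m * h * ind N x + m ^ 2) {u : A}
    (hu : u ∈ S) (x : A) : d (u * x) = d x := by
  have h1 : ∑ x, (d (u * x) - d x) ^ 2 = 0 := by
    have e1 : ∀ x, (d (u * x) - d x) ^ 2 =
        d (u * x) * d (u * x) - 2 * (d (1 * x) * d (u * x)) + d (1 * x) * d (1 * x) := by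
      intro x
      rw [one_mul]
      ring
    rw [sum_congr rfl fun x _ => e1 x, sum_add_distrib, sum_sub_distrib, ← mul_sum, corr_pair,
      corr_pair, corr_pair, hcorr, hcorr, hcorr, inv_one, mul_one, mul_one, mul_inv_cancel,
      ind_of_mem hu, ind_of_mem (hSN hu), ind_of_mem S.one_mem, ind_of_mem N.one_mem]
    ring
  have h5 := (sum_eq_zero_iff_of_nonneg (fun x _ => sq_nonneg _)).1 h1 x (mem_univ x)
  have h6 : d (u * x) - d x = 0 := by
    simpa using h5
  linarith

/-- The abstract inequality; `τ` bounds the number of elements with `p`-th power in `S`. -/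
theorem abs_gen {p : ℕ} (hp : p.Prime) (hp2 : p ≠ 2) (S N : Subgroup A) (hSN : S ≤ N)
    (m s h a τ : ℕ) (hm : 0 < m) (hs : 0 < s) (hps : p ∣ s) (hpa : ¬ p ∣ a)
    (hA : Nat.card A = s ^ 2) (hS : Nat.card S = a) (hN : Nat.card N = a * s) (d : A → ℤ)
    (hsum : ∑ y, d y = m * s)
    (hcorr : ∀ x, corr d x = m * s * h * ind S x - m * h * ind N x + m ^ 2)
    (hτ : Nat.card (tor p S ⊤) ≤ a * τ) :
    (a : ℤ) * p * s ≤ a * h ^ 2 * (s - p) + a * h * m * (τ - p) + m ^ 2 * s := by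
  have : Fact p.Prime := ⟨hp⟩
  have ha : 0 < a := by
    rw [← hS]
    exact Nat.card_pos
  have hA' : (Fintype.card A : ℤ) = (s : ℤ) ^ 2 := by
    rw [← Nat.card_eq_fintype_card, hA]
    push_cast
    rfl
  have hS' : (Nat.card S : ℤ) = (a : ℤ) := by rw [hS]
  have hN' : (Nat.card N : ℤ) = (a : ℤ) * s := by
    rw [hN]
    push_cast
    rfl
  have hs' : (s : ℤ) ≠ 0 := by exact_mod_cast hs.ne'
  have hcos := coset_sum S N hSN m s h a hs' d hA' hS' hN' hsum hcorr
  have hdvd := dvd_rep p hp2 S N m s h a (by exact_mod_cast hps) d hsum hcorr hcos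
  have hinv : ∀ u ∈ S, ∀ x, d (u * x) = d x := fun u hu x => inv_S S N hSN m s h d hcorr hu x
  have hdvd2 : ∀ x, (a : ℤ) ∣ rep d p x := by
    intro x
    rw [← hS]
    unfold rep
    apply dvd_sum_inv
    intro z u hu
    rw [mul_comm z u, hinv u hu, mul_pow, mul_assoc, hinv _ (S.pow_mem hu p)]
  have hcop : IsCoprime (a : ℤ) (p : ℤ) := by
    rw [Nat.isCoprime_iff_coprime]
    exact ((Nat.Prime.coprime_iff_not_dvd hp).2 hpa).symm
  have hrep : ∀ x, (a * p : ℤ) * rep d p x ≤ rep d p x ^ 2 := by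
    intro x
    obtain ⟨c, hc⟩ := hcop.mul_dvd (hdvd2 x) (hdvd x)
    rw [hc]
    have h1 : (c : ℤ) ≤ c ^ 2 := Int.le_self_sq c
    have h2 : (0 : ℤ) ≤ (a * p) ^ 2 := sq_nonneg _
    nlinarith [mul_le_mul_of_nonneg_left h1 h2]
  have hlow : (a * p : ℤ) * (m * s) ^ 2 ≤ ∑ w, corr d w * corr d (w ^ p) := by
    rw [← sum_rep_sq, ← hsum, ← sum_rep d p, mul_sum]
    exact sum_le_sum fun x _ => hrep x
  -- the counts
  have c1 : (a : ℤ) * p ≤ ∑ x, ind N x * ind S (x ^ p) := by
    rw [sum_ind_pow]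
    have := tor_lower hp hSN (r := s) (by rw [hN, hS]) hps
    rw [hS] at this
    exact_mod_cast this
  have c2 : ∑ x : A, ind S (x ^ p) ≤ (a : ℤ) * τ := by
    have e : ∑ x : A, ind S (x ^ p) = ∑ x : A, ind (⊤ : Subgroup A) x * ind S (x ^ p) := by
      refine sum_congr rfl fun x _ => ?_
      rw [ind_of_mem (Subgroup.mem_top x), one_mul]
    rw [e, sum_ind_pow]
    exact_mod_cast hτ
  have c3 : (a : ℤ) * s * p ≤ ∑ x : A, ind N (x ^ p) := by
    have e : ∑ x : A, ind N (x ^ p) = ∑ x : A, ind (⊤ : Subgroup A) x * ind N (x ^ p) := by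
      refine sum_congr rfl fun x _ => ?_
      rw [ind_of_mem (Subgroup.mem_top x), one_mul]
    rw [e, sum_ind_pow]
    have h1 : a * s ∣ s ^ 2 := by
      rw [← hA, ← hN]
      exact Subgroup.card_subgroup_dvd_card N
    obtain ⟨r, hr⟩ := h1
    have h2 : s = a * r := by
      apply Nat.eq_of_mul_eq_mul_left hs
      rw [← sq, hr]
      ring
    have h3 : p ∣ r := by
      rw [h2] at hps
      exact ((Nat.Prime.dvd_mul hp).1 hps).resolve_left hpa
    have := tor_lower hp (le_top : N ≤ ⊤) (r := r) (by rw [Subgroup.card_top, hA, hN, hr]) h3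
    rw [hN] at this
    exact_mod_cast this
  have hup : ∑ w, corr d w * corr d (w ^ p) =
      (m * s * h) ^ 2 * a - (m * s * h) * (m * h) * a + (m * s * h) * m ^ 2 * a
      - (m * h) * (m * s * h) * (∑ x, ind N x * ind S (x ^ p)) + (m * h) ^ 2 * (a * s)
      - (m * h) * m ^ 2 * (a * s) + m ^ 2 * (m * s * h) * (∑ x : A, ind S (x ^ p))
      - m ^ 2 * (m * h) * (∑ x : A, ind N (x ^ p)) + (m ^ 2) ^ 2 * s ^ 2 := by
    have e : ∀ w : A, corr d w * corr d (w ^ p) =
        (m * s * h) ^ 2 * ind S w - (m * s * h) * (m * h) * ind S w + (m * s * h) * m ^ 2 * ind S w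
      - (m * h) * (m * s * h) * (ind N w * ind S (w ^ p)) + (m * h) ^ 2 * ind N w
      - (m * h) * m ^ 2 * ind N w + m ^ 2 * (m * s * h) * ind S (w ^ p)
      - m ^ 2 * (m * h) * ind N (w ^ p) + (m ^ 2) ^ 2 := by
      intro w
      rw [hcorr, hcorr]
      have e1 := ind_mul_pow (le_refl S) p w
      have e2 := ind_mul_pow hSN p w
      have e3 := ind_mul_pow (le_refl N) p w
      linear_combination (m * s * h : ℤ) ^ 2 * e1 - (m * s * h : ℤ) * (m * h) * e2 +
        (m * h : ℤ) ^ 2 * e3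
    rw [sum_congr rfl fun w _ => e w]
    simp only [sum_add_distrib, sum_sub_distrib, ← mul_sum]
    rw [sum_ind, sum_ind, hS', hN', sum_const, card_univ, nsmul_eq_mul, hA']
    ring
  set C1 := ∑ x, ind N x * ind S (x ^ p) with hC1
  set C2 := ∑ x : A, ind S (x ^ p) with hC2
  set C3 := ∑ x : A, ind N (x ^ p) with hC3
  have hm' : (0 : ℤ) < m := by exact_mod_cast hm
  have hs0 : (0 : ℤ) < s := by exact_mod_cast hs
  have hh0 : (0 : ℤ) ≤ h := by positivity
  have b1 := mul_le_mul_of_nonneg_left c1 (show (0 : ℤ) ≤ (m * h) * (m * s * h) by positivity)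
  have b2 := mul_le_mul_of_nonneg_left c2 (show (0 : ℤ) ≤ m ^ 2 * (m * s * h) by positivity)
  have b3 := mul_le_mul_of_nonneg_left c3 (show (0 : ℤ) ≤ m ^ 2 * (m * h) by positivity)
  have hfin : ((m : ℤ) ^ 2 * s) * (a * p * s) ≤ ((m : ℤ) ^ 2 * s) *
      (a * h ^ 2 * (s - p) + a * h * m * (τ - p) + m ^ 2 * s) := by
    rw [hup] at hlow
    nlinarith [hlow, b1, b2, b3]
  exact le_of_mul_le_mul_left hfin (by positivity)

/-- The abstract inequality. -/
theorem abs_ineq {p : ℕ} (hp : p.Prime) (hp2 : p ≠ 2) (S N : Subgroup A) (hSN : S ≤ N)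
    (m s h a : ℕ) (hm : 0 < m) (hs : 0 < s) (hps : p ∣ s) (hps2 : ¬ p ^ 2 ∣ s) (hpa : ¬ p ∣ a)
    (hA : Nat.card A = s ^ 2) (hS : Nat.card S = a) (hN : Nat.card N = a * s) (d : A → ℤ)
    (hsum : ∑ y, d y = m * s)
    (hcorr : ∀ x, corr d x = m * s * h * ind S x - m * h * ind N x + m ^ 2) :
    (a : ℤ) * p * s ≤ a * h ^ 2 * (s - p) + a * h * m * p * (p - 1) + m ^ 2 * s := by
  have h1 := abs_gen hp hp2 S N hSN m s h a (p ^ 2) hm hs hps hpa hA hS hN d hsum hcorr (by
    have := tor_upper hp (le_top : S ≤ ⊤) hA hps hps2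
    rwa [hS] at this)
  have h2 : (a : ℤ) * h * m * (((p ^ 2 : ℕ) : ℤ) - p) = a * h * m * p * (p - 1) := by
    push_cast
    ring
  rwa [h2] at h1

end

end Pool.Agent.Helper31K9.RNG
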