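import Pool.Agent.Helper31K9.RNG.PlaneB

set_option autoImplicit false
set_option linter.unusedSectionVars false
set_option linter.unusedVariables false

/-!
# An abelian quotient of a nilpotent group
-/

namespace Pool.Agent.Helper31K9.RNG

open Finset
open scoped Pointwise
open Pool.Agent.R116.AF (Aff derB derived derAct derAct_inv IsSteiner)

theorem fac_one {n q : ℕ} (hq : q.Prime) (hqn : q ∣ n) (hq2 : ¬ q ^ 2 ∣ n) :
    n.factorization q = 1 := by
  obtain ⟨u, rfl⟩ := hqn
  have h4 : ¬ q ∣ u := by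
    rintro ⟨v, rfl⟩
    exact hq2 ⟨v, by ring⟩
  have hu : u ≠ 0 := by rintro rfl; simp at h4
  rw [Nat.factorization_mul hq.ne_zero hu, Finsupp.add_apply, hq.factorization_self,
    Nat.factorization_eq_zero_of_not_dvd h4]

theorem hall_quot (G : Type) [Group G] [Finite G] [hnil : Group.IsNilpotent G] {m n : ℕ}
    (hG : Nat.card G = (m * n) ^ 2) (hm : 0 < m) (hn : 0 < n) (hmn : m.Coprime n)
    (hsq : Squarefree n) :
    ∃ H : Subgroup G, H.Normal ∧ Nat.card (G ⧸ H) = n ^ 2 ∧ ∀ x y : G, (y * x)⁻¹ * (x * y) ∈ H := by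
  classical
  obtain ⟨E⟩ := ((Group.isNilpotent_of_finite_tfae (G := G)).out 0 4).mp hnil
  set f : G →* (∀ p : (Nat.card G).primeFactors, ∀ P : Sylow p G, P) := E.symm.toMonoidHom with hf
  have hinj : ∀ x : G, f x = 1 → x = 1 := by
    intro x hx
    have : E.symm x = E.symm 1 := by
      rw [map_one]
      exact hx
    exact E.symm.injective this
  have hsyl : ∀ (q : (Nat.card G).primeFactors), (q : ℕ) ∣ n → ∀ P : Sylow q G,
      Nat.card P = (q : ℕ) ^ 2 := by
    intro q hqn P
    have hq : (q : ℕ).Prime := Nat.prime_of_mem_primeFactors q.2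
    have : Fact (q : ℕ).Prime := ⟨hq⟩
    rw [P.card_eq_multiplicity]
    congr 1
    have h1 : n.factorization q = 1 := by
      apply fac_one hq hqn
      intro h2
      rw [sq] at h2
      have := hsq _ h2
      rw [Nat.isUnit_iff] at this
      exact hq.one_lt.ne' this
    have h2 : ¬ (q : ℕ) ∣ m := by
      intro h3
      have := Nat.dvd_gcd h3 hqn
      rw [hmn] at this
      exact hq.one_lt.ne' (Nat.dvd_one.1 this)
    have h3 : (m * n).factorization q = 1 := by
      rw [Nat.factorization_mul hm.ne' hn.ne', Finsupp.add_apply, h1,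
        Nat.factorization_eq_zero_of_not_dvd h2]
    have h4 : ∀ r : ℕ, (m * n).factorization r = 1 → (Nat.card G).factorization r = 2 := by
      intro r hr
      rw [hG, Nat.factorization_pow]
      simp [hr]
    exact h4 q h3
  let H : Subgroup G :=
    { carrier := {x | ∀ q : (Nat.card G).primeFactors, (q : ℕ) ∣ n → ∀ P : Sylow q G, f x q P = 1}
      one_mem' := by
        intro q _ P
        rw [map_one]
        rfl
      mul_mem' := by
        intro a b ha hb q hq P
        rw [map_mul, Pi.mul_apply, Pi.mul_apply, ha q hq P, hb q hq P, one_mul]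
      inv_mem' := by
        intro a ha q hq P
        rw [map_inv, Pi.inv_apply, Pi.inv_apply, ha q hq P, inv_one] }
  have hH : ∀ x, x ∈ H ↔ ∀ q : (Nat.card G).primeFactors, (q : ℕ) ∣ n → ∀ P : Sylow q G,
      f x q P = 1 := fun x => Iff.rfl
  have hHn : H.Normal := by
    refine ⟨fun x hx g => ?_⟩
    rw [hH] at hx ⊢
    intro q hq P
    rw [map_mul, map_mul, map_inv, Pi.mul_apply, Pi.mul_apply, Pi.mul_apply, Pi.mul_apply,
      hx q hq P, Pi.inv_apply, Pi.inv_apply, mul_one, mul_inv_cancel]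
  have hcomm : ∀ x y : G, (y * x)⁻¹ * (x * y) ∈ H := by
    intro x y
    rw [hH]
    intro q hq P
    have : Fact (q : ℕ).Prime := ⟨Nat.prime_of_mem_primeFactors q.2⟩
    have h1 := IsPGroup.isMulCommutative_of_card_eq_prime_sq (hsyl q hq P)
    have h2 : f x q P * f y q P = f y q P * f x q P := h1.is_comm.comm _ _
    rw [map_mul, map_inv, map_mul, map_mul, Pi.mul_apply, Pi.mul_apply, Pi.inv_apply,
      Pi.inv_apply, Pi.mul_apply, Pi.mul_apply, Pi.mul_apply, Pi.mul_apply, h2, inv_mul_cancel]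
  refine ⟨H, hHn, ?_, hcomm⟩
  have hα : (Nat.card H).Coprime n := by
    rw [Nat.coprime_iff_gcd_eq_one]
    by_contra hne
    obtain ⟨q, hq, hqd⟩ := Nat.exists_prime_and_dvd hne
    have : Fact q.Prime := ⟨hq⟩
    obtain ⟨x, hx⟩ := exists_prime_orderOf_dvd_card' q (hqd.trans (Nat.gcd_dvd_left _ _))
    have hqn : q ∣ n := hqd.trans (Nat.gcd_dvd_right _ _)
    have hxq : (x : G) ^ q = 1 := by
      have h1 : orderOf (x : G) = q := by rw [Subgroup.orderOf_coe, hx]
      rw [← h1]
      exact pow_orderOf_eq_one _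
    have hx1 : (x : G) = 1 := by
      apply hinj
      funext r P
      by_cases hrn : (r : ℕ) ∣ n
      · exact (hH x).1 x.2 r hrn P
      · have hr : (r : ℕ).Prime := Nat.prime_of_mem_primeFactors r.2
        have : Fact (r : ℕ).Prime := ⟨hr⟩
        have h1 : (f x r P) ^ q = 1 := by
          have h2 : f ((x : G) ^ q) = 1 := by rw [hxq, map_one]
          rw [map_pow] at h2
          have h3 := congrFun (congrFun h2 r) P
          exact h3
        obtain ⟨j, hj⟩ := P.isPGroup' (f x r P)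
        have h4 := orderOf_dvd_of_pow_eq_one h1
        have h5 := orderOf_dvd_of_pow_eq_one hj
        have h6 : q.Coprime ((r : ℕ) ^ j) := by
          apply Nat.Coprime.pow_right
          rw [Nat.coprime_primes hq hr]
          rintro rfl
          exact hrn hqn
        have h7 := Nat.eq_one_of_dvd_coprimes h6 h4 h5
        exact orderOf_eq_one_iff.1 h7
    have hx2 : x = 1 := Subtype.ext hx1
    rw [hx2, orderOf_one] at hx
    exact hq.one_lt.ne hx
  have hβ : (Nat.card (G ⧸ H)).Coprime m := by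
    rw [Nat.coprime_iff_gcd_eq_one]
    by_contra hne
    obtain ⟨q, hq, hqd⟩ := Nat.exists_prime_and_dvd hne
    have : Fact q.Prime := ⟨hq⟩
    obtain ⟨y, hy⟩ := exists_prime_orderOf_dvd_card' q (hqd.trans (Nat.gcd_dvd_left _ _))
    have hqm : q ∣ m := hqd.trans (Nat.gcd_dvd_right _ _)
    obtain ⟨x, rfl⟩ := QuotientGroup.mk_surjective y
    have h1 : x ^ (n ^ 2) ∈ H := by
      rw [hH]
      intro r hrn P
      rw [map_pow, Pi.pow_apply, Pi.pow_apply]
      apply orderOf_dvd_iff_pow_eq_one.1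
      refine (orderOf_dvd_natCard _).trans ?_
      exact (dvd_of_eq (hsyl r hrn P)).trans (pow_dvd_pow_of_dvd hrn 2)
    have h2 : (QuotientGroup.mk x : G ⧸ H) ^ (n ^ 2) = 1 := by
      rw [← QuotientGroup.mk_pow, QuotientGroup.eq_one_iff]
      exact h1
    have h3 := orderOf_dvd_of_pow_eq_one h2
    rw [hy] at h3
    have h4 := hq.dvd_of_dvd_pow h3
    have := Nat.dvd_gcd hqm h4
    rw [hmn] at this
    exact hq.one_lt.ne' (Nat.dvd_one.1 this)
  have h1 := H.card_mul_index
  rw [hG, Subgroup.index_eq_card, mul_pow] at h1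
  rcases coprime_split h1 (Nat.Coprime.pow_right 2 hα) ((Nat.Coprime.pow_right 2 hβ).symm) with
    h2 | h2 | h2
  · exact h2.2
  · exact absurd h2 Nat.card_pos.ne'
  · exact absurd h2 Nat.card_pos.ne'

section
variable {V : Type} [Fintype V] [DecidableEq V] {k : ℕ} {B : Finset (Finset V)}
variable {G : Type} [Group G] [Fintype G] [DecidableEq G] [MulAction G V]

theorem plane_nil [Group.IsNilpotent G] (h : Aff k B) (hinv : ∀ (g : G), ∀ b ∈ B, g • b ∈ B)
    (hr : Reg G V) {m n : ℕ} (hk : k = m * n) (hmn : m.Coprime n) (hsq : Squarefree n) {p : ℕ}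
    (hp : p.Prime) (hp2 : p ≠ 2) (hpn : p ∣ n) :
    ((p : ℤ) - 2 * m ^ 2) * n ≤ m ^ 2 * p * (p - 2) := by
  classical
  have hk2 := h.two
  have hm : 0 < m := Nat.pos_of_ne_zero (by rintro rfl; simp at hk; omega)
  have hn : 0 < n := Nat.pos_of_ne_zero (by rintro rfl; simp at hk; omega)
  have hcard : 0 < Fintype.card V := by
    rw [h.card]
    exact pow_pos (by omega) 2
  obtain ⟨x0⟩ : Nonempty V := Fintype.card_pos_iff.1 hcard
  have hpn2 : ¬ p ^ 2 ∣ n := by
    intro h2
    rw [sq] at h2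
    have := hsq _ h2
    rw [Nat.isUnit_iff] at this
    exact hp.one_lt.ne' this
  have hpm : ¬ p ∣ m := by
    intro h3
    have := Nat.dvd_gcd h3 hpn
    rw [hmn] at this
    exact hp.one_lt.ne' (Nat.dvd_one.1 this)
  have hpk2 : ¬ p ^ 2 ∣ k := by
    rw [hk]
    intro h2
    have h3 : (p ^ 2).Coprime m := Nat.Coprime.pow_left 2 ((Nat.Prime.coprime_iff_not_dvd hp).2 hpm)
    exact hpn2 (h3.dvd_of_dvd_mul_left h2)
  have hpk : p ∣ k := by
    rw [hk]
    exact Dvd.dvd.mul_left hpn m
  rcases exists_line h hinv hr x0 hp hpk hpk2 with h1 | ⟨L, hL, -, hpL⟩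
  · -- the order is prime
    have h2 : p * m ≤ p := by
      have h3 := Nat.le_of_dvd hn hpn
      calc p * m = m * p := mul_comm _ _
        _ ≤ m * n := Nat.mul_le_mul_left m h3
        _ = p := by rw [← hk, h1]
    have hm1 : m = 1 := by
      have h4 : p * m ≤ p * 1 := by rwa [mul_one]
      have := Nat.le_of_mul_le_mul_left h4 hp.pos
      omega
    subst hm1
    rw [one_mul] at hk
    have : n = p := by rw [← hk, h1]
    subst this
    push_cast
    nlinarith
  · obtain ⟨H, hHn, hHc, hcomm⟩ := hall_quot G (m := m) (n := n)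
      (by rw [card_reg h hr x0, hk]) hm hn hmn hsq
    let : CommGroup (G ⧸ H) :=
      { (inferInstance : Group (G ⧸ H)) with
        mul_comm := by
          intro a b
          obtain ⟨x, rfl⟩ := QuotientGroup.mk_surjective a
          obtain ⟨y, rfl⟩ := QuotientGroup.mk_surjective b
          rw [← QuotientGroup.mk_mul, ← QuotientGroup.mk_mul]
          exact (QuotientGroup.eq.2 (hcomm x y)).symm }
    let : Fintype (G ⧸ H) := Fintype.ofFinite _
    exact plane_ineq h hinv hr hL x0 (A := G ⧸ H) (QuotientGroup.mk' H)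
      (QuotientGroup.mk'_surjective H) hk hmn hHc hp hp2 hpn hpn2 hpL

end

/-- There is a Steiner system `S(k ^ 2 + t, k + t, t + 2)` with a nilpotent group `G` of
automorphisms which fixes each point of a set `F` of `t` points and acts regularly on the
`k ^ 2` points outside `F`. -/
def HasReg (k t : ℕ) : Prop :=
  ∃ (B : Finset (Finset (Fin (k ^ 2 + t)))) (G : Subgroup (Equiv.Perm (Fin (k ^ 2 + t))))
    (F : Finset (Fin (k ^ 2 + t))), IsSteiner (k ^ 2 + t) (k + t) (t + 2) B ∧
    Group.IsNilpotent G ∧ (∀ g ∈ G, ∀ b ∈ B, b.image g ∈ B) ∧ F.card = t ∧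
    (∀ g ∈ G, ∀ x ∈ F, g x = x) ∧ ∀ x y, x ∉ F → y ∉ F → ∃! g, g ∈ G ∧ g x = y

theorem hasReg_ineq {k t : ℕ} (hk : 2 ≤ k) (h : HasReg k t) {m n : ℕ} (hkm : k = m * n)
    (hmn : m.Coprime n) (hsq : Squarefree n) {p : ℕ} (hp : p.Prime) (hp2 : p ≠ 2) (hpn : p ∣ n) :
    ((p : ℤ) - 2 * m ^ 2) * n ≤ m ^ 2 * p * (p - 2) := by
  classical
  obtain ⟨B, G, F, hB, hnil, hinv, hF, hfix, hreg⟩ := h
  have hA : Aff k (derB B F) := derived hk rfl hB hF
  let := derAct G F hfix
  have hinv' := derAct_inv G F hfix hinv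
  have : Fintype G := Fintype.ofFinite G
  refine plane_nil (G := G) hA hinv' ⟨?_, ?_⟩ hkm hmn hsq hp hp2 hpn
  · intro x y
    obtain ⟨g, ⟨hg, hgxy⟩, -⟩ := hreg x y x.2 y.2
    exact ⟨⟨g, hg⟩, Subtype.ext hgxy⟩
  · intro g x hgx
    have h1 := (hreg x x x.2 x.2).unique (y₁ := (g : Equiv.Perm _)) (y₂ := 1)
      ⟨g.2, congrArg Subtype.val hgx⟩ ⟨G.one_mem, rfl⟩
    exact Subtype.ext h1

end Pool.Agent.Helper31K9.RNG
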