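import Pool.Agent.Helper31K9.RNG.StF
import Pool.Agent.Helper31K9.RNG.PlaneC

set_option autoImplicit false
set_option linter.unusedSectionVars false
set_option linter.unusedVariables false

/-!
# Arbitrary regular groups
-/

namespace Pool.Agent.Helper31K9.RNG

open Finset
open scoped Pointwise
open Pool.Agent.R116.AF (Aff par par_refl NN mem_NN stab_le derB derived derAct derAct_inv IsSteiner)

section
variable {V : Type} [Fintype V] [DecidableEq V] {k : ℕ} {B : Finset (Finset V)}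
variable {G : Type} [Group G] [Fintype G] [DecidableEq G] [MulAction G V]

theorem plane_any (hgr : S_GRF) (hsy : S_SYF) (hbu : S_BUR) (hfr : S_FRE) (h : Aff k B)
    (hinv : ∀ (g : G), ∀ b ∈ B, g • b ∈ B) (hr : Reg G V) {m p : ℕ} (hk : k = m * p)
    (hp : p.Prime) (hpm : ¬ p ∣ m) (hm : 2 ≤ m) (hcop : m.Coprime (p ^ 2 - 1)) :
    p ≤ 4 * m ^ 4 ∨ ∃ s, 0 < s ∧ s < m ∧ Exc p (m * s) := by
  classical
  by_cases hbig : p ≤ 4 * m ^ 4
  · exact Or.inl hbig
  right
  push Not at hbig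
  have hm4 : m ^ 2 ≤ m ^ 4 := Nat.pow_le_pow_right (by omega) (by norm_num)
  have hm1 : 1 ≤ m ^ 2 := Nat.one_le_pow _ _ (by omega)
  have hp2 : p ≠ 2 := by
    rintro rfl
    omega
  have hk2 := h.two
  have hcard : 0 < Fintype.card V := by
    rw [h.card]
    exact pow_pos (by omega) 2
  obtain ⟨x0⟩ : Nonempty V := Fintype.card_pos_iff.1 hcard
  have hmn : m.Coprime p := ((Nat.Prime.coprime_iff_not_dvd hp).2 hpm).symm
  obtain ⟨H, hHn, hHc, hcomm⟩ := hbu G inferInstance inferInstance p m hp hpm hcop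
    (by rw [card_reg h hr x0, hk])
  have hHcard : Nat.card H = m ^ 2 := by
    have h1 := H.card_mul_index
    rw [Subgroup.index_eq_card, hHc, card_reg h hr x0, hk, mul_pow] at h1
    exact Nat.eq_of_mul_eq_mul_right (pow_pos hp.pos 2) h1
  obtain ⟨L, hL, -, hLs⟩ := hfr V inferInstance inferInstance k B G inferInstance inferInstance
    inferInstance inferInstance h hinv hr x0 m H hm (by rw [hk]; nlinarith [hp.two_le]) hHcard
  let : CommGroup (G ⧸ H) :=
    { (inferInstance : Group (G ⧸ H)) with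
      mul_comm := by
        intro a b
        obtain ⟨x, rfl⟩ := QuotientGroup.mk_surjective a
        obtain ⟨y, rfl⟩ := QuotientGroup.mk_surjective b
        rw [← QuotientGroup.mk_mul, ← QuotientGroup.mk_mul]
        exact (QuotientGroup.eq.2 (hcomm x y)).symm }
  let : Fintype (G ⧸ H) := Fintype.ofFinite _
  obtain ⟨hh, d, hh0, hhm, s1, hN, hsum, hcorr⟩ := plane_data h hinv hr hL x0
    (A := G ⧸ H) (QuotientGroup.mk' H) (QuotientGroup.mk'_surjective H) hk hmn hHc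
  have hhlt : hh < m := by
    have h1 := card_inf_map (QuotientGroup.mk' H) (MulAction.stabilizer G L)
    rw [← s1] at h1
    have h2 : 0 < Nat.card ((MulAction.stabilizer G L).map (QuotientGroup.mk' H)) := Nat.card_pos
    have h3 := Nat.eq_of_mul_eq_mul_right h2 h1
    rw [QuotientGroup.ker_mk'] at h3
    rw [← h3]
    exact hLs
  refine ⟨hh, hh0, hhlt, hsy hgr (G ⧸ H) inferInstance inferInstance inferInstance p m hh hp hp2
    hm hh0 hhlt ?_ hHc _ _ (Subgroup.map_mono (stab_le h hinv hL)) hN d hsum hcorr⟩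
  have h1 : (m * hh) ^ 2 ≤ m ^ 4 := by
    calc (m * hh) ^ 2 ≤ (m * m) ^ 2 := Nat.pow_le_pow_left (Nat.mul_le_mul_left m hhlt.le) 2
      _ = m ^ 4 := by ring
  omega

end

/-- There is a Steiner system `S(k ^ 2 + t, k + t, t + 2)` with a group `G` of
automorphisms which fixes each point of a set `F` of `t` points and acts regularly on the
`k ^ 2` points outside `F`. -/
def HasAny (k t : ℕ) : Prop :=
  ∃ (B : Finset (Finset (Fin (k ^ 2 + t)))) (G : Subgroup (Equiv.Perm (Fin (k ^ 2 + t))))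
    (F : Finset (Fin (k ^ 2 + t))), IsSteiner (k ^ 2 + t) (k + t) (t + 2) B ∧
    (∀ g ∈ G, ∀ b ∈ B, b.image g ∈ B) ∧ F.card = t ∧
    (∀ g ∈ G, ∀ x ∈ F, g x = x) ∧ ∀ x y, x ∉ F → y ∉ F → ∃! g, g ∈ G ∧ g x = y

theorem hasAny_big (hgr : S_GRF) (hsy : S_SYF) (hbu : S_BUR) (hfr : S_FRE) {k t : ℕ} (hk : 2 ≤ k)
    (h : HasAny k t) {m p : ℕ} (hkm : k = m * p) (hp : p.Prime) (hpm : ¬ p ∣ m) (hm : 2 ≤ m)
    (hcop : m.Coprime (p ^ 2 - 1)) :
    p ≤ 4 * m ^ 4 ∨ ∃ s, 0 < s ∧ s < m ∧ Exc p (m * s) := by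
  classical
  obtain ⟨B, G, F, hB, hinv, hF, hfix, hreg⟩ := h
  have hA : Aff k (derB B F) := derived hk rfl hB hF
  let := derAct G F hfix
  have hinv' := derAct_inv G F hfix hinv
  have : Fintype G := Fintype.ofFinite G
  refine plane_any hgr hsy hbu hfr (G := G) hA hinv' ⟨?_, ?_⟩ hkm hp hpm hm hcop
  · intro x y
    obtain ⟨g, ⟨hg, hgxy⟩, -⟩ := hreg x y x.2 y.2
    exact ⟨⟨g, hg⟩, Subtype.ext hgxy⟩
  · intro g x hgx
    have h1 := (hreg x x x.2 x.2).unique (y₁ := (g : Equiv.Perm _)) (y₂ := 1)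
      ⟨g.2, congrArg Subtype.val hgx⟩ ⟨G.one_mem, rfl⟩
    exact Subtype.ext h1

end Pool.Agent.Helper31K9.RNG
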