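import Pool.Agent.Helper31K9.RNG.QA

set_option autoImplicit false

/-!
# Orders of primes modulo the large prime: statements
-/

namespace Pool.Agent.Helper31K9.RNG

open Finset

/-- [DVQ] Proof: in the group algebra `R = (ZMod q)[ZMod p]` let `y = ∑ x, b x * [x]` and
`y' = ∑ x, b x * [- x]`. Then `y * y' = m = 0` and (Frobenius) `y ^ (q ^ r) = ∑ x, b x * [q ^ r x]`,
so `(∑ x, b x * [t x]) * y' = y ^ (q ^ r - 1) * (y * y') = 0` for `t = q ^ r`. Let `b x0 ≠ 0`,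
`S = support of b`, `card S ≤ m`. There are at most `m * (m - 1)` ratios `(j - x0) / (i - x0)`,
`i, j ∈ S`, `i ≠ x0`, so some power `t` of `q` is not such a ratio. Then the coefficient of
`[t x0 - x0]` in the product is `b x0 * b x0` (`t i - j = t x0 - x0` with `i, j ∈ S` only for
`i = j = x0`), so `q ∣ b x0 ^ 2`. -/
def S_DVQ : Prop := ∀ (p q : ℕ) (_ : Fact p.Prime) (_ : Fact q.Prime) (b : ZMod p → ℤ) (m : ℕ),
  ∑ x, b x ^ 2 = m → (∀ z, z ≠ 0 → co b z = 0) → q ∣ m → m ^ 2 < orderOf (q : ZMod p) →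
  ∀ x, (q : ℤ) ∣ b x

/-- [CN2] Strong induction on `m`: `m ≤ 1` is clear; otherwise divide `b` by a prime factor of
`m` (`S_DVQ`). -/
def S_CN2 : Prop := ∀ (p : ℕ) (_ : Fact p.Prime) (m : ℕ) (b : ZMod p → ℤ),
  ∑ x, b x ^ 2 = m → (∀ z, z ≠ 0 → co b z = 0) →
  (∀ q : ℕ, q.Prime → q ∣ m → m ^ 2 < orderOf (q : ZMod p)) → ∃ j, ∀ x, x ≠ j → b x = 0

/-- the two conditions on the orders -/
structure Cond2 (P : ℕ → Prop) : Prop where
  ineq : ∀ k, P k → ∀ m n p : ℕ, k = m * n → m.Coprime n → Squarefree n → p.Prime → p ≠ 2 → p ∣ n →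
    ((p : ℤ) - 2 * m ^ 2) * n ≤ m ^ 2 * p * (p - 2)
  big : ∀ k, P k → ∀ m p : ℕ, k = m * p → p.Prime → ¬ p ∣ m → 2 ≤ m →
    p ≤ 4 * m ^ 2 ∨ ∃ q : ℕ, q.Prime ∧ q ∣ m ∧ orderOf (q : ZMod p) ≤ m ^ 2

/-- [CND] As `CntA.lean` (`struct`), `CntB.lean` (`count_bound`) and `ROL/Cnt.lean`
(`count_main`, the parameters `D = 2 ^ u`, `12 u ^ 2 ≤ log X`), but the third alternative of
`struct` is now: `k = m * p`, `m ≤ 2 D ^ 9`, `p` a prime not dividing `m` and some prime `q ∣ m` has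
`orderOf (q : ZMod p) ≤ m ^ 2`, so `p ∣ q ^ i - 1` for some `1 ≤ i ≤ m ^ 2`; there are at most
`W ^ 8`, `W = 2 D ^ 9`, such `k` (`Nat.primeFactors (q ^ i - 1)` has at most `log 2` elements). -/
def S_CND : Prop := ∃ C : ℝ, 0 < C ∧ ∀ P : ℕ → Prop, Cond2 P → ∀ X : ℕ, 1 ≤ X →
  ({k : ℕ | k ≤ X ∧ 2 ≤ k ∧ ¬ k.Prime ∧ P k}.ncard : ℝ) ≤
    C * X * Real.exp (-(Real.sqrt (Real.log X) / 16))

end Pool.Agent.Helper31K9.RNG
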