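import Pool.Agent.Helper31K9.RNG.PlaneD
import Pool.Agent.Helper31K9.RNG.St2

set_option autoImplicit false
set_option linter.unusedSectionVars false
set_option linter.unusedVariables false

/-!
# Orders with a large prime factor: orders of primes modulo the large prime
-/

namespace Pool.Agent.Helper31K9.RNG

open Finset
open scoped Pointwise
open Pool.Agent.R116.AF (Aff par par_refl NN mem_NN stab_le derB derived derAct derAct_inv IsSteiner)

section
variable {p : ℕ} [Fact p.Prime]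

theorem grid_two (hcn : S_CN2) (hp2 : p ≠ 2) (m : ℕ) (hm : 2 ≤ m) (hpm : 4 * m ^ 2 < p)
    (d : ZMod p → ZMod p → ℤ) (hcol : ∀ α, ∑ β, d α β = m)
    (hcorr : ∀ u z, ∑ α, ∑ β, d α β * d (α + u) (β + z) =
      (if u = 0 ∧ z = 0 then (m : ℤ) * p else 0) - (if u = 0 then (m : ℤ) else 0) + (m : ℤ) ^ 2) :
    IsSquare m ∧ ∃ q : ℕ, q.Prime ∧ q ∣ m ∧ orderOf (q : ZMod p) ≤ m ^ 2 := by
  have hp : p.Prime := Fact.out
  have hm' : (2 : ℤ) ≤ m := by exact_mod_cast hm
  have hpm' : 4 * (m : ℤ) ^ 2 < p := by exact_mod_cast hpm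
  have key := fun s => leg_main hp2 (m : ℤ) hm' hpm' (ex d m s) (ex_sum d m hcol s)
    (ex_co d m hcol hcorr s)
  have hsq : IsSquare m := by
    obtain ⟨b, hb, -⟩ := key 0
    have : IsSquare (m : ℤ) := ⟨∑ x, b x, by rw [← hb]; ring⟩
    exact_mod_cast this
  refine ⟨hsq, ?_⟩
  by_contra hlt
  push Not at hlt
  obtain ⟨v, hv⟩ := hsq
  have hdv : ∀ s j, (v : ℤ) ∣ ex d m s j := by
    intro s j
    obtain ⟨b, hb1, hb2, hb3, hb4⟩ := key s
    obtain ⟨j0, hj0⟩ := hcn p inferInstance m b hb2 hb3 hlt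
    rw [hb4 j]
    have h1 : ∑ x, b x ^ 2 = b j0 ^ 2 := by
      rw [sum_eq_single j0]
      · intro x _ hx
        rw [hj0 x hx]
        norm_num
      · intro h
        exact absurd (mem_univ _) h
    rw [h1, hv] at hb2
    have h2 : (v : ℤ) ∣ b j0 := by
      have h3 : b j0 ^ 2 = (v : ℤ) ^ 2 := by
        rw [hb2]
        push_cast
        ring
      rcases sq_eq_sq_iff_eq_or_eq_neg.1 h3 with h | h
      · rw [h]
      · rw [h]
        exact (dvd_refl _).neg_right
    refine dvd_sum fun x _ => ?_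
    by_cases hx : x = j0
    · subst hx
      exact Dvd.dvd.mul_right h2 _
    · rw [hj0 x hx, zero_mul]
      exact dvd_zero _
  have hv0 : 2 ≤ v := by
    by_contra h
    push Not at h
    interval_cases v <;> omega
  have hcop : IsCoprime (v : ℤ) (p : ℤ) := by
    rw [Nat.isCoprime_iff_coprime]
    apply Nat.Coprime.symm
    rw [Nat.Prime.coprime_iff_not_dvd hp]
    intro h
    have h1 := Nat.le_of_dvd (by omega) h
    nlinarith
  have hdd : ∀ α β, (v : ℤ) ∣ d α β := by
    intro α β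
    have h1 := ex_inv d m hcol α β
    have h2 : (v : ℤ) ∣ p * d α β := by
      rw [h1]
      apply dvd_add
      · rw [hv]
        push_cast
        exact Dvd.intro _ rfl
      · exact dvd_sum fun s _ => hdv s _
    exact hcop.dvd_of_dvd_mul_left h2
  have h0 := hcorr 0 0
  simp only [add_zero, and_self, if_true] at h0
  have h1 : ∀ α β, (v : ℤ) * d α β ≤ d α β * d α β := by
    intro α β
    obtain ⟨c, hc⟩ := hdd α β
    rw [hc]
    have h2 : c ≤ c * c := by
      have := Int.le_self_sq c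
      rwa [sq] at this
    have h3 := mul_le_mul_of_nonneg_left h2 (show (0 : ℤ) ≤ (v : ℤ) * v by positivity)
    linarith
  have h2 : (v : ℤ) * (m * p) ≤ ∑ α, ∑ β, d α β * d α β := by
    have h3 : ∑ α, ∑ β, (v : ℤ) * d α β = v * (m * p) := by
      simp only [← mul_sum, hcol, sum_const, card_univ, ZMod.card, nsmul_eq_mul]
      ring
    rw [← h3]
    exact sum_le_sum fun α _ => sum_le_sum fun β _ => h1 α β
  rw [h0] at h2
  have hv2 : (2 : ℤ) ≤ v := by exact_mod_cast hv0
  have hp0 : (0 : ℤ) < p := by exact_mod_cast hp.pos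
  have h3 : (2 : ℤ) * (m * p) ≤ v * (m * p) := mul_le_mul_of_nonneg_right hv2 (by positivity)
  nlinarith

end

section
variable {V : Type} [Fintype V] [DecidableEq V] {k : ℕ} {B : Finset (Finset V)}
variable {G : Type} [Group G] [Fintype G] [DecidableEq G] [MulAction G V]

/-- Orders with a large prime factor: the projection to the Sylow subgroup. -/
theorem sylow_two (hcn : S_CN2) {A : Type} [CommGroup A] [Fintype A] [DecidableEq A] {p m : ℕ}
    (hp : p.Prime) (hp2 : p ≠ 2) (hm : 2 ≤ m) (hpm : 4 * m ^ 2 < p) (hA : Nat.card A = p ^ 2)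
    (N : Subgroup A) (hN : Nat.card N = p) (d : A → ℤ) (hsum : ∑ y, d y = (m : ℤ) * p)
    (hcorr : ∀ x, corr d x = m * p * ind (⊥ : Subgroup A) x - m * ind N x + m ^ 2) :
    IsSquare m ∧ ∃ q : ℕ, q.Prime ∧ q ∣ m ∧ orderOf (q : ZMod p) ≤ m ^ 2 := by
  have : Fact p.Prime := ⟨hp⟩
  have hm0 : 0 < m := by omega
  have hS : Nat.card (⊥ : Subgroup A) = 1 := Subgroup.card_bot
  have hcorr' : ∀ x, corr d x = m * p * ((1 : ℕ) : ℤ) * ind (⊥ : Subgroup A) x -
      m * ((1 : ℕ) : ℤ) * ind N x + m ^ 2 := by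
    intro x
    rw [hcorr]
    push_cast
    ring
  have hN1 : Nat.card N = 1 * p := by rw [hN, one_mul]
  have hA' : (Fintype.card A : ℤ) = (p : ℤ) ^ 2 := by
    rw [← Nat.card_eq_fintype_card, hA]
    push_cast
    rfl
  have hp0 : (p : ℤ) ≠ 0 := by exact_mod_cast hp.ne_zero
  have hcos := coset_sum ⊥ N bot_le m p 1 1 hp0 d hA' (by rw [hS]; norm_num)
    (by rw [hN, one_mul]) hsum (by
      intro x
      rw [hcorr]
      ring)
  by_cases hel : ∀ w : A, w ^ p = 1
  · obtain ⟨Θ, hbij, hmul, hmem, hone⟩ := coords N hA hN hel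
    have hsumΘ : ∀ F : A → ℤ, ∑ w, F w = ∑ α, ∑ β, F (Θ (α, β)) := by
      intro F
      rw [← Fintype.sum_prod_type' (f := fun α β => F (Θ (α, β)))]
      exact (Fintype.sum_bijective Θ hbij _ _ fun x => rfl).symm
    have hindN : ∀ α β, ind N (Θ (α, β)) = if α = 0 then 1 else 0 := by
      intro α β
      by_cases h : α = 0
      · rw [if_pos h, ind_of_mem ((hmem α β).2 h)]
      · rw [if_neg h, ind_of_not fun h' => h ((hmem α β).1 h')]
    have hindB : ∀ α β, ind (⊥ : Subgroup A) (Θ (α, β)) = if α = 0 ∧ β = 0 then 1 else 0 := by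
      intro α β
      by_cases h : α = 0 ∧ β = 0
      · rw [if_pos h, ind_of_mem (Subgroup.mem_bot.2 ((hone α β).2 h))]
      · rw [if_neg h, ind_of_not fun h' => h ((hone α β).1 (Subgroup.mem_bot.1 h'))]
    refine grid_two hcn hp2 m hm hpm (fun α β => d (Θ (α, β))) ?_ ?_
    · intro α
      have h1 := hcos (Θ (α, 0))
      rw [hsumΘ] at h1
      simp only [hindN, ite_mul, one_mul, zero_mul] at h1
      rw [sum_comm] at h1
      simp only [sum_ite_eq', mem_univ, if_true] at h1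
      rw [← h1]
      refine sum_congr rfl fun β _ => ?_
      rw [← hmul, zero_add, add_zero]
    · intro u z
      have h1 := hcorr (Θ (u, z))
      unfold corr at h1
      rw [hsumΘ, hindN, hindB] at h1
      have h2 : ∀ α β : ZMod p, d (Θ (α, β)) * d (Θ (u, z) * Θ (α, β)) =
          d (Θ (α, β)) * d (Θ (α + u, β + z)) := by
        intro α β
        rw [hmul, mul_comm (Θ (u, z))]
      simp only [h2] at h1
      rw [h1]
      simp only [mul_ite, mul_one, mul_zero]
  · exfalso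
    push Not at hel
    obtain ⟨w, hw⟩ := hel
    have hτ : Nat.card (tor p (⊥ : Subgroup A) ⊤) ≤ 1 * p := by
      rw [one_mul]
      have h1 : Nat.card (tor p (⊥ : Subgroup A) ⊤) ∣ p ^ 2 := by
        rw [← hA]
        exact Subgroup.card_subgroup_dvd_card _
      obtain ⟨i, hi, hi'⟩ := (Nat.dvd_prime_pow hp).1 h1
      have h2 : i ≠ 2 := by
        rintro rfl
        rw [← hA] at hi'
        have h3 := Subgroup.eq_top_of_card_eq _ hi'
        have h4 : w ∈ tor p (⊥ : Subgroup A) ⊤ := by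
          rw [h3]
          exact Subgroup.mem_top w
        exact hw (Subgroup.mem_bot.1 (mem_tor.1 h4).2)
      rw [hi']
      calc p ^ i ≤ p ^ 1 := Nat.pow_le_pow_right hp.pos (by omega)
        _ = p := pow_one p
    have key := abs_gen hp hp2 ⊥ N bot_le m p 1 1 p hm0 hp.pos dvd_rfl
      (fun h => hp.one_lt.ne' (Nat.dvd_one.1 h)) hA hS hN1 d hsum hcorr' hτ
    push_cast at key
    have hp0' : (0 : ℤ) < p := by exact_mod_cast hp.pos
    have h5 : 4 * (m : ℤ) ^ 2 < p := by exact_mod_cast hpm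
    nlinarith

theorem plane_two (hcn : S_CN2) [Group.IsNilpotent G] (h : Aff k B) (hinv : ∀ (g : G), ∀ b ∈ B, g • b ∈ B)
    (hr : Reg G V) {m p : ℕ} (hk : k = m * p) (hp : p.Prime) (hpm : ¬ p ∣ m) (hm : 2 ≤ m) :
    p ≤ 4 * m ^ 2 ∨ (IsSquare m ∧ ∃ q : ℕ, q.Prime ∧ q ∣ m ∧ orderOf (q : ZMod p) ≤ m ^ 2) := by
  classical
  by_cases hbig : p ≤ 4 * m ^ 2
  · exact Or.inl hbig
  push Not at hbig
  have hp2 : p ≠ 2 := by
    rintro rfl
    have : 1 ≤ m ^ 2 := Nat.one_le_pow _ _ (by omega)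
    omega
  have hmp : m + 1 < p := by nlinarith
  have hk2 := h.two
  have hcard : 0 < Fintype.card V := by
    rw [h.card]
    exact pow_pos (by omega) 2
  obtain ⟨x0⟩ : Nonempty V := Fintype.card_pos_iff.1 hcard
  have hmn : m.Coprime p := ((Nat.Prime.coprime_iff_not_dvd hp).2 hpm).symm
  obtain ⟨H, hHn, hHc, hcomm⟩ := hall_quot G (m := m) (n := p)
    (by rw [card_reg h hr x0, hk]) (by omega) hp.pos hmn hp.prime.squarefree
  have hHcard : Nat.card H = m ^ 2 := by
    have h1 := H.card_mul_index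
    rw [Subgroup.index_eq_card, hHc, card_reg h hr x0, hk, mul_pow] at h1
    exact Nat.eq_of_mul_eq_mul_right (pow_pos hp.pos 2) h1
  have hsub : ∀ K : Subgroup G, ¬ p ∣ Nat.card K → K ≤ H := by
    intro K hK
    have h1 : Nat.card (K.map (QuotientGroup.mk' H)) ∣ p ^ 2 := by
      rw [← hHc]
      exact Subgroup.card_subgroup_dvd_card _
    have h2 : Nat.card (K.map (QuotientGroup.mk' H)) ∣ Nat.card K := by
      exact Subgroup.card_map_dvd _ _
    have h3 : (p ^ 2).Coprime (Nat.card K) :=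
      Nat.Coprime.pow_left 2 ((Nat.Prime.coprime_iff_not_dvd hp).2 hK)
    have h4 := Nat.eq_one_of_dvd_coprimes h3 h1 h2
    have h5 := Subgroup.card_eq_one.1 h4
    rw [Subgroup.map_eq_bot_iff, QuotientGroup.ker_mk'] at h5
    exact h5
  obtain ⟨L, hL, -, hLs⟩ := free_line h hinv hr x0 hp hk hpm hm hmp H hHcard hsub
  let : CommGroup (G ⧸ H) :=
    { (inferInstance : Group (G ⧸ H)) with
      mul_comm := by
        intro a b
        obtain ⟨x, rfl⟩ := QuotientGroup.mk_surjective a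
        obtain ⟨y, rfl⟩ := QuotientGroup.mk_surjective b
        rw [← QuotientGroup.mk_mul, ← QuotientGroup.mk_mul]
        exact (QuotientGroup.eq.2 (hcomm x y)).symm }
  let : Fintype (G ⧸ H) := Fintype.ofFinite _
  obtain ⟨hh, d, hh0, hhm, s1, hN, hsum, hcorr⟩ := plane_data h hinv hr hL x0
    (A := G ⧸ H) (QuotientGroup.mk' H) (QuotientGroup.mk'_surjective H) hk hmn hHc
  rw [hLs, Subgroup.map_bot, Subgroup.card_bot, Subgroup.card_bot, mul_one] at s1
  rw [hLs, Subgroup.map_bot, Subgroup.card_bot, one_mul] at hN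
  have hcorr' : ∀ x, corr d x = m * p * ind (⊥ : Subgroup (G ⧸ H)) x -
      m * ind ((NN h hinv L hL).map (QuotientGroup.mk' H)) x + m ^ 2 := by
    intro x
    rw [hcorr, s1, hLs, Subgroup.map_bot]
    push_cast
    ring
  obtain ⟨h1, h2⟩ := sylow_two hcn hp hp2 hm hbig hHc _ hN d hsum hcorr'
  exact Or.inr ⟨h1, h2⟩

end

theorem hasReg_two (hcn : S_CN2) {k t : ℕ} (hk : 2 ≤ k) (h : HasReg k t) {m p : ℕ} (hkm : k = m * p)
    (hp : p.Prime) (hpm : ¬ p ∣ m) (hm : 2 ≤ m) :
    p ≤ 4 * m ^ 2 ∨ (IsSquare m ∧ ∃ q : ℕ, q.Prime ∧ q ∣ m ∧ orderOf (q : ZMod p) ≤ m ^ 2) := by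
  classical
  obtain ⟨B, G, F, hB, hnil, hinv, hF, hfix, hreg⟩ := h
  have hA : Aff k (derB B F) := derived hk rfl hB hF
  let := derAct G F hfix
  have hinv' := derAct_inv G F hfix hinv
  have : Fintype G := Fintype.ofFinite G
  refine plane_two hcn (G := G) hA hinv' ⟨?_, ?_⟩ hkm hp hpm hm
  · intro x y
    obtain ⟨g, ⟨hg, hgxy⟩, -⟩ := hreg x y x.2 y.2
    exact ⟨⟨g, hg⟩, Subtype.ext hgxy⟩
  · intro g x hgx
    have h1 := (hreg x x x.2 x.2).unique (y₁ := (g : Equiv.Perm _)) (y₂ := 1)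
      ⟨g.2, congrArg Subtype.val hgx⟩ ⟨G.one_mem, rfl⟩
    exact Subtype.ext h1

end Pool.Agent.Helper31K9.RNG
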