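import Pool.Agent.Helper31K9.RNG.QB
import Pool.Agent.Helper31K9.RNG.St2

set_option autoImplicit false

/-!
# Functions with perfect correlations which are not concentrated in a point
-/

namespace Pool.Agent.Helper31K9.RNG

open Finset

/-- either concentrated, or the energy is `u ^ 2 * m'` with `p ≤ 4 ^ m'` and all prime divisors of
`m'` have small order modulo `p` -/
theorem cn3 (hd : S_DVQ) (p : ℕ) (hp : Fact p.Prime) : ∀ (m : ℕ) (b : ZMod p → ℤ),
    ∑ x, b x ^ 2 = m → (∀ z, z ≠ 0 → co b z = 0) →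
    (∃ j, ∀ x, x ≠ j → b x = 0) ∨ ∃ u m' : ℕ, m = u ^ 2 * m' ∧ 2 ≤ m' ∧ p ≤ 4 ^ m' ∧
      ∀ q : ℕ, q.Prime → q ∣ m' → orderOf (q : ZMod p) ≤ m' ^ 2 := by
  intro m
  induction m using Nat.strong_induction_on with
  | _ m ih =>
  intro b hb hco
  by_cases hconc : ∃ j, ∀ x, x ≠ j → b x = 0
  · exact Or.inl hconc
  right
  have hpm : p ≤ 4 ^ m := by
    by_contra h
    push Not at h
    exact hconc (conc m h b hb hco)
  have hm2 : 2 ≤ m := by
    by_contra h
    push Not at h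
    have h1 : 2 ≤ p := hp.out.two_le
    apply hconc
    -- at most one nonzero value
    by_cases h0 : ∃ j, b j ≠ 0
    · obtain ⟨j, hj⟩ := h0
      refine ⟨j, fun x hx => ?_⟩
      by_contra hbx
      have h2 : b j ^ 2 + b x ^ 2 ≤ ∑ y, b y ^ 2 := by
        have h3 : ∑ y ∈ {j, x}, b y ^ 2 = b j ^ 2 + b x ^ 2 := sum_pair (Ne.symm hx)
        rw [← h3]
        exact sum_le_sum_of_subset_of_nonneg (subset_univ _) fun y _ _ => sq_nonneg _
      have h4 : 0 < b j ^ 2 := by positivity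
      have h5 : 0 < b x ^ 2 := by positivity
      rw [hb] at h2
      have h6 : (m : ℤ) ≤ 1 := by exact_mod_cast (by omega : m ≤ 1)
      omega
    · push Not at h0
      exact ⟨0, fun x _ => h0 x⟩
  by_cases hall : ∀ q : ℕ, q.Prime → q ∣ m → orderOf (q : ZMod p) ≤ m ^ 2
  · exact ⟨1, m, by ring, hm2, hpm, hall⟩
  push Not at hall
  obtain ⟨q, hq, hqm, hqo⟩ := hall
  have hdv := hd p q hp ⟨hq⟩ b m hb hco hqm hqo
  choose c hc using hdv
  have hq0 : (0 : ℤ) < q := by exact_mod_cast hq.pos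
  obtain ⟨m₁, hm₁⟩ : ∃ m₁ : ℕ, (m₁ : ℤ) = ∑ x, c x ^ 2 := by
    have h1 : 0 ≤ ∑ x, c x ^ 2 := sum_nonneg fun x _ => sq_nonneg _
    exact ⟨(∑ x, c x ^ 2).toNat, Int.toNat_of_nonneg h1⟩
  have hmm : m = q ^ 2 * m₁ := by
    have h1 : (m : ℤ) = q ^ 2 * m₁ := by
      rw [hm₁, ← hb, mul_sum]
      refine sum_congr rfl fun x _ => ?_
      rw [hc x]
      ring
    exact_mod_cast h1
  have hlt : m₁ < m := by
    have h1 : 0 < m₁ := by
      rcases Nat.eq_zero_or_pos m₁ with h | h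
      · rw [h, mul_zero] at hmm
        omega
      · exact h
    have h2 : 2 ≤ q := hq.two_le
    have h3 : 4 * m₁ ≤ q ^ 2 * m₁ := Nat.mul_le_mul_right _ (by nlinarith)
    omega
  have hcoc : ∀ z, z ≠ 0 → co c z = 0 := by
    intro z hz
    have h1 : co b z = q ^ 2 * co c z := by
      unfold co
      rw [mul_sum]
      refine sum_congr rfl fun x _ => ?_
      rw [hc x, hc (x + z)]
      ring
    rw [hco z hz] at h1
    rcases mul_eq_zero.1 h1.symm with h | h
    · exact absurd h (by positivity)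
    · exact h
  rcases ih m₁ hlt c hm₁.symm hcoc with ⟨j, hj⟩ | ⟨u, m', h1, h2, h3, h4⟩
  · exfalso
    exact hconc ⟨j, fun x hx => by rw [hc x, hj x hx, mul_zero]⟩
  · exact ⟨q * u, m', by rw [hmm, h1]; ring, h2, h3, h4⟩

end Pool.Agent.Helper31K9.RNG
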