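import Pool.Agent.Helper31K9.RNG.St2

set_option autoImplicit false

/-!
# [DVQ]
-/

namespace Pool.Agent.Helper31K9.RNG

open Finset

namespace DvqL

variable {p q : ℕ} [Fact p.Prime] [Fact q.Prime]

/-- the coefficients of a product in the group algebra -/
theorem coeff (f : ZMod p → ZMod q) (t c : ZMod p) :
    ((∑ x, AddMonoidAlgebra.single (t * x) (f x)) *
      (∑ x, AddMonoidAlgebra.single (-x) (f x))).coeff c =
    ∑ x, f x * f (t * x - c) := by
  classical
  rw [sum_mul_sum, AddMonoidAlgebra.coeff_sum, Finsupp.finsetSum_apply]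
  refine sum_congr rfl fun x _ => ?_
  rw [AddMonoidAlgebra.coeff_sum, Finsupp.finsetSum_apply]
  have h : ∀ y : ZMod p, (AddMonoidAlgebra.single (t * x) (f x) *
      AddMonoidAlgebra.single (-y) (f y)).coeff c =
      if y = t * x - c then f x * f y else 0 := by
    intro y
    rw [AddMonoidAlgebra.single_mul_single, AddMonoidAlgebra.coeff_single, Finsupp.single_apply]
    have : (t * x + -y = c) ↔ (y = t * x - c) := by
      constructor
      · intro h
        rw [← h]
        ring
      · intro h
        rw [h]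
        ring
    simp only [this]
  rw [sum_congr rfl fun y _ => h y, sum_ite_eq' univ (t * x - c), if_pos (mem_univ _)]

theorem frob (f : ZMod p → ZMod q) (r : ℕ) :
    (∑ x, AddMonoidAlgebra.single ((1 : ZMod p) * x) (f x)) ^ q ^ r =
      (∑ x : ZMod p, AddMonoidAlgebra.single ((q : ZMod p) ^ r * x) (f x)) := by
  have : CharP (AddMonoidAlgebra (ZMod q) (ZMod p)) q :=
    charP_of_injective_algebraMap (algebraMap (ZMod q) (AddMonoidAlgebra (ZMod q) (ZMod p))).injective q
  rw [sum_pow_char_pow]
  refine sum_congr rfl fun x _ => ?_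
  rw [AddMonoidAlgebra.single_pow, one_mul, ZMod.pow_card_pow, nsmul_eq_mul]
  push_cast
  rfl

/-- all the twisted correlations vanish modulo `q` -/
theorem vanish (f : ZMod p → ZMod q) (h : ∀ z, ∑ y, f y * f (y + z) = 0) (r : ℕ) (c : ZMod p) :
    ∑ x, f x * f ((q : ZMod p) ^ r * x - c) = 0 := by
  have h0 : (∑ x, AddMonoidAlgebra.single ((1 : ZMod p) * x) (f x)) *
      (∑ x, AddMonoidAlgebra.single (-x) (f x)) = 0 := by
    apply AddMonoidAlgebra.coeff_injective
    ext z
    rw [coeff, AddMonoidAlgebra.coeff_zero, Finsupp.zero_apply, ← h (-z)]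
    refine sum_congr rfl fun x _ => ?_
    rw [one_mul, sub_eq_add_neg]
  rw [← coeff, ← frob]
  have hq : q ^ r = (q ^ r - 1) + 1 := by
    have : 0 < q ^ r := pow_pos (Fact.out : q.Prime).pos r
    omega
  rw [hq, pow_succ, mul_assoc, h0, mul_zero]
  rfl

end DvqL

theorem dvq : S_DVQ := by
  classical
  intro p q hp hq b m hsum hco hqm hord x0
  by_contra hx0
  set f : ZMod p → ZMod q := fun x => ((b x : ℤ) : ZMod q) with hf
  have h1 : ∀ z, ∑ y, f y * f (y + z) = 0 := by
    intro z
    have e : ∑ y, f y * f (y + z) = ((co b z : ℤ) : ZMod q) := by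
      unfold co
      push_cast
      rfl
    rw [e]
    by_cases hz : z = 0
    · subst hz
      have e2 : co b 0 = (m : ℤ) := by
        rw [← hsum]
        unfold co
        refine sum_congr rfl fun y _ => ?_
        rw [add_zero, sq]
      rw [e2]
      push_cast
      exact (ZMod.natCast_eq_zero_iff m q).2 hqm
    · rw [hco z hz, Int.cast_zero]
  have hfx0 : f x0 ≠ 0 := by
    intro h
    exact hx0 ((ZMod.intCast_zmod_eq_zero_iff_dvd _ _).1 h)
  -- the support
  set S : Finset (ZMod p) := univ.filter (fun x => b x ≠ 0) with hS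
  have hScard : S.card ≤ m := by
    have h2 : (S.card : ℤ) ≤ m := by
      rw [← hsum, card_eq_sum_ones]
      push_cast
      calc ∑ x ∈ S, (1 : ℤ) ≤ ∑ x ∈ S, b x ^ 2 := by
            refine sum_le_sum fun x hx => ?_
            have : b x ≠ 0 := (mem_filter.1 hx).2
            have h3 : 0 < b x ^ 2 := by positivity
            omega
        _ ≤ ∑ x, b x ^ 2 := sum_le_sum_of_subset_of_nonneg (subset_univ _) fun x _ _ => sq_nonneg _
    exact_mod_cast h2
  set Rt : Finset (ZMod p) := (S ×ˢ S).image (fun w => (w.2 - x0) / (w.1 - x0)) with hRt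
  have hRcard : Rt.card ≤ m ^ 2 := by
    refine card_image_le.trans ?_
    rw [card_product, sq]
    exact Nat.mul_le_mul hScard hScard
  set Pw : Finset (ZMod p) := (range (orderOf (q : ZMod p))).image (fun r => (q : ZMod p) ^ r) with hPw
  have hPcard : Pw.card = orderOf (q : ZMod p) := by
    rw [hPw, card_image_of_injOn, card_range]
    intro i hi j hj hij
    exact pow_injOn_Iio_orderOf (by simpa using hi) (by simpa using hj) hij
  obtain ⟨t, htP, htR⟩ : ∃ t ∈ Pw, t ∉ Rt := by
    by_contra hcon
    push Not at hcon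
    have := card_le_card (fun t ht => hcon t ht : Pw ⊆ Rt)
    omega
  obtain ⟨r, _, rfl⟩ := mem_image.1 htP
  have h4 := DvqL.vanish f h1 r ((q : ZMod p) ^ r * x0 - x0)
  rw [sum_eq_single x0] at h4
  · have e : (q : ZMod p) ^ r * x0 - ((q : ZMod p) ^ r * x0 - x0) = x0 := by ring
    rw [e] at h4
    rcases mul_eq_zero.1 h4 with h | h <;> exact hfx0 h
  · intro x _ hx
    by_contra hne
    have hbx : b x ≠ 0 := by
      intro h
      apply hne
      rw [hf]
      simp only [h, Int.cast_zero, zero_mul]
    have hby : b ((q : ZMod p) ^ r * x - ((q : ZMod p) ^ r * x0 - x0)) ≠ 0 := by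
      intro h
      apply hne
      rw [hf]
      simp only [h, Int.cast_zero, mul_zero]
    apply htR
    rw [hRt, mem_image]
    refine ⟨(x, (q : ZMod p) ^ r * x - ((q : ZMod p) ^ r * x0 - x0)), ?_, ?_⟩
    · rw [mem_product, hS, mem_filter, mem_filter]
      exact ⟨⟨mem_univ _, hbx⟩, mem_univ _, hby⟩
    · have hx' : x - x0 ≠ 0 := sub_ne_zero.2 hx
      simp only
      rw [div_eq_iff hx']
      ring
  · intro h
    exact absurd (mem_univ _) h

end Pool.Agent.Helper31K9.RNG
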