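import Pool.Agent.Helper31K9.RNG.QB
import Pool.Agent.Helper31K9.RNG.Dvq

set_option autoImplicit false

/-!
# Functions with perfect correlations which are not concentrated in a point
-/

namespace Pool.Agent.Helper31K9.RNG

open Finset

/-- primes of even order divide the function -/
theorem dvo (p q : ℕ) (hp : Fact p.Prime) (hq : Fact q.Prime) (b : ZMod p → ℤ) (m : ℕ)
    (hsum : ∑ x, b x ^ 2 = m) (hco : ∀ z, z ≠ 0 → co b z = 0) (hqm : q ∣ m)
    (hq0 : (q : ZMod p) ≠ 0) (hev : Even (orderOf (q : ZMod p))) : ∀ x, (q : ℤ) ∣ b x := by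
  classical
  intro x0
  set f : ZMod p → ZMod q := fun x => ((b x : ℤ) : ZMod q) with hf
  have h1 : ∀ z, ∑ y, f y * f (y + z) = 0 := by
    intro z
    have e : ∑ y, f y * f (y + z) = ((co b z : ℤ) : ZMod q) := by
      unfold co
      push_cast
      rfl
    rw [e]
    by_cases hz : z = 0
    · subst hz
      have e2 : co b 0 = (m : ℤ) := by
        rw [← hsum]
        unfold co
        refine sum_congr rfl fun y _ => ?_
        rw [add_zero, sq]
      rw [e2]
      push_cast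
      exact (ZMod.natCast_eq_zero_iff m q).2 hqm
    · rw [hco z hz, Int.cast_zero]
  -- a power of `q` is `-1`
  obtain ⟨r, hr⟩ := hev
  have hu : IsUnit (q : ZMod p) := isUnit_iff_ne_zero.2 hq0
  have hpos : 0 < orderOf (q : ZMod p) := by
    obtain ⟨w, hw⟩ := hu
    rw [← hw, orderOf_units]
    exact orderOf_pos w
  have hneg : (q : ZMod p) ^ r = -1 := by
    have h2 : ((q : ZMod p) ^ r) ^ 2 = 1 := by
      rw [← pow_mul, mul_two, ← hr]
      exact pow_orderOf_eq_one _
    have h2' : ((q : ZMod p) ^ r - 1) * ((q : ZMod p) ^ r + 1) = 0 := by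
      linear_combination h2
    rcases mul_eq_zero.1 h2' with h | h
    · exfalso
      have h3 := orderOf_dvd_of_pow_eq_one (sub_eq_zero.1 h)
      have h4 := Nat.le_of_dvd (by omega) h3
      omega
    · exact eq_neg_of_add_eq_zero_left h
  set g : ZMod p → ZMod q := fun x => f (-x) with hg
  have h5 : (∑ x, AddMonoidAlgebra.single ((1 : ZMod p) * x) (g x)) =
      ∑ x : ZMod p, AddMonoidAlgebra.single (-x) (f x) := by
    refine Fintype.sum_equiv (Equiv.neg (ZMod p)) _ _ fun x => ?_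
    simp [hg]
  have h6 : (∑ x : ZMod p, AddMonoidAlgebra.single (-x) (f x)) *
      (∑ x, AddMonoidAlgebra.single (-x) (f x)) = 0 := by
    have h7 : (∑ x : ZMod p, AddMonoidAlgebra.single (-x) (f x)) =
        ∑ x : ZMod p, AddMonoidAlgebra.single ((-1) * x) (f x) :=
      sum_congr rfl fun x _ => by rw [neg_one_mul]
    apply AddMonoidAlgebra.coeff_injective
    ext c
    conv_lhs => enter [1, 1, 1]; rw [h7]
    rw [DvqL.coeff, AddMonoidAlgebra.coeff_zero, Finsupp.zero_apply, ← hneg]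
    exact DvqL.vanish f h1 r c
  have h8 : (∑ x, AddMonoidAlgebra.single ((1 : ZMod p) * x) (g x)) ^ q ^ 1 = 0 := by
    rw [h5, pow_one]
    exact pow_eq_zero_of_le hq.out.two_le (by rw [pow_two]; exact h6)
  rw [DvqL.frob] at h8
  have h10 := congrArg (fun F => F.coeff ((q : ZMod p) ^ 1 * (-x0))) h8
  simp only [AddMonoidAlgebra.coeff_sum, AddMonoidAlgebra.coeff_single, Finsupp.finsetSum_apply,
    Finsupp.single_apply, AddMonoidAlgebra.coeff_zero, Finsupp.zero_apply] at h10
  rw [sum_eq_single (-x0)] at h10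
  · rw [if_pos rfl] at h10
    have h11 : f x0 = 0 := by
      rw [← h10, hg]
      simp only [neg_neg]
    exact (ZMod.intCast_zmod_eq_zero_iff_dvd _ _).1 h11
  · intro x _ hx
    rw [if_neg]
    intro h
    rw [pow_one] at h
    exact hx (mul_left_cancel₀ hq0 h)
  · intro h
    exact absurd (mem_univ _) h

/-- either concentrated, or the energy is `u ^ 2 * m'` with `p ≤ 4 ^ m'` and all prime divisors of
`m'` have small odd order modulo `p` -/
theorem cn4 (hd : S_DVQ) (p : ℕ) (hp : Fact p.Prime) : ∀ (m : ℕ), m < p → ∀ (b : ZMod p → ℤ),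
    ∑ x, b x ^ 2 = m → (∀ z, z ≠ 0 → co b z = 0) →
    (∃ j, ∀ x, x ≠ j → b x = 0) ∨ ∃ u m' : ℕ, m = u ^ 2 * m' ∧ 2 ≤ m' ∧ p ≤ 4 ^ m' ∧
      ∀ q : ℕ, q.Prime → q ∣ m' → Odd (orderOf (q : ZMod p)) ∧ orderOf (q : ZMod p) ≤ m' ^ 2 := by
  intro m
  induction m using Nat.strong_induction_on with
  | _ m ih =>
  intro hmp b hb hco
  by_cases hconc : ∃ j, ∀ x, x ≠ j → b x = 0
  · exact Or.inl hconc
  right
  have hpm : p ≤ 4 ^ m := by
    by_contra h
    push Not at h
    exact hconc (conc m h b hb hco)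
  have hm2 : 2 ≤ m := by
    by_contra h
    push Not at h
    have h1 : 2 ≤ p := hp.out.two_le
    apply hconc
    by_cases h0 : ∃ j, b j ≠ 0
    · obtain ⟨j, hj⟩ := h0
      refine ⟨j, fun x hx => ?_⟩
      by_contra hbx
      have h2 : b j ^ 2 + b x ^ 2 ≤ ∑ y, b y ^ 2 := by
        have h3 : ∑ y ∈ {j, x}, b y ^ 2 = b j ^ 2 + b x ^ 2 := sum_pair (Ne.symm hx)
        rw [← h3]
        exact sum_le_sum_of_subset_of_nonneg (subset_univ _) fun y _ _ => sq_nonneg _
      have h4 : 0 < b j ^ 2 := by positivity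
      have h5 : 0 < b x ^ 2 := by positivity
      rw [hb] at h2
      have h6 : (m : ℤ) ≤ 1 := by exact_mod_cast (by omega : m ≤ 1)
      omega
    · push Not at h0
      exact ⟨0, fun x _ => h0 x⟩
  by_cases hall : ∀ q : ℕ, q.Prime → q ∣ m →
      Odd (orderOf (q : ZMod p)) ∧ orderOf (q : ZMod p) ≤ m ^ 2
  · exact ⟨1, m, by ring, hm2, hpm, hall⟩
  have hdv : ∃ q : ℕ, q.Prime ∧ q ∣ m ∧ ∀ x, (q : ℤ) ∣ b x := by
    by_contra hcon
    push Not at hcon
    apply hall
    intro q hq hqm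
    obtain ⟨x, hx⟩ := hcon q hq hqm
    have hq0 : (q : ZMod p) ≠ 0 := by
      intro h
      rw [ZMod.natCast_eq_zero_iff] at h
      have h1 := Nat.le_of_dvd (by omega) (h.trans hqm)
      omega
    constructor
    · by_contra hodd
      rw [Nat.not_odd_iff_even] at hodd
      exact hx (dvo p q hp ⟨hq⟩ b m hb hco hqm hq0 hodd x)
    · by_contra hlt
      push Not at hlt
      exact hx (hd p q hp ⟨hq⟩ b m hb hco hqm hlt x)
  obtain ⟨q, hq, hqm, hdv⟩ := hdv
  choose c hc using hdv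
  have hq0 : (0 : ℤ) < q := by exact_mod_cast hq.pos
  obtain ⟨m₁, hm₁⟩ : ∃ m₁ : ℕ, (m₁ : ℤ) = ∑ x, c x ^ 2 := by
    have h1 : 0 ≤ ∑ x, c x ^ 2 := sum_nonneg fun x _ => sq_nonneg _
    exact ⟨(∑ x, c x ^ 2).toNat, Int.toNat_of_nonneg h1⟩
  have hmm : m = q ^ 2 * m₁ := by
    have h1 : (m : ℤ) = q ^ 2 * m₁ := by
      rw [hm₁, ← hb, mul_sum]
      refine sum_congr rfl fun x _ => ?_
      rw [hc x]
      ring
    exact_mod_cast h1
  have hlt : m₁ < m := by
    have h1 : 0 < m₁ := by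
      rcases Nat.eq_zero_or_pos m₁ with h | h
      · rw [h, mul_zero] at hmm
        omega
      · exact h
    have h2 : 2 ≤ q := hq.two_le
    have h3 : 4 * m₁ ≤ q ^ 2 * m₁ := Nat.mul_le_mul_right _ (by nlinarith)
    omega
  have hcoc : ∀ z, z ≠ 0 → co c z = 0 := by
    intro z hz
    have h1 : co b z = q ^ 2 * co c z := by
      unfold co
      rw [mul_sum]
      refine sum_congr rfl fun x _ => ?_
      rw [hc x, hc (x + z)]
      ring
    rw [hco z hz] at h1
    rcases mul_eq_zero.1 h1.symm with h | h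
    · exact absurd h (by positivity)
    · exact h
  rcases ih m₁ hlt (by omega) c hm₁.symm hcoc with ⟨j, hj⟩ | ⟨u, m', h1, h2, h3, h4⟩
  · exfalso
    exact hconc ⟨j, fun x hx => by rw [hc x, hj x hx, mul_zero]⟩
  · exact ⟨q * u, m', by rw [hmm, h1]; ring, h2, h3, h4⟩

end Pool.Agent.Helper31K9.RNG
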