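import Pool.Agent.Helper31K9.RNG.StF

set_option autoImplicit false

namespace Pool.Agent.Helper31K9.RNG

open Finset
open scoped Pointwise

/-- an automorphism of prime order `q` of a group of order `p ^ 2` -/
theorem BurL.aut {P : Type} [Group P] [Finite P] {p q : ℕ} (hp : p.Prime) (hq : q.Prime)
    (hqp : q ≠ p) (hq1 : ¬ q ∣ p ^ 2 - 1) (hP : Nat.card P = p ^ 2) (τ : MulAut P)
    (hτ : orderOf τ = q) : False := by
  have : Fact q.Prime := ⟨hq⟩
  have : Finite (MulAut P) := inferInstance
  -- the fixed points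
  let F : Subgroup P := MonoidHom.eqLocus τ.toMonoidHom (MonoidHom.id P)
  have hF : ∀ x : P, x ∈ F ↔ τ x = x := fun x => Iff.rfl
  have hz : IsPGroup q (Subgroup.zpowers τ) := by
    apply IsPGroup.of_card (n := 1)
    rw [Nat.card_zpowers, hτ, pow_one]
  have h1 := hz.card_modEq_card_fixedPoints P
  have h2 : MulAction.fixedPoints (Subgroup.zpowers τ) P = (F : Set P) := by
    ext x
    rw [MulAction.mem_fixedPoints, SetLike.mem_coe, hF]
    constructor
    · intro h
      exact h ⟨τ, Subgroup.mem_zpowers τ⟩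
    · rintro h ⟨g, hg⟩
      obtain ⟨k, rfl⟩ := Subgroup.mem_zpowers_iff.1 hg
      have h3 : τ ∈ MulAction.stabilizer (MulAut P) x := h
      exact (MulAction.stabilizer (MulAut P) x).zpow_mem h3 k
  rw [h2] at h1
  have h3 : Nat.card (F : Set P) = Nat.card F := rfl
  rw [h3, hP] at h1
  have h4 : Nat.card F ∣ p ^ 2 := hP ▸ F.card_subgroup_dvd_card
  obtain ⟨j, hj, h5⟩ := (Nat.dvd_prime_pow hp).1 h4
  rw [h5] at h1
  have h6 : q ∣ p ^ 2 - p ^ j := (Nat.modEq_iff_dvd' (Nat.pow_le_pow_right hp.pos hj)).1 h1.symm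
  have hp1 := hp.one_lt
  interval_cases j
  · exact hq1 (by simpa using h6)
  · have h7 : p ^ 2 - p ^ 1 = p * (p - 1) := by
      rw [pow_one, pow_two, Nat.mul_sub, mul_one]
    rw [h7] at h6
    rcases (Nat.Prime.dvd_mul hq).1 h6 with h8 | h8
    · exact hqp ((Nat.prime_dvd_prime_iff_eq hq hp).1 h8)
    · apply hq1
      have h9 : p ^ 2 - 1 = (p + 1) * (p - 1) := by
        have := Nat.sq_sub_sq p 1
        simpa using this
      rw [h9]
      exact dvd_mul_of_dvd_right h8 _
  · have h7 : F = ⊤ := Subgroup.eq_top_of_card_eq F (by rw [h5, hP])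
    have h8 : τ = 1 := by
      ext x
      have : x ∈ F := by rw [h7]; trivial
      exact (hF x).1 this
    rw [h8, orderOf_one] at hτ
    exact hq.one_lt.ne hτ

theorem bur : S_BUR := by
  intro G _ _ p m hp hpm hco hG
  have : Fact p.Prime := ⟨hp⟩
  obtain ⟨P⟩ : Nonempty (Sylow p G) := inferInstance
  have hfac : (Nat.card G).factorization p = 2 := by
    have hm : m ≠ 0 := by
      rintro rfl
      simp at hpm
    rw [hG, Nat.factorization_pow, Nat.factorization_mul hm hp.ne_zero]
    simp [Nat.factorization_eq_zero_of_not_dvd hpm, hp.factorization_self]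
  have hPc : Nat.card (P : Subgroup G) = p ^ 2 := by
    rw [P.card_eq_multiplicity, hfac]
  have hcomm : ∀ a b : (P : Subgroup G), a * b = b * a := fun a b =>
    (IsPGroup.isMulCommutative_of_card_eq_prime_sq hPc).is_comm.comm a b
  have hidx : (P : Subgroup G).index = m ^ 2 := by
    have h := (P : Subgroup G).card_mul_index
    rw [hPc, hG, mul_pow, mul_comm] at h
    exact Nat.eq_of_mul_eq_mul_right (by have := hp.pos; positivity) h
  have hPle : (P : Subgroup G) ≤ Subgroup.centralizer ((P : Subgroup G) : Set G) := by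
    intro a ha
    rw [Subgroup.mem_centralizer_iff]
    intro b hb
    exact congrArg Subtype.val (hcomm ⟨b, hb⟩ ⟨a, ha⟩)
  have hN : Subgroup.normalizer (P : Set G) ≤ Subgroup.centralizer (P : Set G) := by
    set K := (P : Subgroup G).normalizerMonoidHom.range with hK
    by_cases h1 : Nat.card K = 1
    · intro n hn
      have h2 : K = ⊥ := Subgroup.card_eq_one.1 h1
      have h3 : (⟨n, hn⟩ : Subgroup.normalizer ((P : Subgroup G) : Set G)) ∈
          (P : Subgroup G).normalizerMonoidHom.ker := by
        rw [MonoidHom.mem_ker]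
        have : (P : Subgroup G).normalizerMonoidHom ⟨n, hn⟩ ∈ K := ⟨_, rfl⟩
        rw [h2, Subgroup.mem_bot] at this
        exact this
      rw [Subgroup.normalizerMonoidHom_ker, Subgroup.mem_subgroupOf] at h3
      exact h3
    · exfalso
      obtain ⟨q, hq, hqd⟩ := Nat.exists_prime_and_dvd h1
      have : Fact q.Prime := ⟨hq⟩
      obtain ⟨τ, hτ⟩ := exists_prime_orderOf_dvd_card' (G := K) q hqd
      have h4 : Nat.card K ∣ m ^ 2 := by
        have h5 : Nat.card K = (P : Subgroup G).normalizerMonoidHom.ker.index :=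
          (Subgroup.index_ker _).symm
        rw [h5, Subgroup.normalizerMonoidHom_ker, ← Subgroup.relIndex, ← hidx]
        exact (Subgroup.relIndex_dvd_of_le_left _ hPle).trans
          (Subgroup.relIndex_dvd_index_of_le P.le_normalizer)
      have h6 : q ∣ m := hq.dvd_of_dvd_pow (hqd.trans h4)
      refine BurL.aut hp hq ?_ ?_ hPc (τ : MulAut (P : Subgroup G)) ?_
      · rintro rfl
        exact hpm h6
      · intro h7
        have h8 := Nat.dvd_gcd h6 h7
        rw [hco] at h8
        exact hq.one_lt.ne' (Nat.dvd_one.1 h8)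
      · rw [Subgroup.orderOf_coe, hτ]
  refine ⟨(MonoidHom.transferSylow P hN).ker, inferInstance, ?_, ?_⟩
  · have h := (MonoidHom.ker_transferSylow_isComplement' P hN).symm.index_eq_card
    rw [← Subgroup.index_eq_card]
    exact h.trans hPc
  · intro x y
    rw [MonoidHom.mem_ker]
    simp only [map_mul, map_inv]
    rw [hcomm (MonoidHom.transferSylow P hN x) (MonoidHom.transferSylow P hN y)]
    exact inv_mul_cancel _

end Pool.Agent.Helper31K9.RNG
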