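import Pool.Agent.Helper31K9.RNG.St2

set_option autoImplicit false

/-!
# A function of small energy with perfect correlations is concentrated in a point
-/

namespace Pool.Agent.Helper31K9.RNG

open Finset

theorem cn2 : S_DVQ → S_CN2 := by
  intro hD p hp m
  induction m using Nat.strong_induction_on with
  | _ m ih =>
    intro b hsq hco hq
    by_cases hm : m ≤ 1
    · by_cases hex : ∃ j, b j ≠ 0
      · obtain ⟨j, hj⟩ := hex
        refine ⟨j, fun x hx => ?_⟩
        by_contra hbx
        have h1 : b j ^ 2 + b x ^ 2 ≤ ∑ y, b y ^ 2 := by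
          rw [← Finset.sum_pair (f := fun y => b y ^ 2) (Ne.symm hx)]
          exact Finset.sum_le_sum_of_subset_of_nonneg (Finset.subset_univ _)
            (fun y _ _ => sq_nonneg _)
        have h2 : 0 < b j ^ 2 := by positivity
        have h3 : 0 < b x ^ 2 := by positivity
        rw [hsq] at h1
        have h4 : (m : ℤ) ≤ 1 := by exact_mod_cast hm
        omega
      · push Not at hex
        exact ⟨0, fun x _ => hex x⟩
    · have hqp : (m.minFac).Prime := Nat.minFac_prime (by omega)
      have hdv : m.minFac ∣ m := Nat.minFac_dvd m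
      have hdb := hD p m.minFac hp ⟨hqp⟩ b m hsq hco hdv (hq _ hqp hdv)
      obtain ⟨q, hqe⟩ : ∃ q, q = m.minFac := ⟨_, rfl⟩
      rw [← hqe] at hqp hdb
      choose b' hb' using hdb
      have hs : (q : ℤ) ^ 2 * ∑ x, b' x ^ 2 = m := by
        rw [← hsq, Finset.mul_sum]
        exact Finset.sum_congr rfl fun x _ => by rw [hb' x]; ring
      have hn : 0 ≤ ∑ x, b' x ^ 2 := Finset.sum_nonneg fun x _ => sq_nonneg _
      obtain ⟨m', hm'⟩ := Int.eq_ofNat_of_zero_le hn
      rw [hm'] at hs
      have hs' : q ^ 2 * m' = m := by exact_mod_cast hs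
      have hq2 : 2 ≤ q := hqp.two_le
      have hm0 : m' ≠ 0 := by
        rintro rfl
        omega
      have hlt : m' < m := by
        have h1 : 1 ≤ m' := Nat.one_le_iff_ne_zero.2 hm0
        have h2 : 4 * m' ≤ q ^ 2 * m' := Nat.mul_le_mul_right m' (by nlinarith)
        omega
      have hq0 : (q : ℤ) ≠ 0 := by
        have := hqp.ne_zero
        exact_mod_cast this
      obtain ⟨j, hj⟩ := ih m' hlt b' hm' (fun z hz => by
        have h1 := hco z hz
        have h2 : co b z = (q : ℤ) ^ 2 * co b' z := by
          unfold co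
          rw [Finset.mul_sum]
          exact Finset.sum_congr rfl fun x _ => by rw [hb' x, hb' (x + z)]; ring
        rw [h2] at h1
        exact (mul_eq_zero.1 h1).resolve_left (pow_ne_zero 2 hq0)) (fun q' hq' hd => by
        have h1 : q' ∣ m := by
          rw [← hs']
          exact Dvd.dvd.mul_left hd _
        exact (Nat.pow_le_pow_left hlt.le 2).trans_lt (hq q' hq' h1))
      exact ⟨j, fun x hx => by rw [hb' x, hj x hx, mul_zero]⟩

end Pool.Agent.Helper31K9.RNG
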