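import Mathlib

set_option autoImplicit false
set_option linter.unusedSectionVars false
set_option linter.unusedVariables false

/-!
# The structure of the exceptional orders
-/

namespace Pool.Agent.Helper31K9.RNG

open Finset

/-- the two conditions on the orders -/
structure Cond (P : ℕ → Prop) : Prop where
  ineq : ∀ k, P k → ∀ m n p : ℕ, k = m * n → m.Coprime n → Squarefree n → p.Prime → p ≠ 2 → p ∣ n →
    ((p : ℤ) - 2 * m ^ 2) * n ≤ m ^ 2 * p * (p - 2)
  big : ∀ k, P k → ∀ m p : ℕ, k = m * p → p.Prime → ¬ p ∣ m → 2 ≤ m →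
    (p ≤ 4 * m ^ 2 ∨ IsSquare m) ∧ p ≤ 4 ^ m

/-- a squarefree number with small prime factors has many divisors -/
theorem smooth_card {s y : ℕ} (hs : Squarefree s) (hy : ∀ q, q.Prime → q ∣ s → q ≤ y) :
    s ≤ y ^ s.primeFactors.card := by
  rw [← Nat.prod_primeFactors_of_squarefree hs]
  have h1 : (∏ q ∈ s.primeFactors, q).primeFactors = s.primeFactors := by
    rw [Nat.prod_primeFactors_of_squarefree hs]
  rw [h1, ← prod_const]
  exact prod_le_prod' fun q hq => hy q (Nat.prime_of_mem_primeFactors hq)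
    (Nat.dvd_of_mem_primeFactors hq)

theorem two_pow_card_le {s k : ℕ} (hk : k ≠ 0) (hsk : s ∣ k) :
    2 ^ s.primeFactors.card ≤ k.divisors.card := by
  rw [← card_powerset]
  refine card_le_card_of_injOn (fun A => ∏ q ∈ A, q) ?_ ?_
  · intro A hA
    rw [mem_coe, mem_powerset] at hA
    rw [mem_coe, Nat.mem_divisors]
    refine ⟨?_, hk⟩
    exact ((prod_dvd_prod_of_subset _ _ _ hA).trans (Nat.prod_primeFactors_dvd s)).trans hsk
  · intro A hA A' hA' e
    rw [mem_coe, mem_powerset] at hA hA'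
    have h1 : ∀ T ⊆ s.primeFactors, (∏ q ∈ T, q).primeFactors = T := fun T hT =>
      Nat.primeFactors_prod fun q hq => Nat.prime_of_mem_primeFactors (hT hq)
    have e' : ∏ q ∈ A, q = ∏ q ∈ A', q := e
    rw [← h1 A hA, ← h1 A' hA', e']

theorem struct {P : ℕ → Prop} (hP : Cond P) {k : ℕ} (hk : 2 ≤ k) (hkp : ¬ k.Prime) (hPk : P k)
    {D y j K : ℕ} (hy : 4 * D ^ 6 ≤ y) (hK1 : D ^ 3 * y ^ j ≤ K) (hK2 : 4 * (2 * D ^ 9) ^ 3 ≤ K)
    (hkK : K < k) :
    (∃ d, D < d ∧ d ^ 2 ∣ k) ∨ 2 ^ j ≤ k.divisors.card ∨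
      ∃ v p, p.Prime ∧ k = v ^ 2 * p ∧ v ^ 2 ≤ 2 * D ^ 9 ∧ k ≤ v ^ 2 * 4 ^ (v ^ 2) := by
  obtain ⟨c, d, hdc, hc⟩ := Nat.sq_mul_squarefree k
  have hd0 : 0 < d := by
    rcases Nat.eq_zero_or_pos d with h | h
    · subst h
      simp at hdc
      omega
    · exact h
  have hc0 : 0 < c := by
    rcases Nat.eq_zero_or_pos c with h | h
    · subst h
      simp at hdc
      omega
    · exact h
  by_cases hdD : D < d
  · exact Or.inl ⟨d, hdD, hdc ▸ Dvd.intro _ rfl⟩
  push Not at hdD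
  right
  obtain ⟨s, hs⟩ := Nat.gcd_dvd_left c d
  set g := c.gcd d with hg
  have hg0 : 0 < g := Nat.gcd_pos_of_pos_right _ hd0
  have hs0 : 0 < s := by
    rcases Nat.eq_zero_or_pos s with h | h
    · subst h
      simp at hs
      omega
    · exact h
  have hssq : Squarefree s := hc.squarefree_of_dvd (hs ▸ Dvd.intro_left _ rfl)
  have hgs : g.Coprime s := by
    rw [hs] at hc
    exact Nat.coprime_of_squarefree_mul hc
  have hds : d.Coprime s := by
    rw [Nat.coprime_iff_gcd_eq_one]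
    have h1 : d.gcd s ∣ g := by
      rw [hg]
      exact Nat.dvd_gcd ((Nat.gcd_dvd_right d s).trans (hs ▸ Dvd.intro_left _ rfl))
        (Nat.gcd_dvd_left d s)
    have h2 : d.gcd s ∣ g.gcd s := Nat.dvd_gcd h1 (Nat.gcd_dvd_right d s)
    rw [hgs] at h2
    exact Nat.dvd_one.1 h2
  set m := d ^ 2 * g with hm
  have hkm : k = m * s := by
    rw [← hdc, hs, hm]
    ring
  have hms : m.Coprime s := Nat.Coprime.mul_left (Nat.Coprime.pow_left 2 hds) hgs
  have hm0 : 0 < m := by positivity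
  have hmD : m ≤ D ^ 3 := by
    have h1 : g ≤ d := Nat.le_of_dvd hd0 (Nat.gcd_dvd_right c d)
    calc m = d ^ 2 * g := hm
      _ ≤ d ^ 2 * d := Nat.mul_le_mul_left _ h1
      _ = d ^ 3 := by ring
      _ ≤ D ^ 3 := Nat.pow_le_pow_left hdD 3
  have hm2 : m ^ 2 ≤ D ^ 6 := by
    calc m ^ 2 ≤ (D ^ 3) ^ 2 := Nat.pow_le_pow_left hmD 2
      _ = D ^ 6 := by ring
  by_cases hC : ∀ q, q.Prime → q ∣ s → q < 4 * m ^ 2
  · left
    have h1 : s ≤ y ^ s.primeFactors.card := smooth_card hssq fun q hq hqs => by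
      have := hC q hq hqs
      omega
    have hy0 : 0 < y := by
      have : 0 < m ^ 2 := by positivity
      omega
    have h2 : j ≤ s.primeFactors.card := by
      by_contra hlt
      push Not at hlt
      have h3 : s ≤ y ^ j := h1.trans (Nat.pow_le_pow_right hy0 hlt.le)
      have h4 : k ≤ D ^ 3 * y ^ j := by
        rw [hkm]
        exact Nat.mul_le_mul hmD h3
      omega
    calc 2 ^ j ≤ 2 ^ s.primeFactors.card := Nat.pow_le_pow_right (by norm_num) h2
      _ ≤ k.divisors.card := two_pow_card_le (by omega) (hkm ▸ Dvd.intro_left _ rfl)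
  · right
    push Not at hC
    obtain ⟨q, hq, hqs, hqm⟩ := hC
    have hm21 : 1 ≤ m ^ 2 := Nat.one_le_pow _ _ hm0
    have hq2 : q ≠ 2 := by omega
    have h1 := hP.ineq k hPk m s q hkm hms hssq hq hq2 hqs
    obtain ⟨r, hr⟩ := hqs
    have hr0 : 0 < r := by
      rcases Nat.eq_zero_or_pos r with h | h
      · subst h
        simp at hr
        omega
      · exact h
    have hsm : s ≤ 2 * m ^ 2 * q := by
      have h2 : (4 : ℤ) * m ^ 2 ≤ q := by exact_mod_cast hqm
      have h3 : (0 : ℤ) < q := by exact_mod_cast hq.pos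
      have h4 : (q : ℤ) * s ≤ q * (2 * m ^ 2 * q) := by
        have h5 : (0 : ℤ) ≤ s := by positivity
        have h6 : (q : ℤ) * s ≤ 2 * ((q - 2 * m ^ 2) * s) := by nlinarith
        have h7 : (2 : ℤ) * (m ^ 2 * q * (q - 2)) ≤ q * (2 * m ^ 2 * q) := by
          have : (0 : ℤ) ≤ (m : ℤ) ^ 2 * q := by positivity
          nlinarith
        linarith
      have h8 := le_of_mul_le_mul_left h4 h3
      exact_mod_cast h8
    have hrm : r ≤ 2 * m ^ 2 := by
      rw [hr] at hsm
      have : q * r ≤ q * (2 * m ^ 2) := by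
        calc q * r ≤ 2 * m ^ 2 * q := hsm
          _ = q * (2 * m ^ 2) := by ring
      exact Nat.le_of_mul_le_mul_left this hq.pos
    set m' := m * r with hm'
    have hkm' : k = m' * q := by
      rw [hkm, hr, hm']
      ring
    have hm'W : m' ≤ 2 * D ^ 9 := by
      calc m' = m * r := hm'
        _ ≤ D ^ 3 * (2 * m ^ 2) := Nat.mul_le_mul hmD hrm
        _ ≤ D ^ 3 * (2 * D ^ 6) := Nat.mul_le_mul_left _ (Nat.mul_le_mul_left _ hm2)
        _ = 2 * D ^ 9 := by ring
    have hqm' : ¬ q ∣ m' := by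
      rw [hm', Nat.Prime.dvd_mul hq]
      rintro (h | h)
      · have h2 := Nat.dvd_gcd h (show q ∣ s by rw [hr]; exact Dvd.intro _ rfl)
        rw [hms] at h2
        exact hq.one_lt.ne' (Nat.dvd_one.1 h2)
      · obtain ⟨w, hw⟩ := h
        have h2 : q * q ∣ s := ⟨w, by rw [hr, hw]; ring⟩
        have h3 := hssq q h2
        rw [Nat.isUnit_iff] at h3
        exact hq.one_lt.ne' h3
    have hm'2 : 2 ≤ m' := by
      have h2 : 0 < m' := by positivity
      by_contra h3
      push Not at h3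
      have h4 : m' = 1 := by omega
      rw [h4, one_mul] at hkm'
      exact hkp (hkm' ▸ hq)
    obtain ⟨h2, h3⟩ := hP.big k hPk m' q hkm' hq hqm' hm'2
    have h4 : ¬ q ≤ 4 * m' ^ 2 := by
      intro h5
      have h6 : k ≤ 4 * (2 * D ^ 9) ^ 3 := by
        calc k = m' * q := hkm'
          _ ≤ m' * (4 * m' ^ 2) := Nat.mul_le_mul_left _ h5
          _ = 4 * m' ^ 3 := by ring
          _ ≤ 4 * (2 * D ^ 9) ^ 3 := Nat.mul_le_mul_left _ (Nat.pow_le_pow_left hm'W 3)
      omega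
    obtain ⟨v, hv⟩ := h2.resolve_left h4
    rw [← sq] at hv
    refine ⟨v, q, hq, by rw [← hv]; exact hkm', by rw [← hv]; exact hm'W, ?_⟩
    rw [hkm', ← hv]
    exact Nat.mul_le_mul_left _ h3

end Pool.Agent.Helper31K9.RNG
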