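import Mathlib
import Pool.Agent.Helper31K9.RNG.CntA

set_option autoImplicit false
set_option linter.unusedSectionVars false
set_option linter.unusedVariables false

/-!
# Counting the exceptional orders
-/

namespace Pool.Agent.Helper31K9.RNG

open Finset

theorem sum_card_divisors (X : ℕ) :
    ∑ k ∈ Ioc 0 X, k.divisors.card = ∑ d ∈ Ioc 0 X, X / d := by
  have h1 : ∀ k ∈ Ioc 0 X, k.divisors.card = ∑ d ∈ Ioc 0 X, if d ∣ k then 1 else 0 := by
    intro k hk
    rw [mem_Ioc] at hk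
    rw [card_eq_sum_ones, ← sum_filter]
    refine sum_congr ?_ fun _ _ => rfl
    ext d
    rw [Nat.mem_divisors, mem_filter, mem_Ioc]
    constructor
    · rintro ⟨h, h'⟩
      exact ⟨⟨Nat.pos_of_dvd_of_pos h hk.1, (Nat.le_of_dvd hk.1 h).trans hk.2⟩, h⟩
    · rintro ⟨_, h⟩
      exact ⟨h, hk.1.ne'⟩
  rw [sum_congr rfl h1, sum_comm]
  refine sum_congr rfl fun d _ => ?_
  rw [← sum_filter, ← card_eq_sum_ones, Nat.Ioc_filter_dvd_card_eq_div]

theorem sum_card_divisors_le (X : ℕ) :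
    ((∑ k ∈ Ioc 0 X, k.divisors.card : ℕ) : ℝ) ≤ X * (1 + Real.log X) := by
  rw [sum_card_divisors]
  push_cast
  have h1 : ∀ d ∈ Ioc 0 X, (((X / d : ℕ)) : ℝ) ≤ X * ((d : ℝ)⁻¹) := by
    intro d _
    rw [← div_eq_mul_inv]
    exact Nat.cast_div_le
  refine (sum_le_sum h1).trans ?_
  rw [← mul_sum]
  apply mul_le_mul_of_nonneg_left _ (by positivity)
  have h2 := harmonic_le_one_add_log X
  rw [harmonic_eq_sum_Icc] at h2
  push_cast at h2
  refine le_trans (le_of_eq ?_) h2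
  refine sum_congr ?_ fun _ _ => rfl
  ext d
  simp only [mem_Ioc, mem_Icc]
  omega

open Classical in
theorem count_bound {P : ℕ → Prop} (hP : Cond P) {X D y j K V : ℕ} (hy : 4 * D ^ 6 ≤ y)
    (hK1 : D ^ 3 * y ^ j ≤ K) (hK2 : 4 * (2 * D ^ 9) ^ 3 ≤ K) (hKV : V ^ 2 * 4 ^ (V ^ 2) ≤ K) :
    ({k : ℕ | k ≤ X ∧ 2 ≤ k ∧ ¬ k.Prime ∧ P k}.ncard : ℝ) ≤
      (K + 1) + X * (2 / (D + 1)) + X * (1 + Real.log X) / 2 ^ j +
        ∑ v ∈ Ioo V (2 * D ^ 9 + 1), (Nat.primeCounting (X / v ^ 2) : ℝ) := by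
  set T0 : Finset ℕ := range (K + 1) with hT0
  set T1 : Finset ℕ := (Ioo D (X + 1)).biUnion (fun d => (Ioc 0 X).filter (fun k => d ^ 2 ∣ k))
    with hT1
  set T2 : Finset ℕ := (Ioc 0 X).filter (fun k => 2 ^ j ≤ k.divisors.card) with hT2
  set T3 : Finset ℕ := (Ioo V (2 * D ^ 9 + 1)).biUnion
    (fun v => ((range (X / v ^ 2 + 1)).filter Nat.Prime).image (fun p => v ^ 2 * p)) with hT3
  have hsub : {k : ℕ | k ≤ X ∧ 2 ≤ k ∧ ¬ k.Prime ∧ P k} ⊆ ((T0 ∪ T1 ∪ T2 ∪ T3 : Finset ℕ) : Set ℕ) := by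
    rintro k ⟨hkX, hk2, hkp, hPk⟩
    rw [mem_coe, mem_union, mem_union, mem_union]
    by_cases hkK : K < k
    · rcases struct hP hk2 hkp hPk hy hK1 hK2 hkK with ⟨d, hd, hdk⟩ | h | ⟨v, p, hp, hkv, hvW, hv4⟩
      · left; left; right
        rw [hT1, mem_biUnion]
        refine ⟨d, ?_, ?_⟩
        · rw [mem_Ioo]
          have h1 := Nat.le_of_dvd (by omega) hdk
          have h2 : d ≤ d ^ 2 := Nat.le_self_pow (by norm_num) d
          omega
        · rw [mem_filter, mem_Ioc]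
          exact ⟨⟨by omega, hkX⟩, hdk⟩
      · left; right
        rw [hT2, mem_filter, mem_Ioc]
        exact ⟨⟨by omega, hkX⟩, h⟩
      · right
        have hv0 : 0 < v := by
          rcases Nat.eq_zero_or_pos v with h | h
          · subst h
            simp at hkv
            omega
          · exact h
        rw [hT3, mem_biUnion]
        refine ⟨v, ?_, ?_⟩
        · rw [mem_Ioo]
          constructor
          · by_contra hlt
            push Not at hlt
            have h1 : v ^ 2 ≤ V ^ 2 := Nat.pow_le_pow_left hlt 2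
            have h2 : v ^ 2 * 4 ^ (v ^ 2) ≤ V ^ 2 * 4 ^ (V ^ 2) :=
              Nat.mul_le_mul h1 (Nat.pow_le_pow_right (by norm_num) h1)
            omega
          · have h2 : v ≤ v ^ 2 := Nat.le_self_pow (by norm_num) v
            omega
        · rw [mem_image]
          refine ⟨p, ?_, hkv.symm⟩
          rw [mem_filter, mem_range, Nat.lt_succ_iff, Nat.le_div_iff_mul_le (by positivity)]
          refine ⟨?_, hp⟩
          rw [mul_comm, ← hkv]
          exact hkX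
    · left; left; left
      rw [hT0, mem_range]
      omega
  have hc0 : (T0.card : ℝ) = K + 1 := by
    rw [hT0, card_range]
    push_cast
    rfl
  have hc1 : (T1.card : ℝ) ≤ X * (2 / (D + 1)) := by
    have h1 : (T1.card : ℝ) ≤ ∑ d ∈ Ioo D (X + 1), ((((Ioc 0 X).filter (fun k => d ^ 2 ∣ k)).card : ℕ) : ℝ) := by
      have := card_biUnion_le (s := Ioo D (X + 1)) (t := fun d => (Ioc 0 X).filter (fun k => d ^ 2 ∣ k))
      exact_mod_cast this
    refine h1.trans ?_
    have h2 : ∀ d ∈ Ioo D (X + 1), ((((Ioc 0 X).filter (fun k => d ^ 2 ∣ k)).card : ℕ) : ℝ) ≤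
        X * ((d : ℝ) ^ 2)⁻¹ := by
      intro d _
      rw [Nat.Ioc_filter_dvd_card_eq_div, ← div_eq_mul_inv]
      have := Nat.cast_div_le (α := ℝ) (m := X) (n := d ^ 2)
      refine this.trans (le_of_eq ?_)
      push_cast
      rfl
    refine (sum_le_sum h2).trans ?_
    rw [← mul_sum]
    exact mul_le_mul_of_nonneg_left (sum_Ioo_inv_sq_le D (X + 1)) (by positivity)
  have hc2 : (T2.card : ℝ) ≤ X * (1 + Real.log X) / 2 ^ j := by
    rw [le_div_iff₀ (by positivity)]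
    refine le_trans ?_ (sum_card_divisors_le X)
    have h1 : T2.card * 2 ^ j ≤ ∑ k ∈ Ioc 0 X, k.divisors.card := by
      calc T2.card * 2 ^ j = ∑ k ∈ T2, 2 ^ j := by rw [sum_const, smul_eq_mul]
        _ ≤ ∑ k ∈ T2, k.divisors.card := sum_le_sum fun k hk => (mem_filter.1 hk).2
        _ ≤ ∑ k ∈ Ioc 0 X, k.divisors.card :=
            sum_le_sum_of_subset (filter_subset _ _)
    exact_mod_cast h1
  have hc3 : (T3.card : ℝ) ≤ ∑ v ∈ Ioo V (2 * D ^ 9 + 1), (Nat.primeCounting (X / v ^ 2) : ℝ) := by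
    have h1 : T3.card ≤ ∑ v ∈ Ioo V (2 * D ^ 9 + 1), Nat.primeCounting (X / v ^ 2) := by
      refine card_biUnion_le.trans (sum_le_sum fun v _ => ?_)
      refine card_image_le.trans (le_of_eq ?_)
      rw [Nat.primeCounting, Nat.primeCounting', Nat.count_eq_card_filter_range]
    exact_mod_cast h1
  have hfin : ({k : ℕ | k ≤ X ∧ 2 ≤ k ∧ ¬ k.Prime ∧ P k}.ncard : ℝ) ≤
      ((T0 ∪ T1 ∪ T2 ∪ T3 : Finset ℕ).card : ℝ) := by
    have := Set.ncard_le_ncard hsub (finite_toSet _)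
    rw [Set.ncard_coe_finset] at this
    exact_mod_cast this
  have hun : ((T0 ∪ T1 ∪ T2 ∪ T3 : Finset ℕ).card : ℝ) ≤ T0.card + T1.card + T2.card + T3.card := by
    have h1 := card_union_le (T0 ∪ T1 ∪ T2) T3
    have h2 := card_union_le (T0 ∪ T1) T2
    have h3 := card_union_le T0 T1
    have h4 : (T0 ∪ T1 ∪ T2 ∪ T3).card ≤ T0.card + T1.card + T2.card + T3.card := by omega
    exact_mod_cast h4
  linarith

end Pool.Agent.Helper31K9.RNG
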