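import Pool.Agent.Helper31K9.RNG.St2
import Pool.Agent.Helper31K9.RNG.CntB

set_option autoImplicit false
set_option linter.unusedSectionVars false
set_option linter.unusedVariables false

/-!
# Leaf CND: counting the exceptional orders
-/

namespace Pool.Agent.Helper31K9.RNG

open Finset

namespace CndL

theorem struct2 {P : ℕ → Prop} (hP : Cond2 P) {k : ℕ} (hk : 2 ≤ k) (hkp : ¬ k.Prime) (hPk : P k)
    {D y j K : ℕ} (hy : 4 * D ^ 6 ≤ y) (hK1 : D ^ 3 * y ^ j ≤ K) (hK2 : 4 * (2 * D ^ 9) ^ 3 ≤ K)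
    (hkK : K < k) :
    (∃ d, D < d ∧ d ^ 2 ∣ k) ∨ 2 ^ j ≤ k.divisors.card ∨
      ∃ m p q i, p.Prime ∧ k = m * p ∧ 2 ≤ m ∧ m ≤ 2 * D ^ 9 ∧ q.Prime ∧ q ∣ m ∧ 1 ≤ i ∧
        i ≤ m ^ 2 ∧ p ∣ q ^ i - 1 := by
  obtain ⟨c, d, hdc, hc⟩ := Nat.sq_mul_squarefree k
  have hd0 : 0 < d := by
    rcases Nat.eq_zero_or_pos d with h | h
    · subst h
      simp at hdc
      omega
    · exact h
  have hc0 : 0 < c := by
    rcases Nat.eq_zero_or_pos c with h | h
    · subst h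
      simp at hdc
      omega
    · exact h
  by_cases hdD : D < d
  · exact Or.inl ⟨d, hdD, hdc ▸ Dvd.intro _ rfl⟩
  push Not at hdD
  right
  obtain ⟨s, hs⟩ := Nat.gcd_dvd_left c d
  set g := c.gcd d with hg
  have hg0 : 0 < g := Nat.gcd_pos_of_pos_right _ hd0
  have hs0 : 0 < s := by
    rcases Nat.eq_zero_or_pos s with h | h
    · subst h
      simp at hs
      omega
    · exact h
  have hssq : Squarefree s := hc.squarefree_of_dvd (hs ▸ Dvd.intro_left _ rfl)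
  have hgs : g.Coprime s := by
    rw [hs] at hc
    exact Nat.coprime_of_squarefree_mul hc
  have hds : d.Coprime s := by
    rw [Nat.coprime_iff_gcd_eq_one]
    have h1 : d.gcd s ∣ g := by
      rw [hg]
      exact Nat.dvd_gcd ((Nat.gcd_dvd_right d s).trans (hs ▸ Dvd.intro_left _ rfl))
        (Nat.gcd_dvd_left d s)
    have h2 : d.gcd s ∣ g.gcd s := Nat.dvd_gcd h1 (Nat.gcd_dvd_right d s)
    rw [hgs] at h2
    exact Nat.dvd_one.1 h2
  set m := d ^ 2 * g with hm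
  have hkm : k = m * s := by
    rw [← hdc, hs, hm]
    ring
  have hms : m.Coprime s := Nat.Coprime.mul_left (Nat.Coprime.pow_left 2 hds) hgs
  have hm0 : 0 < m := by positivity
  have hmD : m ≤ D ^ 3 := by
    have h1 : g ≤ d := Nat.le_of_dvd hd0 (Nat.gcd_dvd_right c d)
    calc m = d ^ 2 * g := hm
      _ ≤ d ^ 2 * d := Nat.mul_le_mul_left _ h1
      _ = d ^ 3 := by ring
      _ ≤ D ^ 3 := Nat.pow_le_pow_left hdD 3
  have hm2 : m ^ 2 ≤ D ^ 6 := by
    calc m ^ 2 ≤ (D ^ 3) ^ 2 := Nat.pow_le_pow_left hmD 2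
      _ = D ^ 6 := by ring
  by_cases hC : ∀ q, q.Prime → q ∣ s → q < 4 * m ^ 2
  · left
    have h1 : s ≤ y ^ s.primeFactors.card := smooth_card hssq fun q hq hqs => by
      have := hC q hq hqs
      omega
    have hy0 : 0 < y := by
      have : 0 < m ^ 2 := by positivity
      omega
    have h2 : j ≤ s.primeFactors.card := by
      by_contra hlt
      push Not at hlt
      have h3 : s ≤ y ^ j := h1.trans (Nat.pow_le_pow_right hy0 hlt.le)
      have h4 : k ≤ D ^ 3 * y ^ j := by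
        rw [hkm]
        exact Nat.mul_le_mul hmD h3
      omega
    calc 2 ^ j ≤ 2 ^ s.primeFactors.card := Nat.pow_le_pow_right (by norm_num) h2
      _ ≤ k.divisors.card := two_pow_card_le (by omega) (hkm ▸ Dvd.intro_left _ rfl)
  · right
    push Not at hC
    obtain ⟨q, hq, hqs, hqm⟩ := hC
    have hm21 : 1 ≤ m ^ 2 := Nat.one_le_pow _ _ hm0
    have hq2 : q ≠ 2 := by omega
    have h1 := hP.ineq k hPk m s q hkm hms hssq hq hq2 hqs
    obtain ⟨r, hr⟩ := hqs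
    have hr0 : 0 < r := by
      rcases Nat.eq_zero_or_pos r with h | h
      · subst h
        simp at hr
        omega
      · exact h
    have hsm : s ≤ 2 * m ^ 2 * q := by
      have h2 : (4 : ℤ) * m ^ 2 ≤ q := by exact_mod_cast hqm
      have h3 : (0 : ℤ) < q := by exact_mod_cast hq.pos
      have h4 : (q : ℤ) * s ≤ q * (2 * m ^ 2 * q) := by
        have h5 : (0 : ℤ) ≤ s := by positivity
        have h6 : (q : ℤ) * s ≤ 2 * ((q - 2 * m ^ 2) * s) := by nlinarith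
        have h7 : (2 : ℤ) * (m ^ 2 * q * (q - 2)) ≤ q * (2 * m ^ 2 * q) := by
          have : (0 : ℤ) ≤ (m : ℤ) ^ 2 * q := by positivity
          nlinarith
        linarith
      have h8 := le_of_mul_le_mul_left h4 h3
      exact_mod_cast h8
    have hrm : r ≤ 2 * m ^ 2 := by
      rw [hr] at hsm
      have : q * r ≤ q * (2 * m ^ 2) := by
        calc q * r ≤ 2 * m ^ 2 * q := hsm
          _ = q * (2 * m ^ 2) := by ring
      exact Nat.le_of_mul_le_mul_left this hq.pos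
    set m' := m * r with hm'
    have hkm' : k = m' * q := by
      rw [hkm, hr, hm']
      ring
    have hm'W : m' ≤ 2 * D ^ 9 := by
      calc m' = m * r := hm'
        _ ≤ D ^ 3 * (2 * m ^ 2) := Nat.mul_le_mul hmD hrm
        _ ≤ D ^ 3 * (2 * D ^ 6) := Nat.mul_le_mul_left _ (Nat.mul_le_mul_left _ hm2)
        _ = 2 * D ^ 9 := by ring
    have hqm' : ¬ q ∣ m' := by
      rw [hm', Nat.Prime.dvd_mul hq]
      rintro (h | h)
      · have h2 := Nat.dvd_gcd h (show q ∣ s by rw [hr]; exact Dvd.intro _ rfl)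
        rw [hms] at h2
        exact hq.one_lt.ne' (Nat.dvd_one.1 h2)
      · obtain ⟨w, hw⟩ := h
        have h2 : q * q ∣ s := ⟨w, by rw [hr, hw]; ring⟩
        have h3 := hssq q h2
        rw [Nat.isUnit_iff] at h3
        exact hq.one_lt.ne' h3
    have hm'2 : 2 ≤ m' := by
      have h2 : 0 < m' := by positivity
      by_contra h3
      push Not at h3
      have h4 : m' = 1 := by omega
      rw [h4, one_mul] at hkm'
      exact hkp (hkm' ▸ hq)
    have h4 : ¬ q ≤ 4 * m' ^ 2 := by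
      intro h5
      have h6 : k ≤ 4 * (2 * D ^ 9) ^ 3 := by
        calc k = m' * q := hkm'
          _ ≤ m' * (4 * m' ^ 2) := Nat.mul_le_mul_left _ h5
          _ = 4 * m' ^ 3 := by ring
          _ ≤ 4 * (2 * D ^ 9) ^ 3 := Nat.mul_le_mul_left _ (Nat.pow_le_pow_left hm'W 3)
      omega
    obtain ⟨r', hr'p, hr'm, hr'o⟩ := (hP.big k hPk m' q hkm' hq hqm' hm'2).resolve_left h4
    have : Fact q.Prime := ⟨hq⟩
    have h7 : ((r' : ℕ) : ZMod q) ≠ 0 := by
      intro h8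
      rw [ZMod.natCast_eq_zero_iff] at h8
      exact hqm' (h8.trans hr'm)
    have h8 : 0 < orderOf ((r' : ℕ) : ZMod q) := by
      rw [orderOf_pos_iff, isOfFinOrder_iff_pow_eq_one]
      exact ⟨q - 1, Nat.sub_pos_of_lt hq.one_lt, ZMod.pow_card_sub_one_eq_one h7⟩
    refine ⟨m', q, r', orderOf ((r' : ℕ) : ZMod q), hq, hkm', hm'2, hm'W, hr'p, hr'm, h8, hr'o, ?_⟩
    have h9 : ((r' : ℕ) : ZMod q) ^ orderOf ((r' : ℕ) : ZMod q) = 1 := pow_orderOf_eq_one _
    have h10 : 1 ≤ r' ^ orderOf ((r' : ℕ) : ZMod q) := Nat.one_le_pow _ _ hr'p.pos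
    rw [← ZMod.natCast_eq_zero_iff, Nat.cast_sub h10]
    push_cast
    rw [h9, sub_self]

/-- the number of prime factors of `q ^ i - 1` -/
theorem card_pf {W q i : ℕ} (hq : 2 ≤ q) (hqW : q ≤ W) (hi : 1 ≤ i) (hiW : i ≤ W ^ 2) :
    (q ^ i - 1).primeFactors.card ≤ W ^ 3 := by
  have h1 : 2 ≤ q ^ i := hq.trans (Nat.le_self_pow (by omega) q)
  have h2 : q ^ i - 1 ≠ 0 := by omega
  have h3 := two_pow_card_le h2 (dvd_refl (q ^ i - 1))
  have h4 : (q ^ i - 1).divisors.card ≤ q ^ i - 1 := Nat.card_divisors_le_self _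
  have h5 : q ^ i ≤ 2 ^ (W ^ 3) := by
    calc q ^ i ≤ W ^ i := Nat.pow_le_pow_left hqW i
      _ ≤ W ^ (W ^ 2) := Nat.pow_le_pow_right (by omega) hiW
      _ ≤ (2 ^ W) ^ (W ^ 2) := Nat.pow_le_pow_left Nat.lt_two_pow_self.le _
      _ = 2 ^ (W ^ 3) := by
        rw [← pow_mul]
        congr 1
        ring
  have h6 : 2 ^ (q ^ i - 1).primeFactors.card ≤ 2 ^ (W ^ 3) := by omega
  exact (Nat.pow_le_pow_iff_right (by norm_num)).1 h6

open Classical in
theorem count_bound2 {P : ℕ → Prop} (hP : Cond2 P) {X D y j K : ℕ} (hy : 4 * D ^ 6 ≤ y)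
    (hK1 : D ^ 3 * y ^ j ≤ K) (hK2 : 4 * (2 * D ^ 9) ^ 3 ≤ K) :
    ({k : ℕ | k ≤ X ∧ 2 ≤ k ∧ ¬ k.Prime ∧ P k}.ncard : ℝ) ≤
      (K + 1) + X * (2 / (D + 1)) + X * (1 + Real.log X) / 2 ^ j +
        (((2 * D ^ 9) ^ 7 : ℕ) : ℝ) := by
  set W : ℕ := 2 * D ^ 9 with hW
  set T0 : Finset ℕ := range (K + 1) with hT0
  set T1 : Finset ℕ := (Ioo D (X + 1)).biUnion (fun d => (Ioc 0 X).filter (fun k => d ^ 2 ∣ k))
    with hT1
  set T2 : Finset ℕ := (Ioc 0 X).filter (fun k => 2 ^ j ≤ k.divisors.card) with hT2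
  set T3 : Finset ℕ := (Icc 2 W ×ˢ (Icc 2 W ×ˢ Icc 1 (W ^ 2))).biUnion
    (fun a => (a.2.1 ^ a.2.2 - 1).primeFactors.image (fun p => a.1 * p)) with hT3
  have hsub : {k : ℕ | k ≤ X ∧ 2 ≤ k ∧ ¬ k.Prime ∧ P k} ⊆
      ((T0 ∪ T1 ∪ T2 ∪ T3 : Finset ℕ) : Set ℕ) := by
    rintro k ⟨hkX, hk2, hkp, hPk⟩
    rw [mem_coe, mem_union, mem_union, mem_union]
    by_cases hkK : K < k
    · rcases struct2 hP hk2 hkp hPk hy hK1 hK2 hkK with ⟨d, hd, hdk⟩ | h |
        ⟨m, p, q, i, hp, hkm, hm2, hmW, hq, hqm, hi1, hi2, hpq⟩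
      · left; left; right
        rw [hT1, mem_biUnion]
        refine ⟨d, ?_, ?_⟩
        · rw [mem_Ioo]
          have h1 := Nat.le_of_dvd (by omega) hdk
          have h2 : d ≤ d ^ 2 := Nat.le_self_pow (by norm_num) d
          omega
        · rw [mem_filter, mem_Ioc]
          exact ⟨⟨by omega, hkX⟩, hdk⟩
      · left; right
        rw [hT2, mem_filter, mem_Ioc]
        exact ⟨⟨by omega, hkX⟩, h⟩
      · right
        rw [hT3, mem_biUnion]
        refine ⟨(m, q, i), ?_, ?_⟩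
        · rw [mem_product, mem_product, mem_Icc, mem_Icc, mem_Icc]
          have h1 : q ≤ m := Nat.le_of_dvd (by omega) hqm
          have h2 : m ^ 2 ≤ W ^ 2 := Nat.pow_le_pow_left hmW 2
          exact ⟨⟨hm2, hmW⟩, ⟨hq.two_le, h1.trans hmW⟩, hi1, hi2.trans h2⟩
        · rw [mem_image]
          refine ⟨p, ?_, hkm.symm⟩
          rw [Nat.mem_primeFactors]
          refine ⟨hp, hpq, ?_⟩
          have h1 : 2 ≤ q ^ i := hq.two_le.trans (Nat.le_self_pow (by omega) q)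
          simp only
          omega
    · left; left; left
      rw [hT0, mem_range]
      omega
  have hc0 : (T0.card : ℝ) = K + 1 := by
    rw [hT0, card_range]
    push_cast
    rfl
  have hc1 : (T1.card : ℝ) ≤ X * (2 / (D + 1)) := by
    have h1 : (T1.card : ℝ) ≤
        ∑ d ∈ Ioo D (X + 1), ((((Ioc 0 X).filter (fun k => d ^ 2 ∣ k)).card : ℕ) : ℝ) := by
      have := card_biUnion_le (s := Ioo D (X + 1))
        (t := fun d => (Ioc 0 X).filter (fun k => d ^ 2 ∣ k))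
      exact_mod_cast this
    refine h1.trans ?_
    have h2 : ∀ d ∈ Ioo D (X + 1),
        ((((Ioc 0 X).filter (fun k => d ^ 2 ∣ k)).card : ℕ) : ℝ) ≤ X * ((d : ℝ) ^ 2)⁻¹ := by
      intro d _
      rw [Nat.Ioc_filter_dvd_card_eq_div, ← div_eq_mul_inv]
      have := Nat.cast_div_le (α := ℝ) (m := X) (n := d ^ 2)
      refine this.trans (le_of_eq ?_)
      push_cast
      rfl
    refine (sum_le_sum h2).trans ?_
    rw [← mul_sum]
    exact mul_le_mul_of_nonneg_left (sum_Ioo_inv_sq_le D (X + 1)) (by positivity)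
  have hc2 : (T2.card : ℝ) ≤ X * (1 + Real.log X) / 2 ^ j := by
    rw [le_div_iff₀ (by positivity)]
    refine le_trans ?_ (sum_card_divisors_le X)
    have h1 : T2.card * 2 ^ j ≤ ∑ k ∈ Ioc 0 X, k.divisors.card := by
      calc T2.card * 2 ^ j = ∑ k ∈ T2, 2 ^ j := by rw [sum_const, smul_eq_mul]
        _ ≤ ∑ k ∈ T2, k.divisors.card := sum_le_sum fun k hk => (mem_filter.1 hk).2
        _ ≤ ∑ k ∈ Ioc 0 X, k.divisors.card :=
            sum_le_sum_of_subset (filter_subset _ _)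
    exact_mod_cast h1
  have hc3 : (T3.card : ℝ) ≤ ((W ^ 7 : ℕ) : ℝ) := by
    have h1 : T3.card ≤ ∑ a ∈ Icc 2 W ×ˢ (Icc 2 W ×ˢ Icc 1 (W ^ 2)), W ^ 3 := by
      refine card_biUnion_le.trans (sum_le_sum fun a ha => card_image_le.trans ?_)
      rw [mem_product, mem_product, mem_Icc, mem_Icc, mem_Icc] at ha
      exact card_pf ha.2.1.1 ha.2.1.2 ha.2.2.1 ha.2.2.2
    have h2 : ∑ a ∈ Icc 2 W ×ˢ (Icc 2 W ×ˢ Icc 1 (W ^ 2)), W ^ 3 ≤ W ^ 7 := by
      rw [sum_const, smul_eq_mul, card_product, card_product, Nat.card_Icc, Nat.card_Icc]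
      calc (W + 1 - 2) * ((W + 1 - 2) * (W ^ 2 + 1 - 1)) * W ^ 3
          ≤ W * (W * W ^ 2) * W ^ 3 := by
            apply Nat.mul_le_mul_right
            apply Nat.mul_le_mul (by omega)
            exact Nat.mul_le_mul (by omega) (by omega)
        _ = W ^ 7 := by ring
    exact_mod_cast h1.trans h2
  have hfin : ({k : ℕ | k ≤ X ∧ 2 ≤ k ∧ ¬ k.Prime ∧ P k}.ncard : ℝ) ≤
      ((T0 ∪ T1 ∪ T2 ∪ T3 : Finset ℕ).card : ℝ) := by
    have := Set.ncard_le_ncard hsub (finite_toSet _)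
    rw [Set.ncard_coe_finset] at this
    exact_mod_cast this
  have hun : ((T0 ∪ T1 ∪ T2 ∪ T3 : Finset ℕ).card : ℝ) ≤ T0.card + T1.card + T2.card + T3.card := by
    have h1 := card_union_le (T0 ∪ T1 ∪ T2) T3
    have h2 := card_union_le (T0 ∪ T1) T2
    have h3 := card_union_le T0 T1
    have h4 : (T0 ∪ T1 ∪ T2 ∪ T3).card ≤ T0.card + T1.card + T2.card + T3.card := by omega
    exact_mod_cast h4
  linarith

theorem count_main2 {P : ℕ → Prop} (hP : Cond2 P) (X : ℕ) (hX : 1 ≤ X) :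
    ({k : ℕ | k ≤ X ∧ 2 ≤ k ∧ ¬ k.Prime ∧ P k}.ncard : ℝ) ≤
      2 ^ 99 * X * Real.exp (-(Real.sqrt (Real.log X) / 16)) := by
  set L := Real.log X with hL
  have hX0 : (0 : ℝ) < X := by exact_mod_cast hX
  have hX1 : (1 : ℝ) ≤ X := by exact_mod_cast hX
  have hL0 : 0 ≤ L := Real.log_nonneg hX1
  set l := Nat.log 2 X with hl
  have hXl : 2 ^ l ≤ X := Nat.pow_log_le_self 2 (by omega)
  have hXl' : X < 2 ^ (l + 1) := Nat.lt_pow_succ_log_self (by norm_num) X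
  have hLl : L ≤ l + 1 := by
    have h1 : (X : ℝ) ≤ 2 ^ (l + 1) := by exact_mod_cast hXl'.le
    have h2 : L ≤ Real.log (2 ^ (l + 1)) := Real.log_le_log hX0 h1
    rw [Real.log_pow] at h2
    push_cast at h2
    have h3 := Real.log_two_lt_d9
    have h4 : ((l : ℝ) + 1) * Real.log 2 ≤ (l + 1) * 1 :=
      mul_le_mul_of_nonneg_left (by linarith) (by positivity)
    linarith
  set y := Real.sqrt L with hy
  have hy0 : 0 ≤ y := Real.sqrt_nonneg L
  have hy2 : y ^ 2 = L := Real.sq_sqrt hL0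
  set u := Nat.sqrt (l / 12) with hu
  have hu1 : u ^ 2 ≤ l / 12 := Nat.sqrt_le' _
  have hu2 : l / 12 < (u + 1) ^ 2 := Nat.lt_succ_sqrt' _
  have hu12 : 12 * u ^ 2 ≤ l := by omega
  have key := count_bound2 hP (X := X) (D := 2 ^ u) (y := 4 * (2 ^ u) ^ 6) (j := u)
    (K := 2 ^ (6 * u ^ 2 + 5 * u) + 2 ^ (27 * u + 5)) le_rfl (by
      refine le_trans (le_of_eq ?_) (Nat.le_add_right _ _)
      have e4 : (4 : ℕ) * (2 ^ u) ^ 6 = 2 ^ (6 * u + 2) := by
        rw [← pow_mul, show (6 * u + 2) = 2 + u * 6 by ring, pow_add]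
        norm_num
      rw [e4, ← pow_mul, ← pow_mul, ← pow_add]
      congr 1
      ring) (by
      refine le_trans (le_of_eq ?_) (Nat.le_add_left _ _)
      have e4 : (2 : ℕ) * (2 ^ u) ^ 9 = 2 ^ (9 * u + 1) := by
        rw [← pow_mul, show (9 * u + 1) = 1 + u * 9 by ring, pow_add, pow_one]
      have e5 : (4 : ℕ) = 2 ^ 2 := by norm_num
      rw [e4, e5, ← pow_mul, ← pow_add]
      congr 1
      ring)
  rw [← hL] at key
  -- the exponent
  have hyu : y ≤ 4 * (u + 1) + 1 := by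
    have h1 : l + 1 ≤ 12 * (u + 1) ^ 2 := by omega
    have h2 : (l : ℝ) + 1 ≤ 12 * ((u : ℝ) + 1) ^ 2 := by exact_mod_cast h1
    have h3 : y ^ 2 ≤ (4 * ((u : ℝ) + 1)) ^ 2 := by
      rw [hy2]
      nlinarith
    have h4 := abs_le_of_sq_le_sq' h3 (by positivity)
    linarith [h4.2]
  have hexp : ∀ a : ℕ, a + u ≤ l + 93 → ((2 : ℝ) ^ a) ≤ 2 ^ 93 * X / 2 ^ u := by
    intro a ha
    rw [le_div_iff₀ (by positivity), ← pow_add]
    have h1 : (2 : ℝ) ^ (a + u) ≤ 2 ^ (l + 93) := pow_le_pow_right₀ (by norm_num) ha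
    have h2 : (2 : ℝ) ^ l ≤ X := by exact_mod_cast hXl
    rw [pow_add 2 l] at h1
    nlinarith
  have hA : ((2 : ℝ) ^ (6 * u ^ 2 + 5 * u)) ≤ 2 ^ 93 * X / 2 ^ u := by
    apply hexp
    have : u ≤ u ^ 2 := Nat.le_self_pow (by norm_num) u
    omega
  have hB : ((2 : ℝ) ^ (27 * u + 5)) ≤ 2 ^ 93 * X / 2 ^ u := by
    apply hexp
    have : (28 * (u : ℤ)) ≤ 12 * u ^ 2 + 17 := by nlinarith [sq_nonneg (6 * (u : ℤ) - 7)]
    have : 28 * u ≤ 12 * u ^ 2 + 17 := by exact_mod_cast this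
    omega
  have hC : ((2 : ℝ) ^ (63 * u + 7)) ≤ 2 ^ 93 * X / 2 ^ u := by
    apply hexp
    have : (64 * (u : ℤ)) ≤ 12 * u ^ 2 + 86 := by nlinarith [sq_nonneg (3 * (u : ℤ) - 8)]
    have : 64 * u ≤ 12 * u ^ 2 + 86 := by exact_mod_cast this
    omega
  have hD : (1 : ℝ) ≤ 2 ^ 93 * X / 2 ^ u := by
    have h1 := hexp 0 (by
      have : u ≤ u ^ 2 := Nat.le_self_pow (by norm_num) u
      omega)
    simpa using h1
  have hW : (((2 * (2 ^ u) ^ 9) ^ 7 : ℕ) : ℝ) = 2 ^ (63 * u + 7) := by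
    push_cast
    rw [mul_pow, ← pow_mul, ← pow_mul, ← pow_add]
    congr 1
    ring
  have hKK : ((2 ^ (6 * u ^ 2 + 5 * u) + 2 ^ (27 * u + 5) : ℕ) : ℝ) =
      2 ^ (6 * u ^ 2 + 5 * u) + 2 ^ (27 * u + 5) := by
    push_cast
    rfl
  have h2u : (X : ℝ) * (2 / (((2 ^ u : ℕ) : ℝ) + 1)) ≤ 2 * X / 2 ^ u := by
    have h1 : (2 : ℝ) / (((2 ^ u : ℕ) : ℝ) + 1) ≤ 2 / 2 ^ u := by
      apply div_le_div_of_nonneg_left (by norm_num) (by positivity)
      push_cast
      linarith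
    calc (X : ℝ) * (2 / (((2 ^ u : ℕ) : ℝ) + 1)) ≤ X * (2 / 2 ^ u) :=
          mul_le_mul_of_nonneg_left h1 hX0.le
      _ = 2 * X / 2 ^ u := by ring
  rw [hW, hKK] at key
  have htot : ({k : ℕ | k ≤ X ∧ 2 ≤ k ∧ ¬ k.Prime ∧ P k}.ncard : ℝ) ≤
      X * ((4 * 2 ^ 93 + 3) + y ^ 2) / 2 ^ u := by
    have e : (X : ℝ) * ((4 * 2 ^ 93 + 3) + y ^ 2) / 2 ^ u = 4 * (2 ^ 93 * X / 2 ^ u) +
        2 * X / 2 ^ u + X * (1 + L) / 2 ^ u := by
      rw [hy2]
      ring
    rw [e]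
    linarith
  refine htot.trans ?_
  have h5 : (4 * 2 ^ 93 + 3) + y ^ 2 ≤ 2 ^ 97 * Real.exp (y / 16) := by
    have h1 := Real.quadratic_le_exp_of_nonneg (x := y / 16) (by positivity)
    have h2 : 1 ≤ Real.exp (y / 16) := Real.one_le_exp (by positivity)
    nlinarith
  -- `1 / 2 ^ u ≤ exp (- (y - 5) / 8)`
  have h6 : (1 : ℝ) / 2 ^ u ≤ Real.exp (-((y - 5) / 8)) := by
    rw [div_le_iff₀ (by positivity)]
    have h1 : Real.exp ((y - 5) / 8) ≤ 2 ^ u := by
      have h2 : (2 : ℝ) ^ u = Real.exp (u * Real.log 2) := by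
        rw [mul_comm, Real.exp_mul, Real.exp_log (by norm_num), Real.rpow_natCast]
      rw [h2]
      apply Real.exp_le_exp.2
      have h3 := Real.log_two_gt_d9
      have h4 : (u : ℝ) * (1 / 2) ≤ u * Real.log 2 := mul_le_mul_of_nonneg_left (by linarith)
        (by positivity)
      linarith
    calc (1 : ℝ) = Real.exp (-((y - 5) / 8)) * Real.exp ((y - 5) / 8) := by
          rw [← Real.exp_add]
          simp
      _ ≤ Real.exp (-((y - 5) / 8)) * 2 ^ u := mul_le_mul_of_nonneg_left h1 (Real.exp_pos _).le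
  have h7 : Real.exp (5 / 8) ≤ 3 := by
    have h1 := Real.exp_one_lt_d9
    have h2 : Real.exp (5 / 8) ≤ Real.exp 1 := Real.exp_le_exp.2 (by norm_num)
    linarith
  calc (X : ℝ) * ((4 * 2 ^ 93 + 3) + y ^ 2) / 2 ^ u
      = X * ((4 * 2 ^ 93 + 3) + y ^ 2) * (1 / 2 ^ u) := by ring
    _ ≤ X * (2 ^ 97 * Real.exp (y / 16)) * Real.exp (-((y - 5) / 8)) := by
        apply mul_le_mul _ h6 (by positivity) (by positivity)
        exact mul_le_mul_of_nonneg_left h5 hX0.le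
    _ = 2 ^ 97 * X * Real.exp (5 / 8) * Real.exp (-(y / 16)) := by
        have e : Real.exp (5 / 8) * Real.exp (-(y / 16)) =
            Real.exp (y / 16) * Real.exp (-((y - 5) / 8)) := by
          rw [← Real.exp_add, ← Real.exp_add]
          congr 1
          ring
        rw [mul_assoc (2 ^ 97 * (X : ℝ)), e]
        ring
    _ ≤ 2 ^ 99 * X * Real.exp (-(y / 16)) := by
        apply mul_le_mul_of_nonneg_right _ (Real.exp_pos _).le
        have h8 : (2 ^ 97 * (X : ℝ)) * Real.exp (5 / 8) ≤ (2 ^ 97 * X) * 3 :=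
          mul_le_mul_of_nonneg_left h7 (by positivity)
        have h9 : (2 ^ 97 * (X : ℝ)) * 3 ≤ 2 ^ 99 * X := by
          have : (0 : ℝ) ≤ X := hX0.le
          nlinarith
        linarith

end CndL

open CndL

theorem cnd : S_CND :=
  ⟨2 ^ 99, by positivity, fun P hP X hX => count_main2 hP X hX⟩

end Pool.Agent.Helper31K9.RNG
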