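import Mathlib
import Pool.Agent.Helper31K9.RNG.CntB

set_option autoImplicit false
set_option linter.unusedSectionVars false
set_option linter.unusedVariables false

/-!
# The number of exceptional orders
-/

namespace Pool.Agent.Helper31K9.RNG

open Finset

theorem two_pow_big (u : ℕ) (hu : 16 ≤ u) : 96 * u ^ 2 + 28 * u + 2 ≤ 2 ^ (u - 1) := by
  induction u, hu using Nat.le_induction with
  | base => norm_num
  | succ n hn ih =>
    have h1 : 2 ^ (n + 1 - 1) = 2 * 2 ^ (n - 1) := by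
      rw [← pow_succ']
      congr 1
      omega
    rw [h1]
    nlinarith

/-- the parameters -/
theorem params {l : ℕ} (hl : 2 ^ 15 < l) :
    ∃ D y j V : ℕ, 4 * D ^ 6 ≤ y ∧ D ^ 3 * y ^ j ≤ 2 ^ (l / 2) ∧ 4 * (2 * D ^ 9) ^ 3 ≤ 2 ^ (l / 2) ∧
      V ^ 2 * 4 ^ (V ^ 2) ≤ 2 ^ (l / 2) ∧ l ^ 2 ≤ D ∧ l ^ 4 ≤ 2 ^ j ∧ (2 * D ^ 9) ^ 2 ≤ 2 ^ (l / 2) ∧
      l ≤ 6 * (V + 1) ^ 2 ∧ l ^ 2 ≤ 2 ^ (l / 2) := by
  set u := Nat.clog 2 l with hu
  have h1 : l ≤ 2 ^ u := Nat.le_pow_clog (by norm_num) l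
  have h2 : 2 ^ (u - 1) < l := Nat.pow_pred_clog_lt_self (by norm_num) (by omega)
  have h3 : 16 ≤ u := by
    by_contra h
    push Not at h
    have : 2 ^ u ≤ 2 ^ 15 := Nat.pow_le_pow_right (by norm_num) (by omega)
    omega
  have h4 := two_pow_big u h3
  have h5 : 48 * u ^ 2 + 14 * u ≤ l / 2 := by omega
  have hpow : ∀ a : ℕ, a ≤ 48 * u ^ 2 + 14 * u → 2 ^ a ≤ 2 ^ (l / 2) := fun a ha =>
    Nat.pow_le_pow_right (by norm_num) (ha.trans h5)
  set V := Nat.sqrt (l / 6) with hV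
  refine ⟨2 ^ (2 * u), 4 * (2 ^ (2 * u)) ^ 6, 4 * u, V, le_rfl, ?_, ?_, ?_, ?_, ?_, ?_, ?_, ?_⟩
  · have e : (2 ^ (2 * u)) ^ 3 * (4 * (2 ^ (2 * u)) ^ 6) ^ (4 * u) = 2 ^ (48 * u ^ 2 + 14 * u) := by
      rw [show (4 : ℕ) = 2 ^ 2 by norm_num, ← pow_mul, ← pow_mul, ← pow_add, ← pow_mul, ← pow_add]
      congr 1
      ring
    rw [e]
    exact hpow _ le_rfl
  · have e : 4 * (2 * (2 ^ (2 * u)) ^ 9) ^ 3 = 2 ^ (54 * u + 5) := by
      rw [show (4 : ℕ) = 2 ^ 2 by norm_num, ← pow_mul, mul_pow, ← pow_mul, ← pow_add, ← pow_add]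
      congr 1
      ring
    rw [e]
    exact hpow _ (by nlinarith)
  · have e1 : V ^ 2 ≤ l / 6 := Nat.sqrt_le' (l / 6)
    have e2 : V ^ 2 ≤ 2 ^ (V ^ 2) := Nat.lt_two_pow_self.le
    calc V ^ 2 * 4 ^ (V ^ 2) ≤ 2 ^ (V ^ 2) * 4 ^ (V ^ 2) := Nat.mul_le_mul_right _ e2
      _ = 2 ^ (3 * V ^ 2) := by
          rw [show (4 : ℕ) = 2 ^ 2 by norm_num, ← pow_mul, ← pow_add]
          congr 1
          ring
      _ ≤ 2 ^ (l / 2) := Nat.pow_le_pow_right (by norm_num) (by omega)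
  · calc l ^ 2 ≤ (2 ^ u) ^ 2 := Nat.pow_le_pow_left h1 2
      _ = 2 ^ (2 * u) := by rw [← pow_mul, mul_comm]
  · calc l ^ 4 ≤ (2 ^ u) ^ 4 := Nat.pow_le_pow_left h1 4
      _ = 2 ^ (4 * u) := by rw [← pow_mul, mul_comm]
  · have e : (2 * (2 ^ (2 * u)) ^ 9) ^ 2 = 2 ^ (36 * u + 2) := by
      rw [← pow_mul, mul_pow, ← pow_mul, ← pow_add]
      congr 1
      ring
    rw [e]
    exact hpow _ (by nlinarith)
  · have e1 : l / 6 < (V + 1) ^ 2 := Nat.lt_succ_sqrt' (l / 6)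
    omega
  · calc l ^ 2 ≤ (2 ^ u) ^ 2 := Nat.pow_le_pow_left h1 2
      _ = 2 ^ (2 * u) := by rw [← pow_mul, mul_comm]
      _ ≤ 2 ^ (l / 2) := hpow _ (by nlinarith)

theorem rpow_three_half {L : ℝ} (hL : 0 < L) : L ^ (3 / 2 : ℝ) = L * Real.sqrt L := by
  rw [show (3 / 2 : ℝ) = 1 + 1 / 2 by norm_num, Real.rpow_add hL, Real.rpow_one, ← Real.sqrt_eq_rpow]

theorem prime_term {X v l : ℕ} {L : ℝ} (hL : L = Real.log X) (hLl : L ≤ 2 * l) (hl : 2 ^ 15 < l)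
    (hX : 2 ^ l ≤ X) (hv0 : 0 < v) (hv : v ^ 2 ≤ 2 ^ (l / 2)) (hll : l ^ 2 ≤ 2 ^ (l / 2))
    (hL1 : 1 ≤ L) :
    (Nat.primeCounting (X / v ^ 2) : ℝ) ≤ 10 * X / L * ((v : ℝ) ^ 2)⁻¹ := by
  set x : ℝ := (X : ℝ) / (v : ℝ) ^ 2 with hx
  have hv0' : (0 : ℝ) < (v : ℝ) ^ 2 := by positivity
  have hX0 : (0 : ℝ) < X := by
    have : 0 < X := lt_of_lt_of_le (by positivity) hX
    exact_mod_cast this
  have hv' : (v : ℝ) ^ 2 ≤ 2 ^ (l / 2) := by exact_mod_cast hv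
  have hll' : (l : ℝ) ^ 2 ≤ 2 ^ (l / 2) := by exact_mod_cast hll
  have hX2 : (2 : ℝ) ^ (l / 2) * 2 ^ (l / 2) ≤ X := by
    rw [← pow_add]
    have h1 : 2 ^ (l / 2 + l / 2) ≤ X := (Nat.pow_le_pow_right (by norm_num) (by omega)).trans hX
    exact_mod_cast h1
  have hxl : (2 : ℝ) ^ (l / 2) ≤ x := by
    rw [hx, le_div_iff₀ hv0']
    exact (mul_le_mul_of_nonneg_left hv' (by positivity)).trans hX2
  have hxl2 : (l : ℝ) ^ 2 ≤ x := hll'.trans hxl
  have hl0 : (0 : ℝ) < l := by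
    have : 0 < l := by omega
    exact_mod_cast this
  have hl1 : (2 : ℝ) ≤ l := by
    have : 2 ≤ l := by omega
    exact_mod_cast this
  have hx1 : 1 < x := by nlinarith
  have hx0 : 0 < x := by linarith
  have hxX : (X : ℝ) ≤ x ^ 2 := by
    -- x = X / v^2, x ≥ X / 2^(l/2) and v ^ 2 ≤ 2^(l/2) ≤ x
    have h1 : (v : ℝ) ^ 2 ≤ x := hv'.trans hxl
    have h2 : (X : ℝ) = x * (v : ℝ) ^ 2 := by
      rw [hx]
      field_simp
    rw [h2, sq x]
    exact mul_le_mul_of_nonneg_left h1 hx0.le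
  have hlogx : L / 2 ≤ Real.log x := by
    have h1 : Real.log X ≤ Real.log (x ^ 2) := Real.log_le_log hX0 hxX
    rw [Real.log_pow] at h1
    push_cast at h1
    linarith
  have hlogs : L / 4 ≤ Real.log (Real.sqrt x) := by
    rw [Real.log_sqrt hx0.le]
    linarith
  have hs : (l : ℝ) ≤ Real.sqrt x := Real.le_sqrt_of_sq_le hxl2
  have hs0 : 0 < Real.sqrt x := by linarith
  have hfloor : Nat.primeCounting (X / v ^ 2) = Nat.primeCounting ⌊x⌋₊ := by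
    congr 1
    rw [hx, ← Nat.cast_pow, Nat.floor_div_natCast, Nat.floor_natCast]
  have hpi := Chebyshev.pi_le_log4_mul_div hx1
  rw [hfloor]
  refine hpi.trans ?_
  have h4 : Real.log 4 ≤ 2 := by
    have : Real.log 4 = 2 * Real.log 2 := by
      rw [show (4 : ℝ) = 2 ^ 2 by norm_num, Real.log_pow]
      push_cast
      ring
    rw [this]
    have := Real.log_two_lt_d9
    linarith
  have h5 : Real.log 4 * x / Real.log (Real.sqrt x) ≤ 8 * x / L := by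
    rw [div_le_div_iff₀ (by linarith) (by linarith)]
    have e1 : Real.log 4 * x * L ≤ 2 * x * L := by
      apply mul_le_mul_of_nonneg_right _ (by linarith)
      exact mul_le_mul_of_nonneg_right h4 hx0.le
    have e2 : 2 * x * L ≤ 8 * x * Real.log (Real.sqrt x) := by
      have : 8 * x * (L / 4) ≤ 8 * x * Real.log (Real.sqrt x) :=
        mul_le_mul_of_nonneg_left hlogs (by positivity)
      linarith
    linarith
  have h6 : Real.sqrt x ≤ 2 * x / L := by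
    rw [le_div_iff₀ (by linarith)]
    have e1 : Real.sqrt x * Real.sqrt x = x := Real.mul_self_sqrt hx0.le
    calc Real.sqrt x * L ≤ Real.sqrt x * (2 * l) := mul_le_mul_of_nonneg_left hLl hs0.le
      _ ≤ Real.sqrt x * (2 * Real.sqrt x) := by
          apply mul_le_mul_of_nonneg_left _ hs0.le
          linarith
      _ = 2 * x := by linarith
  calc Real.log 4 * x / Real.log (Real.sqrt x) + Real.sqrt x ≤ 8 * x / L + 2 * x / L :=
        add_le_add h5 h6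
    _ = 10 * X / L * ((v : ℝ) ^ 2)⁻¹ := by
        rw [hx]
        field_simp
        ring

theorem count_main {P : ℕ → Prop} (hP : Cond P) :
    ∃ C : ℝ, 0 < C ∧ ∀ X : ℕ, 3 ≤ X →
      ({k : ℕ | k ≤ X ∧ 2 ≤ k ∧ ¬ k.Prime ∧ P k}.ncard : ℝ) ≤
        C * X / (Real.log X) ^ (3 / 2 : ℝ) := by
  refine ⟨2 * (2 ^ 15 + 2) ^ 2 + 108, by positivity, fun X hX => ?_⟩
  set L := Real.log X with hL
  have hX0 : (0 : ℝ) < X := by
    have : 0 < X := by omega
    exact_mod_cast this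
  have hL1 : 1 ≤ L := by
    rw [hL, Real.le_log_iff_exp_le hX0]
    have h1 : (3 : ℝ) ≤ X := by exact_mod_cast hX
    have h2 := Real.exp_one_lt_d9
    linarith
  have hL0 : 0 < L := by linarith
  have hs1 : 1 ≤ Real.sqrt L := by
    rw [show (1 : ℝ) = Real.sqrt 1 by simp]
    exact Real.sqrt_le_sqrt hL1
  have hsL : Real.sqrt L ≤ L := by
    have h1 := Real.mul_self_sqrt hL0.le
    nlinarith
  rw [rpow_three_half hL0]
  set l := Nat.log 2 X with hl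
  have hXl : 2 ^ l ≤ X := Nat.pow_log_le_self 2 (by omega)
  have hXl' : X < 2 ^ (l + 1) := Nat.lt_pow_succ_log_self (by norm_num) X
  have hLl : L ≤ l + 1 := by
    have h1 : (X : ℝ) ≤ 2 ^ (l + 1) := by exact_mod_cast hXl'.le
    have h2 : L ≤ Real.log (2 ^ (l + 1)) := Real.log_le_log hX0 h1
    rw [Real.log_pow] at h2
    push_cast at h2
    have h3 := Real.log_two_lt_d9
    have h4 : ((l : ℝ) + 1) * Real.log 2 ≤ (l + 1) * 1 :=
      mul_le_mul_of_nonneg_left (by linarith) (by positivity)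
    linarith
  by_cases hbig : 2 ^ 15 < l
  · obtain ⟨D, y, j, V, hy, hK1, hK2, hKV, hD, hj, hW, hV, hll⟩ := params hbig
    have key := count_bound hP (X := X) hy hK1 hK2 hKV
    rw [← hL] at key
    have hl0 : (0 : ℝ) < l := by
      have : 0 < l := by omega
      exact_mod_cast this
    have hl1 : (1 : ℝ) ≤ l := by
      have : 1 ≤ l := by omega
      exact_mod_cast this
    have hLl2 : L ≤ 2 * l := by linarith
    have hl2 : (0 : ℝ) < (l : ℝ) ^ 2 := by positivity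
    have hlL : L ^ 2 ≤ 4 * (l : ℝ) ^ 2 := by nlinarith
    -- the first term
    have t0 : (((2 ^ (l / 2) : ℕ) : ℝ) + 1) ≤ 2 * X / (l : ℝ) ^ 2 := by
      rw [le_div_iff₀ hl2]
      push_cast
      have h1 : (l : ℝ) ^ 2 ≤ 2 ^ (l / 2) := by exact_mod_cast hll
      have h2 : (2 : ℝ) ^ (l / 2) * 2 ^ (l / 2) ≤ X := by
        rw [← pow_add]
        have h3 : 2 ^ (l / 2 + l / 2) ≤ X := (Nat.pow_le_pow_right (by norm_num) (by omega)).trans hXl
        exact_mod_cast h3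
      have h4 : (1 : ℝ) ≤ 2 ^ (l / 2) := one_le_pow₀ (by norm_num)
      calc ((2 : ℝ) ^ (l / 2) + 1) * (l : ℝ) ^ 2 ≤ (2 * 2 ^ (l / 2)) * 2 ^ (l / 2) := by
            apply mul_le_mul (by linarith) h1 hl2.le (by positivity)
        _ = 2 * (2 ^ (l / 2) * 2 ^ (l / 2)) := by ring
        _ ≤ 2 * X := by linarith
    have t1 : (X : ℝ) * (2 / (D + 1)) ≤ 2 * X / (l : ℝ) ^ 2 := by
      have h1 : (l : ℝ) ^ 2 ≤ D + 1 := by
        have : (l : ℝ) ^ 2 ≤ D := by exact_mod_cast hD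
        linarith
      have h2 : (2 : ℝ) / (D + 1) ≤ 2 / (l : ℝ) ^ 2 := div_le_div_of_nonneg_left (by norm_num) hl2 h1
      calc (X : ℝ) * (2 / (D + 1)) ≤ X * (2 / (l : ℝ) ^ 2) := mul_le_mul_of_nonneg_left h2 hX0.le
        _ = 2 * X / (l : ℝ) ^ 2 := by ring
    have t2 : (X : ℝ) * (1 + L) / 2 ^ j ≤ 3 * X / (l : ℝ) ^ 2 := by
      have h1 : (l : ℝ) ^ 4 ≤ 2 ^ j := by exact_mod_cast hj
      rw [div_le_div_iff₀ (by positivity) hl2]
      have h2 : (1 + L) * (l : ℝ) ^ 2 ≤ 3 * (l : ℝ) ^ 4 := by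
        have h3 : 1 + L ≤ 3 * l := by linarith
        have h4 : (l : ℝ) ≤ (l : ℝ) ^ 2 := by nlinarith
        calc (1 + L) * (l : ℝ) ^ 2 ≤ (3 * l) * (l : ℝ) ^ 2 := mul_le_mul_of_nonneg_right h3 hl2.le
          _ ≤ (3 * (l : ℝ) ^ 2) * (l : ℝ) ^ 2 := by
              apply mul_le_mul_of_nonneg_right _ hl2.le
              linarith
          _ = 3 * (l : ℝ) ^ 4 := by ring
      calc (X : ℝ) * (1 + L) * (l : ℝ) ^ 2 = X * ((1 + L) * (l : ℝ) ^ 2) := by ring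
        _ ≤ X * (3 * (l : ℝ) ^ 4) := mul_le_mul_of_nonneg_left h2 hX0.le
        _ ≤ X * (3 * 2 ^ j) := by
            apply mul_le_mul_of_nonneg_left _ hX0.le
            linarith
        _ = 3 * X * 2 ^ j := by ring
    have t3 : ∑ v ∈ Ioo V (2 * D ^ 9 + 1), (Nat.primeCounting (X / v ^ 2) : ℝ) ≤
        80 * X / (L * Real.sqrt L) := by
      have h1 : ∀ v ∈ Ioo V (2 * D ^ 9 + 1), (Nat.primeCounting (X / v ^ 2) : ℝ) ≤
          10 * X / L * ((v : ℝ) ^ 2)⁻¹ := by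
        intro v hv
        rw [mem_Ioo] at hv
        refine prime_term hL hLl2 hbig hXl (by omega) ?_ hll hL1
        calc v ^ 2 ≤ (2 * D ^ 9) ^ 2 := Nat.pow_le_pow_left (by omega) 2
          _ ≤ 2 ^ (l / 2) := hW
      refine (sum_le_sum h1).trans ?_
      rw [← mul_sum]
      have h2 := sum_Ioo_inv_sq_le (α := ℝ) V (2 * D ^ 9 + 1)
      have h3 : Real.sqrt L / 4 ≤ (V : ℝ) + 1 := by
        have h4 : (l : ℝ) ≤ 6 * ((V : ℝ) + 1) ^ 2 := by exact_mod_cast hV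
        have h5 : L ≤ (4 * ((V : ℝ) + 1)) ^ 2 := by nlinarith
        have h6 := Real.sqrt_le_sqrt h5
        rw [Real.sqrt_sq (by positivity)] at h6
        linarith
      have h7 : (2 : ℝ) / (V + 1) ≤ 8 / Real.sqrt L := by
        rw [div_le_div_iff₀ (by positivity) (by linarith)]
        linarith
      calc 10 * X / L * ∑ v ∈ Ioo V (2 * D ^ 9 + 1), ((v : ℝ) ^ 2)⁻¹
          ≤ 10 * X / L * (8 / Real.sqrt L) := by
            apply mul_le_mul_of_nonneg_left (h2.trans h7)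
            positivity
        _ = 80 * X / (L * Real.sqrt L) := by
            field_simp
            ring
    have hfin : (7 : ℝ) * X / (l : ℝ) ^ 2 ≤ 28 * X / (L * Real.sqrt L) := by
      rw [div_le_div_iff₀ hl2 (by positivity)]
      have h1 : L * Real.sqrt L ≤ L * L := mul_le_mul_of_nonneg_left hsL hL0.le
      have h2 : L * Real.sqrt L ≤ 4 * (l : ℝ) ^ 2 := by nlinarith
      calc 7 * (X : ℝ) * (L * Real.sqrt L) ≤ 7 * X * (4 * (l : ℝ) ^ 2) :=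
            mul_le_mul_of_nonneg_left h2 (by positivity)
        _ = 28 * X * (l : ℝ) ^ 2 := by ring
    have hsum : 2 * (X : ℝ) / (l : ℝ) ^ 2 + 2 * X / (l : ℝ) ^ 2 + 3 * X / (l : ℝ) ^ 2 =
        7 * X / (l : ℝ) ^ 2 := by ring
    have hlast : 28 * (X : ℝ) / (L * Real.sqrt L) + 80 * X / (L * Real.sqrt L) ≤
        (2 * (2 ^ 15 + 2) ^ 2 + 108) * X / (L * Real.sqrt L) := by
      rw [← add_div]
      apply div_le_div_of_nonneg_right _ (by positivity)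
      nlinarith
    linarith
  · push Not at hbig
    have h1 : ({k : ℕ | k ≤ X ∧ 2 ≤ k ∧ ¬ k.Prime ∧ P k}.ncard : ℝ) ≤ 2 * X := by
      have h2 : {k : ℕ | k ≤ X ∧ 2 ≤ k ∧ ¬ k.Prime ∧ P k} ⊆ ((range (X + 1) : Finset ℕ) : Set ℕ) := by
        rintro k ⟨hk, -⟩
        rw [mem_coe, mem_range]
        omega
      have h3 := Set.ncard_le_ncard h2 (finite_toSet _)
      rw [Set.ncard_coe_finset, card_range] at h3
      have h4 : {k : ℕ | k ≤ X ∧ 2 ≤ k ∧ ¬ k.Prime ∧ P k}.ncard ≤ 2 * X := by omega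
      exact_mod_cast h4
    refine h1.trans ?_
    rw [le_div_iff₀ (by positivity)]
    have h5 : L ≤ 2 ^ 15 + 2 := by
      have : (l : ℝ) ≤ 2 ^ 15 := by exact_mod_cast hbig
      linarith
    have h6 : L * Real.sqrt L ≤ (2 ^ 15 + 2) ^ 2 := by
      calc L * Real.sqrt L ≤ L * L := mul_le_mul_of_nonneg_left hsL hL0.le
        _ ≤ (2 ^ 15 + 2) * (2 ^ 15 + 2) := mul_le_mul h5 h5 hL0.le (by positivity)
        _ = (2 ^ 15 + 2) ^ 2 := by ring
    calc 2 * (X : ℝ) * (L * Real.sqrt L) ≤ 2 * X * (2 ^ 15 + 2) ^ 2 :=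
          mul_le_mul_of_nonneg_left h6 (by positivity)
      _ ≤ (2 * (2 ^ 15 + 2) ^ 2 + 108) * X := by nlinarith

end Pool.Agent.Helper31K9.RNG
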