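import Pool.Agent.Helper31K9.RNG.StF

set_option autoImplicit false

/-!
# [FRE] A line through a point with a small stabilizer in a subgroup
-/

namespace Pool.Agent.Helper31K9.RNG

open Finset
open scoped Pointwise
open Pool.Agent.R116.AF (Aff)

theorem fre : S_FRE := by
  intro V _ _ k B G _ _ _ _ h _ hr x0 m H hm hmk hH
  classical
  by_contra hcon
  push Not at hcon
  have hdeg := h.deg x0
  obtain ⟨t, ht⟩ : ∃ t : Finset V → Finset G, t = fun L =>
      (univ.filter (fun g => g ∈ (MulAction.stabilizer G L ⊓ H : Subgroup G))).erase 1 := ⟨_, rfl⟩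
  have hsize : ∀ L ∈ B.filter (fun L => x0 ∈ L), m - 1 ≤ (t L).card := by
    intro L hL
    rw [mem_filter] at hL
    have h1 := hcon L hL.1 hL.2
    have h2 : (univ.filter (fun g => g ∈ (MulAction.stabilizer G L ⊓ H : Subgroup G))).card =
        Nat.card (MulAction.stabilizer G L ⊓ H : Subgroup G) := by
      rw [Nat.card_eq_fintype_card, Fintype.card_subtype]
    have h3 : (t L).card = Nat.card (MulAction.stabilizer G L ⊓ H : Subgroup G) - 1 := by
      rw [← h2, ht]
      exact card_erase_of_mem (mem_filter.2 ⟨mem_univ _, Subgroup.one_mem _⟩)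
    omega
  have hdis : ∀ L ∈ B.filter (fun L => x0 ∈ L), ∀ L' ∈ B.filter (fun L => x0 ∈ L), L ≠ L' →
      Disjoint (t L) (t L') := by
    intro L hL L' hL' hne
    rw [mem_filter] at hL hL'
    rw [Finset.disjoint_left]
    intro g hg hg'
    rw [ht] at hg hg'
    simp only [mem_erase, mem_filter, mem_univ, true_and] at hg hg'
    have h2 : g • L = L := MulAction.mem_stabilizer_iff.1 (Subgroup.mem_inf.1 hg.2).1
    have h3 : g • L' = L' := MulAction.mem_stabilizer_iff.1 (Subgroup.mem_inf.1 hg'.2).1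
    have h4 : g • x0 ∈ g • L := smul_mem_smul_finset hL.2
    rw [h2] at h4
    have h5 : g • x0 ∈ g • L' := smul_mem_smul_finset hL'.2
    rw [h3] at h5
    have h6 : g • x0 = x0 := h.inter hL.1 hL'.1 hne h4 h5 hL.2 hL'.2
    exact hg.1 (hr.fr g x0 h6)
  have hsub : (B.filter (fun L => x0 ∈ L)).biUnion t ⊆ (univ.filter (fun g => g ∈ H)).erase 1 := by
    intro g hg
    rw [mem_biUnion] at hg
    obtain ⟨L, _, hg⟩ := hg
    rw [ht] at hg
    simp only [mem_erase, mem_filter, mem_univ, true_and] at hg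
    rw [mem_erase, mem_filter]
    exact ⟨hg.1, mem_univ _, (Subgroup.mem_inf.1 hg.2).2⟩
  have hcH : ((univ.filter (fun g => g ∈ H)).erase 1).card = m ^ 2 - 1 := by
    rw [card_erase_of_mem (mem_filter.2 ⟨mem_univ _, H.one_mem⟩), ← hH, Nat.card_eq_fintype_card,
      Fintype.card_subtype]
  have h7 := card_le_card hsub
  rw [hcH, card_biUnion hdis] at h7
  have h8 : (B.filter (fun L => x0 ∈ L)).card * (m - 1) ≤
      ∑ L ∈ B.filter (fun L => x0 ∈ L), (t L).card := by
    rw [← smul_eq_mul]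
    exact card_nsmul_le_sum _ _ _ hsize
  rw [hdeg] at h8
  have h9 := h8.trans h7
  obtain ⟨a, rfl⟩ : ∃ a, m = a + 2 := ⟨m - 2, by omega⟩
  have h10 : (a + 2) ^ 2 - 1 = (a + 3) * (a + 1) := by
    have : (a + 2) ^ 2 = (a + 3) * (a + 1) + 1 := by ring
    omega
  rw [h10] at h9
  have h11 : (a + 2 - 1) = a + 1 := by omega
  rw [h11] at h9
  have h12 := Nat.le_of_mul_le_mul_right h9 (by omega : 0 < a + 1)
  omega

end Pool.Agent.Helper31K9.RNG
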