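import Pool.Agent.Helper31K9.RNG.PlaneB

set_option autoImplicit false

/-!
# Arbitrary regular groups: statements
-/

namespace Pool.Agent.Helper31K9.RNG

open Finset
open scoped Pointwise
open Pool.Agent.R116.AF (Aff par par_refl NN mem_NN stab_le count_NN Dset orb mem_orb card_pairs)

/-- the exceptional case -/
def Exc (p M : ℕ) : Prop := ∃ u v : ℕ, M = (u * v) ^ 2 ∧ 2 ≤ v ∧ p ≤ 4 ^ (v ^ 2) ∧
  ∀ q : ℕ, q.Prime → q ∣ v → Odd (orderOf (q : ZMod p)) ∧ orderOf (q : ZMod p) ≤ v ^ 4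

/-- [GRF] helper31 -/
def S_GRF : Prop := ∀ (p : ℕ) (_ : Fact p.Prime), p ≠ 2 → ∀ m h : ℕ, 2 ≤ m → 0 < h → h < m →
  4 * (m * h) ^ 2 < p → ∀ d : ZMod p → ZMod p → ℤ, (∀ α, ∑ β, d α β = m) →
  (∀ u z, ∑ α, ∑ β, d α β * d (α + u) (β + z) =
    (if u = 0 ∧ z = 0 then (m : ℤ) * h * p else 0) - (if u = 0 then (m : ℤ) * h else 0) +
      (m : ℤ) ^ 2) → Exc p (m * h)

/-- [SYF] As `sylow_part` in `RNG/PlaneD.lean` (`S = ⊥`, `h = 1`). `Nat.card S` is `1` or `p`.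
If it is `p`, then `N = ⊤`, `corr d σ = corr d 1` for `σ ∈ S`, so `∑ y, (d (σ y) - d y) ^ 2 = 0` and
`d` is constant on the cosets of `S`, hence `p ∣ corr d x = m ^ 2 - m h` for `x ∉ S`
(`Subgroup.groupEquivQuotientProdSubgroup`), impossible as `0 < m (m - h) < p ^ 2`, `m < p`. If
`S = ⊥` and `A` is elementary abelian: `coords` and `S_GRF` (`coset_sum` for the column sums). If
`S = ⊥` and `A` is cyclic: `abs_gen` with `s = p`, `a = 1`, `τ = p` gives
`p * p ≤ h ^ 2 * 0 + h * m * 0 + m ^ 2 * p`, contradiction. -/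
def S_SYF : Prop := S_GRF → ∀ (A : Type) (_ : CommGroup A) (_ : Fintype A) (_ : DecidableEq A)
  (p m h : ℕ), p.Prime → p ≠ 2 → 2 ≤ m → 0 < h → h < m → 4 * (m * h) ^ 2 < p →
  Nat.card A = p ^ 2 → ∀ S N : Subgroup A, S ≤ N → Nat.card N = Nat.card S * p → ∀ d : A → ℤ,
  ∑ y, d y = (m : ℤ) * p →
  (∀ x, corr d x = m * p * h * ind S x - m * h * ind N x + m ^ 2) → Exc p (m * h)

/-- [BUR] Burnside's normal complement (`MonoidHom.ker_transferSylow_isComplement'`): let `P` be a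
Sylow `p`-subgroup, `card P = p ^ 2`, commutative. `P.normalizer ≤ centralizer P`: otherwise the
image of the normalizer in `MulAut P` has an element `τ` of prime order `q`; the kernel contains
`P`, so `q ∣ m`; the fixed points of `τ` in `P` form a subgroup `F` with
`card F = p ^ 2 mod q` (`IsPGroup.card_modEq_card_fixedPoints`), `card F ∈ {1, p, p ^ 2}`,
`q ∤ p ^ 2 - 1`, `q ∤ p (p - 1)`, so `F = P` and `τ = 1`. `H` is the kernel of the transfer. -/
def S_BUR : Prop := ∀ (G : Type) (_ : Group G) (_ : Finite G) (p m : ℕ), p.Prime → ¬ p ∣ m →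
  m.Coprime (p ^ 2 - 1) → Nat.card G = (m * p) ^ 2 →
  ∃ (H : Subgroup G) (_ : H.Normal), Nat.card (G ⧸ H) = p ^ 2 ∧
    ∀ x y : G, (y * x)⁻¹ * (x * y) ∈ H

/-- [FRE] As `card_bad_sub` in `RNG/PlaneD.lean`: the sets `(stabilizer L ⊓ H) \ {1}` for the
`k + 1` lines `L` through `x0` are disjoint (`Aff.inter`, `Reg.fr`) subsets of `H \ {1}`; if all
had at least `m - 1` elements, then `(k + 1) (m - 1) ≤ m ^ 2 - 1`, so `k ≤ m`. -/
def S_FRE : Prop := ∀ (V : Type) (_ : Fintype V) (_ : DecidableEq V) (k : ℕ)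
  (B : Finset (Finset V)) (G : Type) (_ : Group G) (_ : Fintype G) (_ : DecidableEq G)
  (_ : MulAction G V), Aff k B → (∀ (g : G), ∀ b ∈ B, g • b ∈ B) → Reg G V → ∀ (x0 : V) (m : ℕ)
  (H : Subgroup G), 2 ≤ m → m < k → Nat.card H = m ^ 2 →
  ∃ L ∈ B, x0 ∈ L ∧ Nat.card (MulAction.stabilizer G L ⊓ H : Subgroup G) < m

end Pool.Agent.Helper31K9.RNG
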