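import Pool.Agent.Helper31K9.RNG.QC
import Pool.Agent.Helper31K9.RNG.Cn4
import Pool.Agent.Helper31K9.RNG.StF

set_option autoImplicit false
set_option linter.unusedSectionVars false
set_option linter.unusedVariables false

/-!
# [GRF]
-/

namespace Pool.Agent.Helper31K9.RNG

open Finset

section
variable {p : ℕ} [Fact p.Prime]

theorem ex_coM (d : ZMod p → ZMod p → ℤ) (m M : ℤ) (hcol : ∀ α, ∑ β, d α β = m)
    (hcorr : ∀ u z, ∑ α, ∑ β, d α β * d (α + u) (β + z) =
      (if u = 0 ∧ z = 0 then M * p else 0) - (if u = 0 then M else 0) + m ^ 2) (s z : ZMod p) :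
    co (ex d m s) z = (if z = 0 then M * p else 0) - M := by
  set f : ZMod p → ℤ := fun j => ∑ α, d α (s * α + j) with hf
  have hfs : ∑ j, f j = m * p := by
    have h1 := ex_sum d m hcol s
    unfold ex at h1
    rw [sum_sub_distrib, sum_const, card_univ, ZMod.card, nsmul_eq_mul] at h1
    rw [hf]
    linarith
  have hff : ∑ j, f j * f (j + z) = (if z = 0 then M * p else 0) - M + p * m ^ 2 := by
    have h1 : ∀ j, f j * f (j + z) =
        ∑ u, ∑ α, d α (s * α + j) * d (α + u) ((s * α + j) + (s * u + z)) := by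
      intro j
      rw [hf]
      simp only
      rw [sum_mul_sum]
      have e1 : ∀ α : ZMod p, ∑ α', d α (s * α + j) * d α' (s * α' + (j + z)) =
          ∑ u, d α (s * α + j) * d (α + u) ((s * α + j) + (s * u + z)) := by
        intro α
        refine (Fintype.sum_equiv (Equiv.addLeft α) _ _ fun u => ?_).symm
        simp only [Equiv.coe_addLeft]
        congr 2
        ring
      rw [sum_congr rfl fun α _ => e1 α, sum_comm]
    rw [sum_congr rfl fun j _ => h1 j, sum_comm]
    have h2 : ∀ u : ZMod p, ∑ j, ∑ α, d α (s * α + j) * d (α + u) ((s * α + j) + (s * u + z)) =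
        (if u = 0 then ((if z = 0 then M * p else 0) - M) else 0) + m ^ 2 := by
      intro u
      rw [sum_comm]
      have e2 : ∀ α : ZMod p, ∑ j, d α (s * α + j) * d (α + u) ((s * α + j) + (s * u + z)) =
          ∑ β, d α β * d (α + u) (β + (s * u + z)) := by
        intro α
        exact Fintype.sum_equiv (Equiv.addLeft (s * α)) _ _ fun j => rfl
      rw [sum_congr rfl fun α _ => e2 α, hcorr]
      by_cases hu : u = 0
      · subst hu
        simp
      · simp [hu]
    rw [sum_congr rfl fun u _ => h2 u, sum_add_distrib, sum_ite_eq', if_pos (mem_univ _), sum_const,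
      card_univ, ZMod.card, nsmul_eq_mul]
  unfold co
  have h3 : ∀ j, ex d m s j * ex d m s (j + z) = f j * f (j + z) - m * f j - m * f (j + z) + m ^ 2 := by
    intro j
    unfold ex
    rw [hf]
    ring
  rw [sum_congr rfl fun j _ => h3 j, sum_add_distrib, sum_sub_distrib, sum_sub_distrib, hff,
    ← mul_sum, ← mul_sum, hfs, sum_const, card_univ, ZMod.card, nsmul_eq_mul]
  have h4 : ∑ j, f (j + z) = m * p := by
    rw [← hfs]
    exact Fintype.sum_equiv (Equiv.addRight z) _ _ fun x => rfl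
  rw [h4]
  ring

end

theorem grf (hd : S_DVQ) : S_GRF := by
  intro p hpF hp2 m h hm hh hhm hpm d hcol hcorr
  have hp : p.Prime := hpF.out
  set M : ℕ := m * h with hM
  have hM2 : 2 ≤ M := by
    rw [hM]
    nlinarith
  have hM' : (2 : ℤ) ≤ M := by exact_mod_cast hM2
  have hpm' : 4 * (M : ℤ) ^ 2 < p := by exact_mod_cast hpm
  have hcast : (m : ℤ) * h = (M : ℤ) := by rw [hM]; push_cast; ring
  have hcorr' : ∀ u z, ∑ α, ∑ β, d α β * d (α + u) (β + z) =
      (if u = 0 ∧ z = 0 then (M : ℤ) * p else 0) - (if u = 0 then (M : ℤ) else 0) +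
        (m : ℤ) ^ 2 := by
    intro u z
    rw [hcorr, hcast]
  have hMp : M < p := by nlinarith
  have key := fun s => leg_main hp2 (M : ℤ) hM' hpm' (ex d m s) (ex_sum d m hcol s)
    (ex_coM d m M hcol hcorr' s)
  have hsq : IsSquare M := by
    obtain ⟨b, hb, -⟩ := key 0
    have : IsSquare (M : ℤ) := ⟨∑ x, b x, by rw [← hb]; ring⟩
    exact_mod_cast this
  obtain ⟨v, hv⟩ := hsq
  by_cases hall : ∀ s : ZMod p, ∃ b : ZMod p → ℤ, (∑ x, b x) ^ 2 = (M : ℤ) ∧ ∑ x, b x ^ 2 = (M : ℤ) ∧
      (∀ z, z ≠ 0 → co b z = 0) ∧ (∀ y, ex d m s y = ∑ x, b x * lam (y - x)) ∧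
      ∃ j, ∀ x, x ≠ j → b x = 0
  swap
  · push Not at hall
    obtain ⟨s, hs⟩ := hall
    obtain ⟨b, hb1, hb2, hb3, hb4⟩ := key s
    rcases cn4 hd p inferInstance M hMp b hb2 hb3 with ⟨j, hj⟩ | ⟨u, m', h1, h2, h3, h4⟩
    · obtain ⟨x, hx, hbx⟩ := hs b hb1 hb2 hb3 hb4 j
      exact absurd (hj x hx) hbx
    · have hu0 : u ≠ 0 := by
        rintro rfl
        simp at h1
        omega
      have h5 : IsSquare m' := by
        have h6 : u ^ 2 ∣ v ^ 2 := ⟨m', by rw [sq v, ← hv, h1]⟩
        have h7 : u ∣ v := (Nat.pow_dvd_pow_iff (by norm_num)).1 h6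
        obtain ⟨w, hw⟩ := h7
        refine ⟨w, ?_⟩
        have h8 : u ^ 2 * m' = u ^ 2 * (w * w) := by
          rw [← h1, hv, hw]
          ring
        exact Nat.eq_of_mul_eq_mul_left (by positivity) h8
      obtain ⟨w, hw⟩ := h5
      refine ⟨u, w, ?_, ?_, ?_, ?_⟩
      · rw [h1, hw]
        ring
      · by_contra hlt
        push Not at hlt
        interval_cases w <;> omega
      · rw [sq w, ← hw]
        exact h3
      · intro q hq hqw
        obtain ⟨h10, h9⟩ := h4 q hq (hw ▸ Dvd.dvd.mul_right hqw w)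
        rw [hw] at h9
        refine ⟨h10, ?_⟩
        calc orderOf (q : ZMod p) ≤ (w * w) ^ 2 := h9
          _ = w ^ 4 := by ring
  exfalso
  have hdv : ∀ s j, (v : ℤ) ∣ ex d m s j := by
    intro s j
    obtain ⟨b, hb1, hb2, hb3, hb4, j0, hj0⟩ := hall s
    rw [hb4 j]
    have h1 : ∑ x, b x ^ 2 = b j0 ^ 2 := by
      rw [sum_eq_single j0]
      · intro x _ hx
        rw [hj0 x hx]
        norm_num
      · intro h
        exact absurd (mem_univ _) h
    rw [h1, hv] at hb2
    have h2 : (v : ℤ) ∣ b j0 := by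
      have h3 : b j0 ^ 2 = (v : ℤ) ^ 2 := by
        rw [hb2]
        push_cast
        ring
      rcases sq_eq_sq_iff_eq_or_eq_neg.1 h3 with h | h
      · rw [h]
      · rw [h]
        exact (dvd_refl _).neg_right
    refine dvd_sum fun x _ => ?_
    by_cases hx : x = j0
    · subst hx
      exact Dvd.dvd.mul_right h2 _
    · rw [hj0 x hx, zero_mul]
      exact dvd_zero _
  have hv0 : 2 ≤ v := by
    by_contra h
    push Not at h
    interval_cases v <;> omega
  have hvM : v ≤ M := by nlinarith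
  have hcop : IsCoprime (v : ℤ) (p : ℤ) := by
    rw [Nat.isCoprime_iff_coprime]
    apply Nat.Coprime.symm
    rw [Nat.Prime.coprime_iff_not_dvd hp]
    intro h
    have h1 := Nat.le_of_dvd (by omega) h
    omega
  have hp0 : (0 : ℤ) < p := by exact_mod_cast hp.pos
  have hpd : ∀ α β, (v : ℤ) ∣ p * d α β - m := by
    intro α β
    rw [ex_inv d m hcol α β, add_sub_cancel_left]
    exact dvd_sum fun s _ => hdv s _
  have h0 := hcorr' 0 0
  simp only [add_zero, and_self, if_true] at h0
  -- a zero entry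
  have hmM : m ≤ M := by
    rw [hM]
    exact Nat.le_mul_of_pos_right m hh
  have hzero : ∃ α β, d α β = 0 := by
    by_contra hcon
    push Not at hcon
    have h1 : ∀ α β, (1 : ℤ) ≤ d α β * d α β := by
      intro α β
      have := mul_self_pos.2 (hcon α β)
      omega
    have h2 : ((p : ℤ) * p) ≤ ∑ α, ∑ β, d α β * d α β := by
      calc ((p : ℤ) * p) = ∑ α : ZMod p, ∑ β : ZMod p, (1 : ℤ) := by
            simp [ZMod.card]
        _ ≤ _ := sum_le_sum fun α _ => sum_le_sum fun β _ => h1 α β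
    rw [h0] at h2
    have h3 : (m : ℤ) ≤ M := by exact_mod_cast hmM
    nlinarith
  obtain ⟨α0, β0, hz⟩ := hzero
  have hvm : (v : ℤ) ∣ m := by
    have := hpd α0 β0
    rw [hz, mul_zero, zero_sub] at this
    exact (dvd_neg).1 this
  have hdd : ∀ α β, (v : ℤ) ∣ d α β := by
    intro α β
    have h2 : (v : ℤ) ∣ p * d α β := by
      have h1 := dvd_add (hpd α β) hvm
      rwa [sub_add_cancel] at h1
    exact hcop.dvd_of_dvd_mul_left h2
  have h1 : ∀ α β, (v : ℤ) * d α β ≤ d α β * d α β := by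
    intro α β
    obtain ⟨c, hc⟩ := hdd α β
    rw [hc]
    have h2 : c ≤ c * c := by
      have := Int.le_self_sq c
      rwa [sq] at this
    have h3 := mul_le_mul_of_nonneg_left h2 (show (0 : ℤ) ≤ (v : ℤ) * v by positivity)
    linarith
  have h2 : (v : ℤ) * (m * p) ≤ ∑ α, ∑ β, d α β * d α β := by
    have h3 : ∑ α, ∑ β, (v : ℤ) * d α β = v * (m * p) := by
      simp only [← mul_sum, hcol, sum_const, card_univ, ZMod.card, nsmul_eq_mul]
      ring
    rw [← h3]
    exact sum_le_sum fun α _ => sum_le_sum fun β _ => h1 α β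
  rw [h0] at h2
  have hvM2 : (M : ℤ) = v * v := by exact_mod_cast hv
  have hvm' : (v : ℤ) < m := by
    have h3 : v * v < m * m := by
      rw [← hv, hM]
      exact Nat.mul_lt_mul_of_pos_left hhm (by omega)
    have h4 : v < m := by
      by_contra hcon
      push Not at hcon
      have := Nat.mul_le_mul hcon hcon
      omega
    exact_mod_cast h4
  rw [hvM2] at h2
  have hv2 : (2 : ℤ) ≤ v := by exact_mod_cast hv0
  have h5 : (v : ℤ) * p * (m - v) ≤ (m - v) * (m + v) := by nlinarith
  have h6 : (v : ℤ) * p ≤ m + v := by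
    have h7 : (m - v : ℤ) * (v * p) ≤ (m - v) * (m + v) := by linarith
    exact le_of_mul_le_mul_left h7 (by linarith)
  have h8 : (m : ℤ) ≤ M := by exact_mod_cast hmM
  nlinarith

end Pool.Agent.Helper31K9.RNG
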