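import Pool.Agent.Helper31K9.RNG.PlaneC

set_option autoImplicit false
set_option linter.unusedSectionVars false

/-!
# The desarguesian planes
-/

namespace Pool.Agent.Helper31K9.RNG

open Finset
open Pool.Agent.R116.AF (IsSteiner)

section
variable {K : Type} [Field K] [Fintype K] [DecidableEq K] {N : ℕ} (e : K × K ≃ Fin N)

/-- the lines of the affine plane over `K`, transported to `Fin N` -/
def lineF (u d : K × K) : Finset (Fin N) := univ.image (fun s : K => e (u + s • d))

/-- translations -/
def trF : Multiplicative (K × K) →* Equiv.Perm (Fin N) where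
  toFun w := (e.symm.trans (Equiv.addLeft w.toAdd)).trans e
  map_one' := by ext x; simp
  map_mul' a b := by ext x; simp

theorem trF_apply (w : K × K) (x : Fin N) :
    trF e (Multiplicative.ofAdd w) x = e (w + e.symm x) := rfl

theorem mem_lineF {u d : K × K} {x : Fin N} :
    x ∈ lineF e u d ↔ ∃ s : K, u + s • d = e.symm x := by
  unfold lineF
  rw [mem_image]
  constructor
  · rintro ⟨s, -, hs⟩
    exact ⟨s, by rw [← hs, Equiv.symm_apply_apply]⟩
  · rintro ⟨s, hs⟩
    exact ⟨s, mem_univ _, by rw [hs, Equiv.apply_symm_apply]⟩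

theorem card_lineF {u d : K × K} (hd : d ≠ 0) : (lineF e u d).card = Fintype.card K := by
  unfold lineF
  rw [card_image_of_injective, card_univ]
  intro s t hst
  have h1 := add_left_cancel (e.injective hst)
  exact smul_left_injective K hd h1

theorem lineF_eq {u d u' d' : K × K} (hd : d ≠ 0) {a b : K}
    (ha : u' + a • d' = u) (hb : u' + b • d' = u + d) : lineF e u' d' = lineF e u d := by
  have hdd : d = (b - a) • d' := by
    rw [sub_smul]
    have : d = (u' + b • d') - (u' + a • d') := by rw [hb, ha]; abel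
    rw [this]; abel
  have hab : b - a ≠ 0 := by
    intro h0
    rw [h0, zero_smul] at hdd
    exact hd hdd
  ext x
  rw [mem_lineF, mem_lineF]
  constructor
  · rintro ⟨s, hs⟩
    refine ⟨(s - a) / (b - a), ?_⟩
    rw [← hs, ← ha, hdd, smul_smul, div_mul_cancel₀ _ hab, sub_smul]
    abel
  · rintro ⟨s, hs⟩
    refine ⟨a + s * (b - a), ?_⟩
    rw [← hs, ← ha, hdd, smul_smul, add_smul]
    abel

end

/-- every prime power is the order of an affine plane with a nilpotent regular group -/
theorem hasReg_primePow {k : ℕ} (hk : IsPrimePow k) : HasReg k 0 := by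
  classical
  obtain ⟨p, n, hp, hn, rfl⟩ := (isPrimePow_nat_iff _).1 hk
  have : Fact p.Prime := ⟨hp⟩
  let K := GaloisField p n
  let : Fintype K := Fintype.ofFinite K
  have hcK : Fintype.card K = p ^ n := by
    rw [← Nat.card_eq_fintype_card]
    exact GaloisField.card p n hn.ne'
  have hcV : Fintype.card (K × K) = (p ^ n) ^ 2 + 0 := by
    rw [Fintype.card_prod, hcK]; ring
  let e : K × K ≃ Fin ((p ^ n) ^ 2 + 0) := Fintype.equivFinOfCardEq hcV
  refine ⟨univ.filter (fun b => ∃ u d : K × K, d ≠ 0 ∧ b = lineF e u d), (trF e).range, ∅,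
    ⟨?_, ?_⟩, ?_, ?_, card_empty, ?_, ?_⟩
  · intro b hb
    rw [mem_filter] at hb
    obtain ⟨-, u, d, hd, rfl⟩ := hb
    rw [card_lineF e hd, hcK]
    rfl
  · intro T hT
    have hT2 : T.card = 2 := hT
    obtain ⟨x, y, hxy, rfl⟩ := card_eq_two.1 hT2
    have hd : e.symm y - e.symm x ≠ 0 := by
      rw [sub_ne_zero]
      exact fun h => hxy (e.symm.injective h).symm
    refine ⟨lineF e (e.symm x) (e.symm y - e.symm x), ⟨?_, ?_⟩, ?_⟩
    · rw [mem_filter]
      exact ⟨mem_univ _, _, _, hd, rfl⟩
    · intro z hz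
      rw [mem_insert, mem_singleton] at hz
      rw [mem_lineF]
      rcases hz with rfl | rfl
      · exact ⟨0, by rw [zero_smul, add_zero]⟩
      · exact ⟨1, by rw [one_smul]; abel⟩
    · rintro b ⟨hb, hTb⟩
      rw [mem_filter] at hb
      obtain ⟨-, u', d', hd', rfl⟩ := hb
      obtain ⟨a, ha⟩ := (mem_lineF e).1 (hTb (mem_insert_self _ _))
      obtain ⟨b, hb⟩ := (mem_lineF e).1 (hTb (mem_insert_of_mem (mem_singleton_self _)))
      exact lineF_eq e hd ha (by rw [hb]; abel)
  · exact Group.nilpotent_of_surjective (trF e).rangeRestrict (trF e).rangeRestrict_surjective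
  · rintro g ⟨w, rfl⟩ b hb
    rw [mem_filter] at hb ⊢
    obtain ⟨-, u, d, hd, rfl⟩ := hb
    refine ⟨mem_univ _, w.toAdd + u, d, hd, ?_⟩
    unfold lineF
    rw [image_image]
    refine image_congr ?_
    intro s _
    change e (w.toAdd + e.symm (e (u + s • d))) = e (w.toAdd + u + s • d)
    rw [Equiv.symm_apply_apply, add_assoc]
  · intro g _ x hx
    exact absurd hx (notMem_empty x)
  · intro x y _ _
    refine ⟨trF e (Multiplicative.ofAdd (e.symm y - e.symm x)), ⟨⟨_, rfl⟩, ?_⟩, ?_⟩
    · rw [trF_apply, sub_add_cancel, Equiv.apply_symm_apply]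
    · rintro g ⟨⟨w, rfl⟩, hg⟩
      have h1 : e (w.toAdd + e.symm x) = y := hg
      have h2 : w.toAdd = e.symm y - e.symm x := by
        rw [← h1, Equiv.symm_apply_apply]; abel
      rw [← h2]
      rfl

end Pool.Agent.Helper31K9.RNG
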