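import Pool.Agent.R116.AF.Der
import Pool.Agent.Helper31K9.RNG.AbsC

set_option autoImplicit false
set_option linter.unusedSectionVars false
set_option linter.unusedVariables false

/-!
# Affine planes with a group which is regular on the points
-/

namespace Pool.Agent.Helper31K9.RNG

open Finset
open scoped Pointwise
open Pool.Agent.R116.AF (Aff par par_refl NN mem_NN stab_le count_NN Dset orb mem_orb card_pairs)
open Pool.Agent.TH66.SG (num cor cor_num sum_num fib)

/-- a regular action -/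
structure Reg (G V : Type) [Group G] [MulAction G V] : Prop where
  tr : ∀ x y : V, ∃ g : G, g • x = y
  fr : ∀ (g : G) (x : V), g • x = x → g = 1

/-- the indicator function of a subgroup -/
noncomputable def jnd {G : Type} [Group G] (K : Subgroup G) (g : G) : ℤ := by
  classical
  exact if g ∈ K then 1 else 0

theorem jnd_of_mem {G : Type} [Group G] {K : Subgroup G} {g : G} (h : g ∈ K) : jnd K g = 1 := by
  unfold jnd
  rw [if_pos h]

theorem jnd_of_not {G : Type} [Group G] {K : Subgroup G} {g : G} (h : g ∉ K) : jnd K g = 0 := by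
  unfold jnd
  rw [if_neg h]

theorem sum_jnd {G : Type} [Group G] [Fintype G] (K : Subgroup G) :
    ∑ g, jnd K g = Nat.card K := by
  classical
  unfold jnd
  rw [Finset.sum_boole, Nat.card_eq_fintype_card, Fintype.card_subtype]

section
variable {V : Type} [Fintype V] [DecidableEq V] {k : ℕ} {B : Finset (Finset V)}
variable {G : Type} [Group G] [Fintype G] [DecidableEq G] [MulAction G V]

theorem Reg.inj (hr : Reg G V) {a b : G} {x : V} (e : a • x = b • x) : a = b := by
  have h2 : (b⁻¹ * a) • x = x := by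
    rw [mul_smul, e, inv_smul_smul]
  have h3 := hr.fr _ x h2
  rw [inv_mul_eq_one] at h3
  exact h3.symm

theorem card_reg (h : Aff k B) (hr : Reg G V) (x0 : V) : Nat.card G = k ^ 2 := by
  rw [← h.card, Nat.card_eq_fintype_card]
  refine Fintype.card_of_bijective (f := fun g : G => g • x0) ⟨fun a b e => hr.inj e, fun y => ?_⟩
  exact hr.tr x0 y

theorem card_move (h : Aff k B) (hr : Reg G V) {L : Finset V} (hL : L ∈ B) (y : V) :
    (univ.filter (fun g : G => g • y ∈ L)).card = k := by
  rw [← h.size L hL]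
  refine card_bij (fun g _ => g • y) ?_ ?_ ?_
  · intro g hg
    exact (mem_filter.1 hg).2
  · intro a _ b _ e
    exact hr.inj e
  · intro z hz
    obtain ⟨g, hg⟩ := hr.tr y z
    exact ⟨g, mem_filter.2 ⟨mem_univ _, by rw [hg]; exact hz⟩, hg⟩

theorem card_NN (h : Aff k B) (hinv : ∀ (g : G), ∀ b ∈ B, g • b ∈ B) (hr : Reg G V)
    {L : Finset V} (hL : L ∈ B) (x0 : V) :
    Nat.card (NN h hinv L hL) = k * Nat.card (MulAction.stabilizer G L) := by
  have h1 := count_NN h hinv hL
  rw [sum_congr rfl fun y _ => card_move h hr hL y, sum_const, smul_eq_mul, h.size L hL,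
    card_reg h hr x0] at h1
  have : k ^ 2 = k * k := pow_two k
  omega

/-- the number of elements of `K` above `x` -/
theorem cnt_sub {A : Type} [CommGroup A] [Fintype A] [DecidableEq A] (φ : G →* A)
    (K : Subgroup G) (x : A) :
    (∑ g : G, if φ g = x then jnd K g else 0) =
      (Nat.card (K ⊓ φ.ker : Subgroup G) : ℤ) * ind (K.map φ) x := by
  by_cases hx : x ∈ K.map φ
  · rw [ind_of_mem hx, mul_one]
    obtain ⟨g0, hg0, rfl⟩ := Subgroup.mem_map.1 hx
    rw [← sum_jnd]
    refine (Fintype.sum_equiv (Equiv.mulLeft g0) _ _ fun g => ?_).symm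
    rw [Equiv.coe_mulLeft]
    have e2 : φ (g0 * g) = φ g0 ↔ φ g = 1 := by rw [map_mul, mul_eq_left]
    have e3 : g0 * g ∈ K ↔ g ∈ K := K.mul_mem_cancel_left hg0
    by_cases h1 : φ g = 1
    · rw [if_pos (e2.2 h1)]
      by_cases h2 : g ∈ K
      · rw [jnd_of_mem (e3.2 h2), jnd_of_mem (Subgroup.mem_inf.2 ⟨h2, MonoidHom.mem_ker.2 h1⟩)]
      · rw [jnd_of_not fun h => h2 (e3.1 h), jnd_of_not fun h => h2 (Subgroup.mem_inf.1 h).1]
    · rw [if_neg fun h => h1 (e2.1 h),
        jnd_of_not fun h => h1 (MonoidHom.mem_ker.1 (Subgroup.mem_inf.1 h).2)]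
  · rw [ind_of_not hx, mul_zero]
    refine sum_eq_zero fun g _ => ?_
    by_cases h1 : φ g = x
    · rw [if_pos h1, jnd_of_not]
      intro h2
      exact hx (Subgroup.mem_map.2 ⟨g, h2, h1⟩)
    · rw [if_neg h1]

/-- the correlation on the group -/
theorem pairs_eq (h : Aff k B) (hinv : ∀ (g : G), ∀ b ∈ B, g • b ∈ B) (hr : Reg G V)
    {L : Finset V} (hL : L ∈ B) (x0 : V) (g : G) :
    ((((Dset G x0 L ×ˢ Dset G x0 L).filter (fun p : G × G => p.1 * p.2⁻¹ = g)).card : ℕ) : ℤ) =
      k * jnd (MulAction.stabilizer G L) g - jnd (NN h hinv L hL) g + jnd (⊤ : Subgroup G) g := by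
  rw [card_pairs (fun g hg => hr.fr g x0 hg), jnd_of_mem (Subgroup.mem_top g)]
  have e0 : L.filter (fun y => y ∈ orb G x0 ∧ g • y ∈ L) = L.filter (fun y => g • y ∈ L) := by
    refine filter_congr fun y _ => ?_
    have : y ∈ orb G x0 := mem_orb.2 (hr.tr x0 y)
    simp [this]
  rw [e0, h.moved hinv hL g]
  by_cases h1 : g • L = L
  · rw [if_pos h1, jnd_of_mem ((mem_NN h hinv hL).2 (by rw [h1]; exact par_refl L)),
      jnd_of_mem (MulAction.mem_stabilizer_iff.2 h1), mul_one]
    ring
  · rw [if_neg h1, jnd_of_not (fun h2 => h1 (MulAction.mem_stabilizer_iff.1 h2)), mul_zero]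
    by_cases h2 : par (g • L) L
    · rw [if_pos h2, jnd_of_mem ((mem_NN h hinv hL).2 h2)]
      simp
    · rw [if_neg h2, jnd_of_not (fun h3 => h2 ((mem_NN h hinv hL).1 h3))]
      simp

theorem coprime_split {x y u v : ℕ} (e : x * y = u * v) (h1 : x.Coprime v) (h2 : u.Coprime y) :
    x = u ∧ y = v ∨ x = 0 ∨ y = 0 := by
  by_cases hx : x = 0
  · exact Or.inr (Or.inl hx)
  by_cases hy : y = 0
  · exact Or.inr (Or.inr hy)
  left
  have a1 : x ∣ u := h1.dvd_of_dvd_mul_right (e ▸ Dvd.intro _ rfl)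
  have a2 : u ∣ x := h2.dvd_of_dvd_mul_right (e.symm ▸ Dvd.intro _ rfl)
  have a3 : x = u := Nat.dvd_antisymm a1 a2
  subst a3
  exact ⟨rfl, Nat.eq_of_mul_eq_mul_left (Nat.pos_of_ne_zero hx) e⟩

theorem card_inf_map {A : Type} [CommGroup A] [Fintype A] (φ : G →* A) (K : Subgroup G) :
    Nat.card (K ⊓ φ.ker : Subgroup G) * Nat.card (K.map φ) = Nat.card K := by
  have h1 := Subgroup.card_mul_index ((φ.comp K.subtype).ker)
  rw [Subgroup.index_ker] at h1
  have h2 : (φ.comp K.subtype).range = K.map φ := by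
    rw [MonoidHom.range_comp, Subgroup.range_subtype]
  rw [h2] at h1
  rw [← h1]
  congr 1
  have e : (φ.comp K.subtype).ker = φ.ker.subgroupOf K := rfl
  rw [e, inf_comm, ← Subgroup.subgroupOf_map_subtype, Subgroup.card_subtype]

end

end Pool.Agent.Helper31K9.RNG
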