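import Pool.Agent.Helper31K9.RNG.PlaneA

set_option autoImplicit false
set_option linter.unusedSectionVars false
set_option linter.unusedVariables false

/-!
# The inequality for affine planes with a regular nilpotent group
-/

namespace Pool.Agent.Helper31K9.RNG

open Finset
open scoped Pointwise
open Pool.Agent.R116.AF (Aff par par_refl NN mem_NN stab_le count_NN Dset orb mem_orb card_pairs)
open Pool.Agent.TH66.SG (num cor cor_num sum_num fib)

section
variable {V : Type} [Fintype V] [DecidableEq V] {k : ℕ} {B : Finset (Finset V)}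
variable {G : Type} [Group G] [Fintype G] [DecidableEq G] [MulAction G V]

/-- The data of the projection to an abelian quotient. -/
theorem plane_data (h : Aff k B) (hinv : ∀ (g : G), ∀ b ∈ B, g • b ∈ B) (hr : Reg G V)
    {L : Finset V} (hL : L ∈ B) (x0 : V)
    {A : Type} [CommGroup A] [Fintype A] [DecidableEq A] (φ : G →* A)
    (hφ : Function.Surjective φ) {m n : ℕ} (hk : k = m * n) (hmn : m.Coprime n)
    (hA : Nat.card A = n ^ 2) :
    ∃ (hh : ℕ) (d : A → ℤ), 0 < hh ∧ hh ≤ m ∧
      hh * Nat.card ((MulAction.stabilizer G L).map φ) = Nat.card (MulAction.stabilizer G L) ∧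
      Nat.card ((NN h hinv L hL).map φ) = Nat.card ((MulAction.stabilizer G L).map φ) * n ∧
      ∑ y, d y = (m : ℤ) * n ∧
      ∀ x, corr d x = m * n * hh * ind ((MulAction.stabilizer G L).map φ) x -
        m * hh * ind ((NN h hinv L hL).map φ) x + m ^ 2 := by
  have hk2 := h.two
  have hm : 0 < m := Nat.pos_of_ne_zero (by rintro rfl; simp at hk; omega)
  have hn : 0 < n := Nat.pos_of_ne_zero (by rintro rfl; simp at hk; omega)
  have hG := card_reg h hr x0
  have htop : (⊤ : Subgroup G).map φ = ⊤ := by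
    rw [← MonoidHom.range_eq_map]
    exact MonoidHom.range_eq_top.2 hφ
  have hker : Nat.card ((⊤ : Subgroup G) ⊓ φ.ker : Subgroup G) = m ^ 2 := by
    have h1 := card_inf_map φ ⊤
    rw [htop, Subgroup.card_top, Subgroup.card_top, hA, hG, hk, mul_pow] at h1
    exact Nat.eq_of_mul_eq_mul_right (pow_pos hn 2) h1
  have hker' : Nat.card φ.ker = m ^ 2 := by
    rw [top_inf_eq] at hker
    exact hker
  set St := MulAction.stabilizer G L with hSt
  set NL := NN h hinv L hL with hNL
  have s1 := card_inf_map φ St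
  have s2 := card_inf_map φ NL
  have s3 : Nat.card NL = k * Nat.card St := card_NN h hinv hr hL x0
  set a := Nat.card (St.map φ) with ha
  set hh := Nat.card (St ⊓ φ.ker : Subgroup G) with hhh
  set b := Nat.card (NL.map φ) with hb
  set c := Nat.card (NL ⊓ φ.ker : Subgroup G) with hc
  have d1 : a ∣ n ^ 2 := by
    rw [← hA]
    exact Subgroup.card_subgroup_dvd_card _
  have d2 : b ∣ n ^ 2 := by
    rw [← hA]
    exact Subgroup.card_subgroup_dvd_card _
  have d3 : hh ∣ m ^ 2 := by
    rw [← hker']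
    exact Subgroup.card_dvd_of_le inf_le_right
  have d4 : c ∣ m ^ 2 := by
    rw [← hker']
    exact Subgroup.card_dvd_of_le inf_le_right
  have ha0 : 0 < a := Nat.card_pos
  have hb0 : 0 < b := Nat.card_pos
  have hh0 : 0 < hh := Nat.card_pos
  have hc0 : 0 < c := Nat.card_pos
  have e1 : c * b = (m * hh) * (n * a) := by
    rw [s2, s3, ← s1, hk]
    ring
  have e2 : c = m * hh ∧ b = n * a := by
    have f1 : c.Coprime (n * a) := by
      apply Nat.Coprime.coprime_dvd_left d4
      apply Nat.Coprime.mul_right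
      · exact Nat.Coprime.pow_left 2 hmn
      · exact Nat.Coprime.coprime_dvd_right d1 (Nat.Coprime.pow 2 2 hmn)
    have f2 : (m * hh).Coprime b := by
      apply Nat.Coprime.coprime_dvd_right d2
      apply Nat.Coprime.mul_left
      · exact Nat.Coprime.pow_right 2 hmn
      · exact Nat.Coprime.coprime_dvd_left d3 (Nat.Coprime.pow 2 2 hmn)
    rcases coprime_split e1 f1 f2 with h1 | h1 | h1
    · exact h1
    · omega
    · omega
  have hhm : hh ≤ m := by
    have h1 : m * hh ≤ m ^ 2 := by
      rw [← e2.1]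
      exact Nat.le_of_dvd (pow_pos hm 2) d4
    rw [sq] at h1
    exact Nat.le_of_mul_le_mul_left h1 hm
  refine ⟨hh, num φ (Dset G x0 L), hh0, hhm, s1, by rw [e2.2, mul_comm], ?_, ?_⟩
  · rw [sum_num]
    have : (Dset G x0 L).card = k := card_move h hr hL x0
    rw [this, hk]
    push_cast
    rfl
  · intro x
    have h1 : corr (num φ (Dset G x0 L)) x = cor (num φ (Dset G x0 L)) x := by
      unfold corr cor
      exact sum_congr rfl fun y _ => mul_comm _ _
    rw [h1, cor_num]
    have h2 : ∀ g : G, (if φ g = x then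
        ((((Dset G x0 L ×ˢ Dset G x0 L).filter (fun p : G × G => p.1 * p.2⁻¹ = g)).card : ℕ) : ℤ)
          else 0) = k * (if φ g = x then jnd St g else 0) - (if φ g = x then jnd NL g else 0) +
          (if φ g = x then jnd (⊤ : Subgroup G) g else 0) := by
      intro g
      rw [pairs_eq h hinv hr hL x0 g]
      by_cases h3 : φ g = x
      · simp only [if_pos h3]
        rfl
      · simp only [if_neg h3]
        ring
    rw [sum_congr rfl fun g _ => h2 g, sum_add_distrib, sum_sub_distrib, ← mul_sum, cnt_sub,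
      cnt_sub, cnt_sub, htop, ind_of_mem (Subgroup.mem_top x), hker, ← hhh, ← hc, e2.1, hk]
    push_cast
    ring

theorem plane_ineq (h : Aff k B) (hinv : ∀ (g : G), ∀ b ∈ B, g • b ∈ B) (hr : Reg G V)
    {L : Finset V} (hL : L ∈ B) (x0 : V)
    {A : Type} [CommGroup A] [Fintype A] [DecidableEq A] (φ : G →* A)
    (hφ : Function.Surjective φ) {m n : ℕ} (hk : k = m * n) (hmn : m.Coprime n)
    (hA : Nat.card A = n ^ 2) {p : ℕ} (hp : p.Prime) (hp2 : p ≠ 2)
    (hpn : p ∣ n) (hpn2 : ¬ p ^ 2 ∣ n) (hpL : ¬ p ∣ Nat.card (MulAction.stabilizer G L)) :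
    ((p : ℤ) - 2 * m ^ 2) * n ≤ m ^ 2 * p * (p - 2) := by
  have hk2 := h.two
  have hm : 0 < m := Nat.pos_of_ne_zero (by rintro rfl; simp at hk; omega)
  have hn : 0 < n := Nat.pos_of_ne_zero (by rintro rfl; simp at hk; omega)
  obtain ⟨hh, d, hh0, hhm, s1, hN, hsum, hcorr⟩ := plane_data h hinv hr hL x0 φ hφ hk hmn hA
  set St := MulAction.stabilizer G L with hSt
  set NL := NN h hinv L hL with hNL
  have hle : St ≤ NL := stab_le h hinv hL
  set a := Nat.card (St.map φ) with ha
  have ha0 : 0 < a := Nat.card_pos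
  have hpa : ¬ p ∣ a := fun h1 => hpL (h1.trans (by rw [← s1]; exact Dvd.intro_left _ rfl))
  have key := abs_ineq hp hp2 (St.map φ) (NL.map φ) (Subgroup.map_mono hle) m n hh a hm hn hpn
    hpn2 hpa hA rfl hN d hsum hcorr
  have hpn' : (p : ℤ) ≤ n := by exact_mod_cast Nat.le_of_dvd hn hpn
  have hp1 : (1 : ℤ) ≤ p := by exact_mod_cast hp.one_lt.le
  have hhm' : (hh : ℤ) ≤ m := by exact_mod_cast hhm
  have hh0' : (0 : ℤ) ≤ hh := by positivity
  have ha1 : (1 : ℤ) ≤ a := by exact_mod_cast ha0
  have hm0' : (0 : ℤ) ≤ m := by positivity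
  have q1 : (a : ℤ) * hh ^ 2 * (n - p) ≤ a * m ^ 2 * (n - p) := by
    apply mul_le_mul_of_nonneg_right _ (by linarith)
    apply mul_le_mul_of_nonneg_left _ (by linarith)
    exact pow_le_pow_left₀ hh0' hhm' 2
  have q2 : (a : ℤ) * hh * m * p * (p - 1) ≤ a * m ^ 2 * p * (p - 1) := by
    apply mul_le_mul_of_nonneg_right _ (by linarith)
    apply mul_le_mul_of_nonneg_right _ (by linarith)
    rw [sq, ← mul_assoc]
    apply mul_le_mul_of_nonneg_right _ hm0'
    exact mul_le_mul_of_nonneg_left hhm' (by linarith)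
  have q3 : (m : ℤ) ^ 2 * n ≤ a * (m ^ 2 * n) := by
    have : (0 : ℤ) ≤ (m : ℤ) ^ 2 * n := by positivity
    exact le_mul_of_one_le_left this ha1
  have fin : (a : ℤ) * (p * n) ≤ a * (2 * m ^ 2 * n + m ^ 2 * p * (p - 2)) := by
    have r1 : (a : ℤ) * (p * n) = a * p * n := by ring
    have r2 : (a : ℤ) * (2 * m ^ 2 * n + m ^ 2 * p * (p - 2)) =
        a * m ^ 2 * (n - p) + a * m ^ 2 * p * (p - 1) + a * (m ^ 2 * n) := by ring
    rw [r1, r2]
    exact key.trans (add_le_add (add_le_add q1 q2) q3)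
  have fin2 := le_of_mul_le_mul_left fin (by linarith)
  linarith

open Classical in
/-- the lines fixed by an element of order `p` -/
theorem card_bad [Group.IsNilpotent G] (h : Aff k B) (hinv : ∀ (g : G), ∀ b ∈ B, g • b ∈ B)
    (hr : Reg G V) (x0 : V) {p : ℕ} (hp : p.Prime) (hpk : p ∣ k) (hpk2 : ¬ p ^ 2 ∣ k) :
    (B.filter (fun L => x0 ∈ L ∧ p ∣ Nat.card (MulAction.stabilizer G L))).card ≤ p + 1 := by
  have : Fact p.Prime := ⟨hp⟩
  have hk2 := h.two
  have hG := card_reg h hr x0
  obtain ⟨P⟩ : Nonempty (Sylow p G) := inferInstance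
  have hPn : (P : Subgroup G).Normal := inferInstance
  have hPc : Nat.card P = p ^ 2 := by
    rw [P.card_eq_multiplicity, hG, Nat.factorization_pow]
    congr 1
    have h1 : k.factorization p = 1 := by
      obtain ⟨u, rfl⟩ := hpk
      have h4 : ¬ p ∣ u := by
        rintro ⟨v, rfl⟩
        exact hpk2 ⟨v, by ring⟩
      have hu : u ≠ 0 := by rintro rfl; simp at h4
      rw [Nat.factorization_mul hp.ne_zero hu, Finsupp.add_apply, hp.factorization_self,
        Nat.factorization_eq_zero_of_not_dvd h4]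
    simp [h1]
  have hmem : ∀ g : G, g ^ p = 1 → g ∈ (P : Subgroup G) := by
    intro g hg
    have h1 : IsPGroup p (Subgroup.zpowers g) := by
      intro x
      refine ⟨1, ?_⟩
      obtain ⟨i, hi⟩ := Subgroup.mem_zpowers_iff.1 x.2
      apply Subtype.ext
      rw [pow_one]
      change (x : G) ^ p = 1
      rw [← hi, ← zpow_natCast, ← zpow_mul, mul_comm, zpow_mul, zpow_natCast, hg, one_zpow]
    obtain ⟨Q, hQ⟩ := h1.exists_le_sylow
    have h2 : Q = P := by
      have := Sylow.unique_of_normal P hPn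
      exact Subsingleton.elim _ _
    rw [h2] at hQ
    exact hQ (Subgroup.mem_zpowers g)
  set T : Finset V → Finset G := fun L => univ.filter (fun g => g ∈ (P : Subgroup G) ∧ g ≠ 1 ∧
    g • L = L) with hT
  set W := B.filter (fun L => x0 ∈ L ∧ p ∣ Nat.card (MulAction.stabilizer G L)) with hW
  have hTc : ∀ L ∈ W, p - 1 ≤ (T L).card := by
    intro L hL
    rw [hW, mem_filter] at hL
    obtain ⟨g, hg⟩ := exists_prime_orderOf_dvd_card' p hL.2.2
    have hg1 : orderOf (g : G) = p := by rw [Subgroup.orderOf_coe, hg]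
    have hgp : (g : G) ^ p = 1 := by
      rw [← hg1]
      exact pow_orderOf_eq_one _
    have hgL : (g : G) • L = L := MulAction.mem_stabilizer_iff.1 g.2
    have e1 : (range (p - 1)).card ≤ (T L).card := by
      refine card_le_card_of_injOn (fun i => (g : G) ^ (i + 1)) ?_ ?_
      · intro i hi
        rw [mem_coe, mem_range] at hi
        simp only [hT, coe_filter, mem_univ, true_and, Set.mem_ofPred_eq]
        refine ⟨?_, ?_, ?_⟩
        · exact (P : Subgroup G).pow_mem (hmem _ hgp) _
        · intro h1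
          have h2 := orderOf_dvd_of_pow_eq_one h1
          rw [hg1] at h2
          have := Nat.le_of_dvd (by omega) h2
          omega
        · exact MulAction.mem_stabilizer_iff.1 (Subgroup.pow_mem _ g.2 _)
      · intro i hi j hj hij
        rw [mem_coe, mem_range] at hi hj
        have h1 : (g : G) ^ (i + 1) = (g : G) ^ (j + 1) := hij
        have h2 := (pow_inj_mod (x := (g : G)) (n := i + 1) (m := j + 1)).1 h1
        rw [hg1, Nat.mod_eq_of_lt (by omega), Nat.mod_eq_of_lt (by omega)] at h2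
        omega
    rwa [card_range] at e1
  have hdisj : ∀ L ∈ W, ∀ L' ∈ W, L ≠ L' → Disjoint (T L) (T L') := by
    intro L hL L' hL' hne
    rw [hW, mem_filter] at hL hL'
    rw [disjoint_left]
    intro g hg hg'
    simp only [hT, mem_filter, mem_univ, true_and] at hg hg'
    have h1 : g • x0 ∈ L := by
      rw [← hg.2.2]
      exact smul_mem_smul_finset hL.2.1
    have h2 : g • x0 ∈ L' := by
      rw [← hg'.2.2]
      exact smul_mem_smul_finset hL'.2.1
    have h3 : g • x0 = x0 := h.inter hL.1 hL'.1 hne h1 h2 hL.2.1 hL'.2.1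
    exact hg.2.1 (hr.fr g x0 h3)
  have hsum : W.card * (p - 1) ≤ p ^ 2 - 1 := by
    have e1 : (W.biUnion T).card = ∑ L ∈ W, (T L).card := card_biUnion hdisj
    have e2 : ∑ L ∈ W, (p - 1) ≤ ∑ L ∈ W, (T L).card := sum_le_sum hTc
    rw [sum_const, smul_eq_mul] at e2
    have e3 : W.biUnion T ⊆
        (univ.filter (fun g => g ∈ (P : Subgroup G))).erase 1 := by
      intro g hg
      obtain ⟨L, _, hgL⟩ := mem_biUnion.1 hg
      simp only [hT, mem_filter, mem_univ, true_and] at hgL
      rw [mem_erase, mem_filter]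
      exact ⟨hgL.2.1, mem_univ _, hgL.1⟩
    have e4 : ((univ.filter (fun g => g ∈ (P : Subgroup G))).erase 1).card = p ^ 2 - 1 := by
      rw [card_erase_of_mem (mem_filter.2 ⟨mem_univ _, (P : Subgroup G).one_mem⟩), ← hPc,
        Nat.card_eq_fintype_card, Fintype.card_subtype]
    have e5 := card_le_card e3
    rw [e1, e4] at e5
    exact e2.trans e5
  have h2 : p ^ 2 - 1 = (p + 1) * (p - 1) := by
    have := Nat.sq_sub_sq p 1
    simpa using this
  rw [h2] at hsum
  have hp1 := hp.one_lt
  exact Nat.le_of_mul_le_mul_right hsum (by omega)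

/-- the choice of a line -/
theorem exists_line [Group.IsNilpotent G] (h : Aff k B) (hinv : ∀ (g : G), ∀ b ∈ B, g • b ∈ B)
    (hr : Reg G V) (x0 : V) {p : ℕ} (hp : p.Prime) (hpk : p ∣ k) (hpk2 : ¬ p ^ 2 ∣ k) :
    k = p ∨ ∃ L ∈ B, x0 ∈ L ∧ ¬ p ∣ Nat.card (MulAction.stabilizer G L) := by
  classical
  by_contra hcon
  push Not at hcon
  obtain ⟨hkp, hall⟩ := hcon
  have h1 := card_bad h hinv hr x0 hp hpk hpk2
  have h2 : B.filter (fun L => x0 ∈ L ∧ p ∣ Nat.card (MulAction.stabilizer G L)) =
      B.filter (fun b => x0 ∈ b) := by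
    refine filter_congr fun L hL => ?_
    constructor
    · exact fun h => h.1
    · exact fun h => ⟨h, hall L hL h⟩
  have h3 := h.deg x0
  have h4 := Nat.le_of_dvd (by have := h.two; omega) hpk
  rw [← h2] at h3
  have h5 : k + 1 ≤ p + 1 := by
    rw [← h3]
    convert h1
  omega

end

end Pool.Agent.Helper31K9.RNG
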