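import Mathlib

set_option autoImplicit false
set_option linter.unusedSectionVars false
set_option linter.unusedVariables false

/-!
# Integer functions on a prime field with constant correlations: the Legendre transform
-/

namespace Pool.Agent.Helper31K9.RNG

open Finset

section
variable {p : ℕ} [Fact p.Prime]

/-- the quadratic character -/
noncomputable def lam (z : ZMod p) : ℤ := quadraticChar (ZMod p) z

/-- the correlation on a prime field -/
def co (f : ZMod p → ℤ) (z : ZMod p) : ℤ := ∑ y, f y * f (y + z)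

theorem ringChar_ne (hp2 : p ≠ 2) : ringChar (ZMod p) ≠ 2 := by
  rw [ZMod.ringChar_zmod_n]
  exact hp2

theorem lam_sum (hp2 : p ≠ 2) : ∑ z : ZMod p, lam z = 0 := quadraticChar_sum_zero (ringChar_ne hp2)

theorem lam_mul (a b : ZMod p) : lam (a * b) = lam a * lam b := by
  unfold lam
  exact map_mul _ _ _

theorem lam_sq {a : ZMod p} (ha : a ≠ 0) : lam a * lam a = 1 := by
  have := quadraticChar_sq_one ha
  unfold lam
  rw [← sq]
  exact this

theorem lam_one : lam (1 : ZMod p) = 1 := by
  unfold lam
  exact map_one _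

theorem lam_zero : lam (0 : ZMod p) = 0 := by
  unfold lam
  exact quadraticChar_zero

theorem lam_cast (hp2 : p ≠ 2) (a : ZMod p) : ((lam a : ℤ) : ZMod p) = a ^ (p / 2) := by
  have := quadraticChar_eq_pow_of_char_ne_two' (ringChar_ne hp2) a
  rw [ZMod.card] at this
  exact this

theorem co_lam (hp2 : p ≠ 2) (w : ZMod p) :
    ∑ x : ZMod p, lam x * lam (x + w) = (if w = 0 then (p : ℤ) else 0) - 1 := by
  by_cases hw : w = 0
  · subst hw
    rw [if_pos rfl]
    have h1 : ∀ x : ZMod p, lam x * lam (x + 0) = 1 - (if x = 0 then 1 else 0) := by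
      intro x
      rw [add_zero]
      by_cases hx : x = 0
      · subst hx
        rw [lam_zero]
        simp
      · rw [lam_sq hx, if_neg hx]
        ring
    rw [sum_congr rfl fun x _ => h1 x, sum_sub_distrib, sum_ite_eq', if_pos (mem_univ _), sum_const,
      card_univ, ZMod.card]
    simp
  · rw [if_neg hw]
    have h1 : ∀ x : ZMod p, lam x * lam (x + w) = (if x = 0 then 0 else lam (1 + w * x⁻¹)) := by
      intro x
      by_cases hx : x = 0
      · subst hx
        rw [lam_zero, zero_mul, if_pos rfl]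
      · rw [if_neg hx]
        have : x + w = x * (1 + w * x⁻¹) := by
          field_simp
        rw [this, lam_mul, ← mul_assoc, lam_sq hx, one_mul]
    rw [sum_congr rfl fun x _ => h1 x]
    have h2 : ∑ x : ZMod p, (if x = 0 then 0 else lam (1 + w * x⁻¹)) =
        ∑ x ∈ univ.erase (0 : ZMod p), lam (1 + w * x⁻¹) := by
      rw [← Finset.add_sum_erase univ _ (mem_univ (0 : ZMod p)), if_pos rfl, zero_add]
      refine sum_congr rfl fun x hx => ?_
      rw [if_neg (ne_of_mem_erase hx)]
    have h3 : ∑ x ∈ univ.erase (0 : ZMod p), lam (1 + w * x⁻¹) =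
        ∑ u ∈ univ.erase (1 : ZMod p), lam u := by
      refine sum_bij (fun x _ => 1 + w * x⁻¹) ?_ ?_ ?_ ?_
      · intro x hx
        rw [mem_erase]
        refine ⟨?_, mem_univ _⟩
        intro h
        have : w * x⁻¹ = 0 := by simpa using h
        rcases mul_eq_zero.1 this with h' | h'
        · exact hw h'
        · exact ne_of_mem_erase hx (inv_eq_zero.1 h')
      · intro x hx y hy hxy
        have h4 : w * x⁻¹ = w * y⁻¹ := by simpa using hxy
        exact inv_injective (mul_left_cancel₀ hw h4)
      · intro u hu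
        have hu1 : u - 1 ≠ 0 := sub_ne_zero.2 (ne_of_mem_erase hu)
        refine ⟨w * (u - 1)⁻¹, ?_, ?_⟩
        · rw [mem_erase]
          exact ⟨mul_ne_zero hw (inv_ne_zero hu1), mem_univ _⟩
        · field_simp
          ring
      · intro x hx
        rfl
    rw [h2, h3]
    have h4 := Finset.add_sum_erase univ (fun u : ZMod p => lam u) (mem_univ (1 : ZMod p))
    rw [lam_sum hp2, lam_one] at h4
    linarith

/-- the moments of `e` -/
def mom (e : ZMod p → ℤ) (i : ℕ) : ZMod p := ∑ y, ((e y : ℤ) : ZMod p) * y ^ i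

/-- the low moments vanish modulo `p` -/
theorem mom_zero (hp2 : p ≠ 2) (e : ZMod p → ℤ) (m : ℤ)
    (hcorr : ∀ z, ((co e z : ℤ) : ZMod p) = -m) (s : ℕ) (hs : 2 * s < p - 1) : mom e s = 0 := by
  induction s using Nat.strong_induction_on with
  | _ s ih =>
    have h1 : ∑ x : ZMod p, ((co e x : ℤ) : ZMod p) * x ^ (2 * s) = 0 := by
      rw [sum_congr rfl fun x _ => by rw [hcorr x], ← mul_sum]
      have := FiniteField.sum_pow_lt_card_sub_one (K := ZMod p) (2 * s) (by rw [ZMod.card]; exact hs)
      rw [this, mul_zero]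
    have h2 : ∑ x : ZMod p, ((co e x : ℤ) : ZMod p) * x ^ (2 * s) =
        ∑ i ∈ range (2 * s + 1), (-1) ^ (2 * s - i) * ((2 * s).choose i : ZMod p) *
          (mom e i * mom e (2 * s - i)) := by
      have e1 : ∑ x : ZMod p, ((co e x : ℤ) : ZMod p) * x ^ (2 * s) =
          ∑ y : ZMod p, ∑ z : ZMod p, ((e y : ℤ) : ZMod p) * ((e z : ℤ) : ZMod p) *
            (z - y) ^ (2 * s) := by
        unfold co
        push_cast
        simp only [sum_mul]
        rw [sum_comm]
        refine sum_congr rfl fun y _ => ?_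
        refine Fintype.sum_equiv (Equiv.addLeft y) _ _ fun x => ?_
        simp only [Equiv.coe_addLeft, add_sub_cancel_left]
      rw [e1]
      have e2 : ∀ y z : ZMod p, ((e y : ℤ) : ZMod p) * ((e z : ℤ) : ZMod p) * (z - y) ^ (2 * s) =
          ∑ i ∈ range (2 * s + 1), (-1) ^ (2 * s - i) * ((2 * s).choose i : ZMod p) *
            ((((e z : ℤ) : ZMod p) * z ^ i) * (((e y : ℤ) : ZMod p) * y ^ (2 * s - i))) := by
        intro y z
        rw [sub_eq_add_neg, add_pow, mul_sum]
        refine sum_congr rfl fun i _ => ?_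
        rw [neg_pow y]
        ring
      simp only [e2]
      calc ∑ y : ZMod p, ∑ z : ZMod p, ∑ i ∈ range (2 * s + 1),
            (-1) ^ (2 * s - i) * ((2 * s).choose i : ZMod p) *
            ((((e z : ℤ) : ZMod p) * z ^ i) * (((e y : ℤ) : ZMod p) * y ^ (2 * s - i)))
          = ∑ y : ZMod p, ∑ i ∈ range (2 * s + 1), ∑ z : ZMod p,
            (-1) ^ (2 * s - i) * ((2 * s).choose i : ZMod p) *
            ((((e z : ℤ) : ZMod p) * z ^ i) * (((e y : ℤ) : ZMod p) * y ^ (2 * s - i))) :=
            sum_congr rfl fun y _ => sum_comm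
        _ = ∑ i ∈ range (2 * s + 1), ∑ y : ZMod p, ∑ z : ZMod p,
            (-1) ^ (2 * s - i) * ((2 * s).choose i : ZMod p) *
            ((((e z : ℤ) : ZMod p) * z ^ i) * (((e y : ℤ) : ZMod p) * y ^ (2 * s - i))) := sum_comm
        _ = _ := by
            refine sum_congr rfl fun i _ => ?_
            simp only [← mul_sum, ← sum_mul]
            rfl
    rw [h2] at h1
    rw [sum_eq_single s] at h1
    · have h3 : 2 * s - s = s := by omega
      rw [h3] at h1
      have h4 : ((2 * s).choose s : ZMod p) ≠ 0 := by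
        rw [Ne, ZMod.natCast_eq_zero_iff]
        intro h5
        have h6 : p ∣ (2 * s).factorial := by
          rw [← Nat.choose_mul_factorial_mul_factorial (show s ≤ 2 * s by omega), mul_assoc]
          exact Dvd.dvd.mul_right h5 _
        have h7 := (Nat.Prime.dvd_factorial Fact.out).1 h6
        omega
      have h5 : ((-1 : ZMod p)) ^ s ≠ 0 := pow_ne_zero _ (neg_ne_zero.2 one_ne_zero)
      have h6 : mom e s * mom e s = 0 := by
        rcases mul_eq_zero.1 h1 with h | h
        · exact absurd h (mul_ne_zero h5 h4)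
        · exact h
      exact mul_self_eq_zero.1 h6
    · intro i hi his
      rw [mem_range] at hi
      rcases lt_or_gt_of_ne his with h | h
      · rw [ih i h (by omega), zero_mul, mul_zero]
      · rw [ih (2 * s - i) (by omega) (by omega), mul_zero, mul_zero]
    · intro h
      exact absurd (mem_range.2 (by omega)) h

/-- the Legendre transform -/
noncomputable def leg (e : ZMod p → ℤ) (x : ZMod p) : ℤ := ∑ y, e y * lam (y - x)

/-- the Legendre transform is constant modulo `p` -/
theorem leg_cast (hp2 : p ≠ 2) (e : ZMod p → ℤ) (m : ℤ)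
    (hcorr : ∀ z, ((co e z : ℤ) : ZMod p) = -m) (x : ZMod p) :
    ((leg e x : ℤ) : ZMod p) = mom e (p / 2) := by
  have hodd : p % 2 = 1 := ((Fact.out : p.Prime).eq_two_or_odd).resolve_left hp2
  have h1 : ((leg e x : ℤ) : ZMod p) =
      ∑ i ∈ range (p / 2 + 1), (-x) ^ (p / 2 - i) * ((p / 2).choose i : ZMod p) * mom e i := by
    unfold leg
    push_cast
    have e1 : ∀ y : ZMod p, ((e y : ℤ) : ZMod p) * ((lam (y - x) : ℤ) : ZMod p) =
        ∑ i ∈ range (p / 2 + 1), (-x) ^ (p / 2 - i) * ((p / 2).choose i : ZMod p) *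
          (((e y : ℤ) : ZMod p) * y ^ i) := by
      intro y
      rw [lam_cast hp2, sub_eq_add_neg, add_pow, mul_sum]
      refine sum_congr rfl fun i _ => ?_
      ring
    rw [sum_congr rfl fun y _ => e1 y, sum_comm]
    refine sum_congr rfl fun i _ => ?_
    rw [← mul_sum]
    rfl
  rw [h1, sum_eq_single (p / 2)]
  · simp
  · intro i hi hne
    rw [mem_range] at hi
    rw [mom_zero hp2 e m hcorr i (by omega), mul_zero]
  · intro h
    exact absurd (mem_range.2 (by omega)) h

theorem leg_sum (hp2 : p ≠ 2) (e : ZMod p → ℤ) : ∑ x, leg e x = 0 := by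
  unfold leg
  rw [sum_comm]
  refine sum_eq_zero fun y _ => ?_
  rw [← mul_sum]
  have : ∑ x : ZMod p, lam (y - x) = 0 := by
    rw [← lam_sum hp2]
    exact Fintype.sum_equiv (Equiv.subLeft y) _ _ fun x => rfl
  rw [this, mul_zero]

theorem leg_co (hp2 : p ≠ 2) (e : ZMod p → ℤ) (hsum : ∑ y, e y = 0) (z : ZMod p) :
    co (leg e) z = p * co e z := by
  unfold co leg
  have h1 : ∀ x : ZMod p, (∑ y, e y * lam (y - x)) * (∑ y, e y * lam (y - (x + z))) =
      ∑ y, ∑ y', e y * e y' * (lam (y - x) * lam (y' - (x + z))) := by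
    intro x
    rw [sum_mul_sum]
    refine sum_congr rfl fun y _ => sum_congr rfl fun y' _ => ?_
    ring
  rw [sum_congr rfl fun x _ => h1 x]
  have h2 : ∑ x : ZMod p, ∑ y, ∑ y', e y * e y' * (lam (y - x) * lam (y' - (x + z))) =
      ∑ y, ∑ y', e y * e y' * ((if y' = y + z then (p : ℤ) else 0) - 1) := by
    calc ∑ x : ZMod p, ∑ y, ∑ y', e y * e y' * (lam (y - x) * lam (y' - (x + z)))
        = ∑ y, ∑ x : ZMod p, ∑ y', e y * e y' * (lam (y - x) * lam (y' - (x + z))) := sum_comm
      _ = ∑ y, ∑ y', ∑ x : ZMod p, e y * e y' * (lam (y - x) * lam (y' - (x + z))) :=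
          sum_congr rfl fun y _ => sum_comm
      _ = _ := by
          refine sum_congr rfl fun y _ => sum_congr rfl fun y' _ => ?_
          rw [← mul_sum]
          congr 1
          have h3 := co_lam hp2 (y' - y - z)
          have h4 : (y' - y - z = 0) ↔ y' = y + z := by
            rw [sub_sub, sub_eq_zero]
          rw [if_congr h4 rfl rfl] at h3
          rw [← h3]
          refine Fintype.sum_equiv (Equiv.subLeft y) _ _ fun x => ?_
          simp only [Equiv.subLeft_apply]
          congr 2
          ring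
  rw [h2]
  have h3 : ∀ y : ZMod p, ∑ y', e y * e y' * ((if y' = y + z then (p : ℤ) else 0) - 1) =
      p * (e y * e (y + z)) - e y * ∑ y', e y' := by
    intro y
    simp only [mul_sub, sum_sub_distrib, mul_one, ← mul_sum, mul_ite, mul_zero]
    rw [sum_ite_eq', if_pos (mem_univ _)]
    ring
  rw [sum_congr rfl fun y _ => h3 y, hsum]
  simp only [mul_zero, sub_zero]
  rw [← mul_sum]

theorem leg_inv (hp2 : p ≠ 2) (e : ZMod p → ℤ) (hsum : ∑ y, e y = 0) (y : ZMod p) :
    ∑ x, leg e x * lam (y - x) = p * e y := by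
  unfold leg
  simp only [sum_mul]
  rw [sum_comm]
  have h1 : ∀ y' : ZMod p, ∑ x, e y' * lam (y' - x) * lam (y - x) =
      e y' * ((if y = y' then (p : ℤ) else 0) - 1) := by
    intro y'
    have h3 := co_lam hp2 (y - y')
    rw [if_congr sub_eq_zero rfl rfl] at h3
    rw [← h3, mul_sum]
    refine Fintype.sum_equiv (Equiv.subLeft y') _ _ fun x => ?_
    simp only [Equiv.subLeft_apply]
    rw [mul_assoc]
    congr 3
    ring
  rw [sum_congr rfl fun y' _ => h1 y']
  simp only [mul_sub, sum_sub_distrib, mul_one, mul_ite, mul_zero]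
  rw [sum_ite_eq, if_pos (mem_univ _), hsum]
  ring

end

end Pool.Agent.Helper31K9.RNG
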