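import Mathlib
import Pool.Agent.Helper31K9.RNG.QA

set_option autoImplicit false
set_option linter.unusedSectionVars false
set_option linter.unusedVariables false

/-!
# Sparse functions with perfect correlations on a prime field
-/

namespace Pool.Agent.Helper31K9.RNG

open Finset

section
variable {p : ℕ} [Fact p.Prime]

theorem le_sum_sq (b : ZMod p → ℤ) : (∑ x, b x) ^ 2 ≤ (∑ x, b x ^ 2) ^ 2 := by
  have h1 : ∑ x, b x ≤ ∑ x, b x ^ 2 := sum_le_sum fun x _ => Int.le_self_sq (b x)
  have h2 : - ∑ x, b x ≤ ∑ x, b x ^ 2 := by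
    rw [← sum_neg_distrib]
    refine sum_le_sum fun x _ => ?_
    have := Int.le_self_sq (-b x)
    rwa [neg_sq] at this
  apply sq_le_sq'
  · linarith
  · exact h1

/-- The Legendre transform of a function with constant correlations is `p` times a function with
perfect correlations, up to a constant. -/
theorem leg_main (hp2 : p ≠ 2) (m : ℤ) (hm : 2 ≤ m) (hpm : 4 * m ^ 2 < p) (e : ZMod p → ℤ)
    (hsum : ∑ y, e y = 0) (hcorr : ∀ z, co e z = (if z = 0 then m * p else 0) - m) :
    ∃ b : ZMod p → ℤ, (∑ x, b x) ^ 2 = m ∧ ∑ x, b x ^ 2 = m ∧ (∀ z, z ≠ 0 → co b z = 0) ∧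
      ∀ y, e y = ∑ x, b x * lam (y - x) := by
  have hp : p.Prime := Fact.out
  have hcast : ∀ z, ((co e z : ℤ) : ZMod p) = ((-m : ℤ) : ZMod p) := by
    intro z
    rw [hcorr]
    split_ifs
    · push_cast
      simp
    · push_cast
      simp
  have hcast' : ∀ z, ((co e z : ℤ) : ZMod p) = -(m : ZMod p) := by
    intro z
    rw [hcast z]
    push_cast
    rfl
  set t0 : ℤ := (mom e (p / 2)).valMinAbs with ht0
  have ht0c : ((t0 : ℤ) : ZMod p) = mom e (p / 2) := by
    rw [ht0]
    exact ZMod.coe_valMinAbs _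
  have ht0b : t0 ^ 2 * 4 < (p : ℤ) ^ 2 := by
    have h1 : t0.natAbs ≤ p / 2 := ZMod.natAbs_valMinAbs_le _
    have h2 : 2 * t0.natAbs < p := by
      have hodd : p % 2 = 1 := (hp.eq_two_or_odd).resolve_left hp2
      omega
    have h3 : (2 * |t0|) < p := by
      rw [Int.abs_eq_natAbs]
      exact_mod_cast h2
    have h4 : (2 * |t0|) ^ 2 < (p : ℤ) ^ 2 := by
      apply pow_lt_pow_left₀ h3 (by positivity) (by norm_num)
    rw [mul_pow, sq_abs] at h4
    linarith
  have hdvd : ∀ x, (p : ℤ) ∣ leg e x - t0 := by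
    intro x
    rw [← ZMod.intCast_eq_intCast_iff_dvd_sub, ht0c]
    exact (leg_cast hp2 e m hcast' x).symm
  choose b hb using hdvd
  have hb' : ∀ x, leg e x = t0 + p * b x := fun x => by linarith [hb x]
  have hp0 : (0 : ℤ) < p := by exact_mod_cast hp.pos
  -- the sum of `b`
  have hbs : ∑ x, b x = -t0 := by
    have h1 := leg_sum hp2 e
    rw [sum_congr rfl fun x _ => hb' x, sum_add_distrib, ← mul_sum, sum_const, card_univ,
      ZMod.card, nsmul_eq_mul] at h1
    have h2 : (p : ℤ) * (t0 + ∑ x, b x) = 0 := by linarith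
    rcases mul_eq_zero.1 h2 with h | h
    · omega
    · linarith
  have hbc : ∀ z, (p : ℤ) * co b z = t0 ^ 2 + (if z = 0 then m * p else 0) - m := by
    intro z
    have h1 := leg_co hp2 e hsum z
    have h2 : co (leg e) z = p * t0 ^ 2 + 2 * (p * t0 * ∑ x, b x) + p ^ 2 * co b z := by
      unfold co
      have h3 : ∀ x, leg e x * leg e (x + z) =
          t0 ^ 2 + p * t0 * b x + p * t0 * b (x + z) + p ^ 2 * (b x * b (x + z)) := by
        intro x
        rw [hb' x, hb' (x + z)]
        ring
      rw [sum_congr rfl fun x _ => h3 x]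
      simp only [sum_add_distrib, ← mul_sum, sum_const, card_univ, ZMod.card, nsmul_eq_mul]
      have h4 : ∑ x, b (x + z) = ∑ x, b x := Fintype.sum_equiv (Equiv.addRight z) _ _ fun x => rfl
      rw [h4]
      ring
    rw [h2, hbs, hcorr] at h1
    have h5 : (p : ℤ) * ((p : ℤ) * co b z) =
        p * (t0 ^ 2 + (if z = 0 then m * p else 0) - m) := by linarith
    exact mul_left_cancel₀ hp0.ne' h5
  have hlz : ∀ z, z ≠ 0 → (p : ℤ) * co b z = t0 ^ 2 - m := by
    intro z hz
    rw [hbc z, if_neg hz]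
    ring
  have hl1 := hlz 1 one_ne_zero
  set l := co b 1 with hl
  have hl0 : ∑ x, b x ^ 2 = m + l := by
    have h1 := hbc 0
    rw [if_pos rfl] at h1
    have h2 : co b 0 = ∑ x, b x ^ 2 := by
      unfold co
      refine sum_congr rfl fun x _ => ?_
      rw [add_zero, sq]
    rw [h2] at h1
    have h3 : (p : ℤ) * ∑ x, b x ^ 2 = p * (m + l) := by linarith
    exact mul_left_cancel₀ hp0.ne' h3
  have hineq := le_sum_sq b
  rw [hbs, hl0, neg_sq] at hineq
  have hl4 : 4 * l < p := by
    have h1 : (p : ℤ) * (4 * l) < p * p := by nlinarith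
    exact lt_of_mul_lt_mul_left h1 hp0.le
  have hlnn : 0 ≤ l := by
    by_contra hneg
    push Not at hneg
    have h1 : (p : ℤ) * l ≤ p * (-1) := mul_le_mul_of_nonneg_left (by omega) hp0.le
    nlinarith [sq_nonneg t0]
  have hlz0 : l = 0 := by
    by_contra hne
    have hl1' : 1 ≤ l := by omega
    have e1 : t0 ^ 2 = m + p * l := by linarith
    rw [e1] at hineq
    -- m + p l ≤ m ^ 2 + 2 m l + l ^ 2
    have e2 : 4 * (l * l) ≤ l * p := by nlinarith
    have e3 : 8 * (m * l) ≤ p * l := by
      have : 8 * m ≤ p := by nlinarith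
      nlinarith
    have e4 : 4 * m ^ 2 ≤ p * l := by nlinarith
    nlinarith
  refine ⟨b, ?_, ?_, ?_, ?_⟩
  · rw [hbs, neg_sq]
    rw [hlz0] at hl1
    linarith
  · rw [hl0, hlz0, add_zero]
  · intro z hz
    have h1 := hlz z hz
    rw [hlz0, mul_zero] at hl1
    rw [← hl1] at h1
    rcases mul_eq_zero.1 h1 with h | h
    · omega
    · exact h
  · intro y
    have h1 := leg_inv hp2 e hsum y
    have h2 : ∑ x, leg e x * lam (y - x) = p * ∑ x, b x * lam (y - x) := by
      have h3 : ∀ x, leg e x * lam (y - x) = t0 * lam (y - x) + p * (b x * lam (y - x)) := by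
        intro x
        rw [hb' x]
        ring
      have h4 : ∑ x : ZMod p, lam (y - x) = 0 := by
        rw [← lam_sum hp2]
        exact Fintype.sum_equiv (Equiv.subLeft y) _ _ fun x => rfl
      rw [sum_congr rfl fun x _ => h3 x, sum_add_distrib, ← mul_sum, ← mul_sum, h4, mul_zero,
        zero_add]
    rw [h2] at h1
    exact (mul_left_cancel₀ hp0.ne' h1).symm

/-- A function of small energy with perfect correlations is concentrated in a point. -/
theorem conc (m : ℕ) (hpm : 4 ^ m < p) (b : ZMod p → ℤ) (hsq : ∑ x, b x ^ 2 = m)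
    (hco : ∀ z, z ≠ 0 → co b z = 0) : ∃ j, ∀ x, x ≠ j → b x = 0 := by
  classical
  set J : Finset (ZMod p) := univ.filter (fun x => b x ≠ 0) with hJ
  have hJm : J.card ≤ m := by
    have h1 : (J.card : ℤ) ≤ ∑ x, b x ^ 2 := by
      rw [card_eq_sum_ones, hJ, sum_filter]
      push_cast
      refine sum_le_sum fun x _ => ?_
      split_ifs with h
      · have : 0 < b x ^ 2 := by positivity
        omega
      · positivity
    rw [hsq] at h1
    exact_mod_cast h1
  by_cases hJ1 : J.card ≤ 1
  · rw [card_le_one] at hJ1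
    by_cases hJ0 : ∃ j, j ∈ J
    · obtain ⟨j, hj⟩ := hJ0
      refine ⟨j, fun x hx => ?_⟩
      by_contra hbx
      exact hx (hJ1 x (mem_filter.2 ⟨mem_univ _, hbx⟩) j hj)
    · push Not at hJ0
      refine ⟨0, fun x _ => ?_⟩
      by_contra hbx
      exact hJ0 x (mem_filter.2 ⟨mem_univ _, hbx⟩)
  exfalso
  push Not at hJ1
  have hp : p.Prime := Fact.out
  -- pigeonhole
  have hbox : ∀ (t x : ZMod p), 4 * (t * x).val / p < 4 := by
    intro t x
    have := ZMod.val_lt (t * x)
    exact Nat.div_lt_of_lt_mul (by omega)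
  let T : ZMod p → (J → Fin 4) := fun t x => ⟨4 * (t * (x : ZMod p)).val / p, hbox t x⟩
  have hcard : Fintype.card (J → Fin 4) < Fintype.card (ZMod p) := by
    rw [Fintype.card_fun, Fintype.card_fin, ZMod.card, Fintype.card_coe]
    exact (Nat.pow_le_pow_right (by norm_num) hJm).trans_lt hpm
  obtain ⟨t, t', htt, hT⟩ := Fintype.exists_ne_map_eq_of_card_lt T hcard
  set a : ZMod p → ℤ := fun x => ((t * x).val : ℤ) - (t' * x).val with ha
  have hac : ∀ x, ((a x : ℤ) : ZMod p) = (t - t') * x := by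
    intro x
    rw [ha]
    push_cast
    rw [ZMod.natCast_zmod_val, ZMod.natCast_zmod_val]
    ring
  have hab : ∀ x ∈ J, 4 * |a x| < p := by
    intro x hx
    have h1 := congrFun hT ⟨x, hx⟩
    have h2 : 4 * (t * x).val / p = 4 * (t' * x).val / p := by
      have := congrArg Fin.val h1
      exact this
    have h3 := Nat.div_add_mod (4 * (t * x).val) p
    have h4 := Nat.div_add_mod (4 * (t' * x).val) p
    have h5 := Nat.mod_lt (4 * (t * x).val) hp.pos
    have h6 := Nat.mod_lt (4 * (t' * x).val) hp.pos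
    rw [h2] at h3
    generalize p * (4 * (t' * x).val / p) = w at h3 h4
    rw [ha]
    simp only
    have h7 : |(((t * x).val : ℤ) - (t' * x).val)| * 4 < p := by
      have h8 : |(((t * x).val : ℤ) - (t' * x).val)| * 4 =
          |(4 * ((t * x).val : ℤ) - 4 * (t' * x).val)| := by
        rw [← mul_sub, abs_mul]
        norm_num
        ring
      rw [h8, abs_lt]
      constructor <;> omega
    linarith
  have htt' : t - t' ≠ 0 := sub_ne_zero.2 htt
  have hinj : ∀ x y, a x = a y → x = y := by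
    intro x y h
    have h1 := hac x
    rw [h, hac y] at h1
    exact (mul_left_cancel₀ htt' h1).symm
  have hJne : J.Nonempty := card_pos.1 (by omega)
  obtain ⟨x1, hx1, hmax⟩ := exists_max_image J a hJne
  obtain ⟨x2, hx2, hmin⟩ := exists_min_image J a hJne
  have hne : x1 ≠ x2 := by
    rintro rfl
    obtain ⟨u, hu, v, hv, huv⟩ := one_lt_card.1 hJ1
    have h1 : a u = a x1 := le_antisymm (hmax u hu) (hmin u hu)
    have h2 : a v = a x1 := le_antisymm (hmax v hv) (hmin v hv)
    exact huv ((hinj _ _ h1).trans (hinj _ _ h2).symm)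
  have h0 := hco (x1 - x2) (sub_ne_zero.2 hne)
  unfold co at h0
  rw [sum_eq_single x2] at h0
  · rw [add_sub_cancel] at h0
    rw [hJ, mem_filter] at hx1 hx2
    rcases mul_eq_zero.1 h0 with h | h
    · exact hx2.2 h
    · exact hx1.2 h
  · intro y _ hy
    by_contra hne0
    have hy1 : y ∈ J := mem_filter.2 ⟨mem_univ _, fun h => hne0 (by rw [h, zero_mul])⟩
    have hy2 : y + (x1 - x2) ∈ J := mem_filter.2 ⟨mem_univ _, fun h => hne0 (by rw [h, mul_zero])⟩
    have h1 : (((a (y + (x1 - x2)) - a y) - (a x1 - a x2) : ℤ) : ZMod p) = 0 := by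
      push_cast
      rw [hac, hac, hac, hac]
      ring
    rw [ZMod.intCast_zmod_eq_zero_iff_dvd] at h1
    have g1 := hab _ hy1
    have g2 := hab _ hy2
    have g3 := hab _ hx1
    have g4 := hab _ hx2
    have h2 : (a (y + (x1 - x2)) - a y) - (a x1 - a x2) = 0 := by
      apply Int.eq_zero_of_abs_lt_dvd h1
      have q1 := abs_le.1 (le_refl |a y|)
      have q2 := abs_le.1 (le_refl |a (y + (x1 - x2))|)
      have q3 := abs_le.1 (le_refl |a x1|)
      have q4 := abs_le.1 (le_refl |a x2|)
      rw [abs_lt]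
      constructor <;> linarith [q1.1, q1.2, q2.1, q2.2, q3.1, q3.2, q4.1, q4.2]
    have h3 := hmax _ hy2
    have h4 := hmin _ hy1
    have h5 : a y = a x2 := by linarith
    exact hy (hinj _ _ h5)
  · intro h
    exact absurd (mem_univ _) h

end

end Pool.Agent.Helper31K9.RNG
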