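import Mathlib
import Pool.Agent.Helper31K9.RNG.QB

set_option autoImplicit false
set_option linter.unusedSectionVars false
set_option linter.unusedVariables false

/-!
# Weighted relative difference sets in the plane over a prime field
-/

namespace Pool.Agent.Helper31K9.RNG

open Finset

section
variable {p : ℕ} [Fact p.Prime]

/-- the line sums for the slope `s`, minus the mean -/
def ex (d : ZMod p → ZMod p → ℤ) (m : ℤ) (s j : ZMod p) : ℤ := (∑ α, d α (s * α + j)) - m

theorem ex_sum (d : ZMod p → ZMod p → ℤ) (m : ℤ) (hcol : ∀ α, ∑ β, d α β = m) (s : ZMod p) :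
    ∑ j, ex d m s j = 0 := by
  unfold ex
  rw [sum_sub_distrib, sum_comm]
  have h1 : ∀ α : ZMod p, ∑ j, d α (s * α + j) = m := by
    intro α
    rw [← hcol α]
    exact Fintype.sum_equiv (Equiv.addLeft (s * α)) _ _ fun j => rfl
  rw [sum_congr rfl fun α _ => h1 α, sub_self]

theorem ex_co (d : ZMod p → ZMod p → ℤ) (m : ℤ) (hcol : ∀ α, ∑ β, d α β = m)
    (hcorr : ∀ u z, ∑ α, ∑ β, d α β * d (α + u) (β + z) =
      (if u = 0 ∧ z = 0 then m * p else 0) - (if u = 0 then m else 0) + m ^ 2) (s z : ZMod p) :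
    co (ex d m s) z = (if z = 0 then m * p else 0) - m := by
  set f : ZMod p → ℤ := fun j => ∑ α, d α (s * α + j) with hf
  have hfs : ∑ j, f j = m * p := by
    have h1 := ex_sum d m hcol s
    unfold ex at h1
    rw [sum_sub_distrib, sum_const, card_univ, ZMod.card, nsmul_eq_mul] at h1
    rw [hf]
    linarith
  have hff : ∑ j, f j * f (j + z) = (if z = 0 then m * p else 0) - m + p * m ^ 2 := by
    have h1 : ∀ j, f j * f (j + z) =
        ∑ u, ∑ α, d α (s * α + j) * d (α + u) ((s * α + j) + (s * u + z)) := by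
      intro j
      rw [hf]
      simp only
      rw [sum_mul_sum]
      have e1 : ∀ α : ZMod p, ∑ α', d α (s * α + j) * d α' (s * α' + (j + z)) =
          ∑ u, d α (s * α + j) * d (α + u) ((s * α + j) + (s * u + z)) := by
        intro α
        refine (Fintype.sum_equiv (Equiv.addLeft α) _ _ fun u => ?_).symm
        simp only [Equiv.coe_addLeft]
        congr 2
        ring
      rw [sum_congr rfl fun α _ => e1 α, sum_comm]
    rw [sum_congr rfl fun j _ => h1 j, sum_comm]
    have h2 : ∀ u : ZMod p, ∑ j, ∑ α, d α (s * α + j) * d (α + u) ((s * α + j) + (s * u + z)) =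
        (if u = 0 then ((if z = 0 then m * p else 0) - m) else 0) + m ^ 2 := by
      intro u
      rw [sum_comm]
      have e2 : ∀ α : ZMod p, ∑ j, d α (s * α + j) * d (α + u) ((s * α + j) + (s * u + z)) =
          ∑ β, d α β * d (α + u) (β + (s * u + z)) := by
        intro α
        exact Fintype.sum_equiv (Equiv.addLeft (s * α)) _ _ fun j => rfl
      rw [sum_congr rfl fun α _ => e2 α, hcorr]
      by_cases hu : u = 0
      · subst hu
        simp
      · simp [hu]
    rw [sum_congr rfl fun u _ => h2 u, sum_add_distrib, sum_ite_eq', if_pos (mem_univ _), sum_const,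
      card_univ, ZMod.card, nsmul_eq_mul]
  unfold co
  have h3 : ∀ j, ex d m s j * ex d m s (j + z) = f j * f (j + z) - m * f j - m * f (j + z) + m ^ 2 := by
    intro j
    unfold ex
    rw [hf]
    ring
  rw [sum_congr rfl fun j _ => h3 j, sum_add_distrib, sum_sub_distrib, sum_sub_distrib, hff,
    ← mul_sum, ← mul_sum, hfs, sum_const, card_univ, ZMod.card, nsmul_eq_mul]
  have h4 : ∑ j, f (j + z) = m * p := by
    rw [← hfs]
    exact Fintype.sum_equiv (Equiv.addRight z) _ _ fun x => rfl
  rw [h4]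
  ring

theorem ex_inv (d : ZMod p → ZMod p → ℤ) (m : ℤ) (hcol : ∀ α, ∑ β, d α β = m) (α0 β : ZMod p) :
    (p : ℤ) * d α0 β = m + ∑ s, ex d m s (β - s * α0) := by
  unfold ex
  rw [sum_sub_distrib, sum_const, card_univ, ZMod.card, nsmul_eq_mul, sum_comm]
  have h1 : ∀ α : ZMod p, ∑ s, d α (s * α + (β - s * α0)) =
      (if α = α0 then (p : ℤ) * d α0 β - m else 0) + m := by
    intro α
    by_cases h : α = α0
    · subst h
      rw [if_pos rfl]
      have : ∀ s : ZMod p, d α (s * α + (β - s * α)) = d α β := by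
        intro s
        congr 1
        ring
      rw [sum_congr rfl fun s _ => this s, sum_const, card_univ, ZMod.card, nsmul_eq_mul]
      ring
    · rw [if_neg h, zero_add, ← hcol α]
      have hne : α - α0 ≠ 0 := sub_ne_zero.2 h
      refine Fintype.sum_bijective (fun s : ZMod p => s * (α - α0) + β) ?_ _ _ fun s => ?_
      · constructor
        · intro x y hxy
          have h2 : x * (α - α0) = y * (α - α0) := by
            have h3 : x * (α - α0) + β = y * (α - α0) + β := hxy
            exact add_right_cancel h3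
          exact mul_right_cancel₀ hne h2
        · intro y
          refine ⟨(y - β) * (α - α0)⁻¹, ?_⟩
          simp only
          rw [mul_assoc, inv_mul_cancel₀ hne, mul_one, sub_add_cancel]
      · congr 1
        ring
  rw [sum_congr rfl fun α _ => h1 α, sum_add_distrib, sum_ite_eq', if_pos (mem_univ _), sum_const,
    card_univ, ZMod.card, nsmul_eq_mul]
  ring

theorem grid_main (hp2 : p ≠ 2) (m : ℕ) (hm : 2 ≤ m) (hpm : 4 * m ^ 2 < p)
    (d : ZMod p → ZMod p → ℤ) (hcol : ∀ α, ∑ β, d α β = m)
    (hcorr : ∀ u z, ∑ α, ∑ β, d α β * d (α + u) (β + z) =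
      (if u = 0 ∧ z = 0 then (m : ℤ) * p else 0) - (if u = 0 then (m : ℤ) else 0) + (m : ℤ) ^ 2) :
    IsSquare m ∧ p ≤ 4 ^ m := by
  have hp : p.Prime := Fact.out
  have hm' : (2 : ℤ) ≤ m := by exact_mod_cast hm
  have hpm' : 4 * (m : ℤ) ^ 2 < p := by exact_mod_cast hpm
  have key := fun s => leg_main hp2 (m : ℤ) hm' hpm' (ex d m s) (ex_sum d m hcol s)
    (ex_co d m hcol hcorr s)
  have hsq : IsSquare m := by
    obtain ⟨b, hb, -⟩ := key 0
    have : IsSquare (m : ℤ) := ⟨∑ x, b x, by rw [← hb]; ring⟩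
    exact_mod_cast this
  refine ⟨hsq, ?_⟩
  by_contra hlt
  push Not at hlt
  obtain ⟨v, hv⟩ := hsq
  have hdv : ∀ s j, (v : ℤ) ∣ ex d m s j := by
    intro s j
    obtain ⟨b, hb1, hb2, hb3, hb4⟩ := key s
    obtain ⟨j0, hj0⟩ := conc m hlt b hb2 hb3
    rw [hb4 j]
    have h1 : ∑ x, b x ^ 2 = b j0 ^ 2 := by
      rw [sum_eq_single j0]
      · intro x _ hx
        rw [hj0 x hx]
        norm_num
      · intro h
        exact absurd (mem_univ _) h
    rw [h1, hv] at hb2
    have h2 : (v : ℤ) ∣ b j0 := by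
      have h3 : b j0 ^ 2 = (v : ℤ) ^ 2 := by
        rw [hb2]
        push_cast
        ring
      rcases sq_eq_sq_iff_eq_or_eq_neg.1 h3 with h | h
      · rw [h]
      · rw [h]
        exact (dvd_refl _).neg_right
    refine dvd_sum fun x _ => ?_
    by_cases hx : x = j0
    · subst hx
      exact Dvd.dvd.mul_right h2 _
    · rw [hj0 x hx, zero_mul]
      exact dvd_zero _
  have hv0 : 2 ≤ v := by
    by_contra h
    push Not at h
    interval_cases v <;> omega
  have hcop : IsCoprime (v : ℤ) (p : ℤ) := by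
    rw [Nat.isCoprime_iff_coprime]
    apply Nat.Coprime.symm
    rw [Nat.Prime.coprime_iff_not_dvd hp]
    intro h
    have h1 := Nat.le_of_dvd (by omega) h
    nlinarith
  have hdd : ∀ α β, (v : ℤ) ∣ d α β := by
    intro α β
    have h1 := ex_inv d m hcol α β
    have h2 : (v : ℤ) ∣ p * d α β := by
      rw [h1]
      apply dvd_add
      · rw [hv]
        push_cast
        exact Dvd.intro _ rfl
      · exact dvd_sum fun s _ => hdv s _
    exact hcop.dvd_of_dvd_mul_left h2
  have h0 := hcorr 0 0
  simp only [add_zero, and_self, if_true] at h0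
  have h1 : ∀ α β, (v : ℤ) * d α β ≤ d α β * d α β := by
    intro α β
    obtain ⟨c, hc⟩ := hdd α β
    rw [hc]
    have h2 : c ≤ c * c := by
      have := Int.le_self_sq c
      rwa [sq] at this
    have h3 := mul_le_mul_of_nonneg_left h2 (show (0 : ℤ) ≤ (v : ℤ) * v by positivity)
    linarith
  have h2 : (v : ℤ) * (m * p) ≤ ∑ α, ∑ β, d α β * d α β := by
    have h3 : ∑ α, ∑ β, (v : ℤ) * d α β = v * (m * p) := by
      simp only [← mul_sum, hcol, sum_const, card_univ, ZMod.card, nsmul_eq_mul]
      ring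
    rw [← h3]
    exact sum_le_sum fun α _ => sum_le_sum fun β _ => h1 α β
  rw [h0] at h2
  have hv2 : (2 : ℤ) ≤ v := by exact_mod_cast hv0
  have hp0 : (0 : ℤ) < p := by exact_mod_cast hp.pos
  have h3 : (2 : ℤ) * (m * p) ≤ v * (m * p) := mul_le_mul_of_nonneg_right hv2 (by positivity)
  nlinarith

end

end Pool.Agent.Helper31K9.RNG
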