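import Pool.Agent.Helper31K9.RNG.PlaneC
import Pool.Agent.Helper31K9.RNG.QC

set_option autoImplicit false
set_option linter.unusedSectionVars false
set_option linter.unusedVariables false

/-!
# Orders with a large prime factor
-/

namespace Pool.Agent.Helper31K9.RNG

open Finset
open scoped Pointwise
open Pool.Agent.R116.AF (Aff par par_refl NN mem_NN stab_le derB derived derAct derAct_inv IsSteiner)

section
variable {V : Type} [Fintype V] [DecidableEq V] {k : ℕ} {B : Finset (Finset V)}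
variable {G : Type} [Group G] [Fintype G] [DecidableEq G] [MulAction G V]

open Classical in
/-- the lines fixed by a nontrivial element of a subgroup -/
theorem card_bad_sub (h : Aff k B) (hr : Reg G V) (x0 : V) (H : Subgroup G) :
    (B.filter (fun L => x0 ∈ L ∧ ∃ g ∈ H, g ≠ 1 ∧ g • L = L)).card ≤ Nat.card H - 1 := by
  have h1 : ((univ.filter (fun g => g ∈ H)).erase 1).card = Nat.card H - 1 := by
    rw [card_erase_of_mem (mem_filter.2 ⟨mem_univ _, H.one_mem⟩), Nat.card_eq_fintype_card,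
      Fintype.card_subtype]
  rw [← h1]
  refine card_le_card_of_injOn
    (fun L => if hL : ∃ g ∈ H, g ≠ 1 ∧ g • L = L then hL.choose else 1) ?_ ?_
  · intro L hL
    rw [mem_coe, mem_filter] at hL
    simp only [dif_pos hL.2.2]
    have h2 := hL.2.2.choose_spec
    rw [mem_coe, mem_erase, mem_filter]
    exact ⟨h2.2.1, mem_univ _, h2.1⟩
  · intro L hL L' hL' e
    rw [mem_coe, mem_filter] at hL hL'
    simp only [dif_pos hL.2.2, dif_pos hL'.2.2] at e
    have h2 := hL.2.2.choose_spec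
    have h3 := hL'.2.2.choose_spec
    set g := hL.2.2.choose with hg
    rw [← e] at h3
    by_contra hne
    have h4 : g • x0 ∈ g • L := smul_mem_smul_finset hL.2.1
    rw [h2.2.2] at h4
    have h5 : g • x0 ∈ g • L' := smul_mem_smul_finset hL'.2.1
    rw [h3.2.2] at h5
    have h6 : g • x0 = x0 := h.inter hL.1 hL'.1 hne h4 h5 hL.2.1 hL'.2.1
    exact h2.2.1 (hr.fr g x0 h6)

theorem free_line [Group.IsNilpotent G] (h : Aff k B) (hinv : ∀ (g : G), ∀ b ∈ B, g • b ∈ B)
    (hr : Reg G V) (x0 : V) {p m : ℕ} (hp : p.Prime) (hk : k = m * p) (hpm : ¬ p ∣ m)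
    (hm : 2 ≤ m) (hmp : m + 1 < p) (H : Subgroup G) (hH : Nat.card H = m ^ 2)
    (hsub : ∀ K : Subgroup G, ¬ p ∣ Nat.card K → K ≤ H) :
    ∃ L ∈ B, x0 ∈ L ∧ MulAction.stabilizer G L = ⊥ := by
  classical
  by_contra hcon
  push Not at hcon
  have hpk : p ∣ k := by
    rw [hk]
    exact Dvd.intro_left _ rfl
  have hpk2 : ¬ p ^ 2 ∣ k := by
    rw [hk]
    rintro ⟨c, hc⟩
    apply hpm
    refine ⟨c, ?_⟩
    apply Nat.eq_of_mul_eq_mul_right hp.pos
    rw [hc]
    ring
  have h1 := card_bad h hinv hr x0 hp hpk hpk2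
  have h2 := card_bad_sub h hr x0 H
  have h3 := h.deg x0
  have h4 : B.filter (fun b => x0 ∈ b) ⊆
      B.filter (fun L => x0 ∈ L ∧ p ∣ Nat.card (MulAction.stabilizer G L)) ∪
      B.filter (fun L => x0 ∈ L ∧ ∃ g ∈ H, g ≠ 1 ∧ g • L = L) := by
    intro L hL
    rw [mem_filter] at hL
    rw [mem_union, mem_filter, mem_filter]
    by_cases h5 : p ∣ Nat.card (MulAction.stabilizer G L)
    · exact Or.inl ⟨hL.1, hL.2, h5⟩
    · right
      refine ⟨hL.1, hL.2, ?_⟩
      obtain ⟨g, hg, hg1⟩ := (Subgroup.bot_or_exists_ne_one _).resolve_left (hcon L hL.1 hL.2)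
      exact ⟨g, hsub _ h5 hg, hg1, MulAction.mem_stabilizer_iff.1 hg⟩
  have h5 := (card_le_card h4).trans (card_union_le _ _)
  rw [h3, hH] at *
  have h6 : k + 1 ≤ (p + 1) + (m ^ 2 - 1) := by
    refine h5.trans ?_
    apply add_le_add
    · convert h1
    · convert h2
  rw [hk] at h6
  have h7 : 1 ≤ m ^ 2 := Nat.one_le_pow _ _ (by omega)
  zify [h7] at h6
  have h8 : (m : ℤ) + 2 ≤ p := by exact_mod_cast hmp
  have h9 : (2 : ℤ) ≤ m := by exact_mod_cast hm
  nlinarith

/-- coordinates in an elementary abelian group of order `p ^ 2` -/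
theorem coords {A : Type} [CommGroup A] [Fintype A] {p : ℕ} [Fact p.Prime] (N : Subgroup A)
    (hA : Nat.card A = p ^ 2) (hN : Nat.card N = p) (hel : ∀ w : A, w ^ p = 1) :
    ∃ Θ : ZMod p × ZMod p → A, Function.Bijective Θ ∧
      (∀ α u β z, Θ (α + u, β + z) = Θ (α, β) * Θ (u, z)) ∧ (∀ α β, Θ (α, β) ∈ N ↔ α = 0) ∧
      ∀ α β, Θ (α, β) = 1 ↔ α = 0 ∧ β = 0 := by
  have hp : p.Prime := Fact.out
  have hNb : N ≠ ⊥ := by
    intro h
    rw [h, Subgroup.card_bot] at hN
    exact hp.one_lt.ne hN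
  obtain ⟨z, hz, hz1⟩ := (Subgroup.bot_or_exists_ne_one N).resolve_left hNb
  obtain ⟨y, hy⟩ : ∃ y : A, y ∉ N := by
    by_contra hcon
    push Not at hcon
    have h1 : N = ⊤ := (Subgroup.eq_top_iff' N).2 hcon
    rw [h1, Subgroup.card_top, hA] at hN
    have : p < p ^ 2 := by
      have := hp.one_lt
      nlinarith
    omega
  have hadd : ∀ (x : A) (a b : ZMod p), x ^ (a + b).val = x ^ a.val * x ^ b.val := by
    intro x a b
    rw [ZMod.val_add, ← pow_add]
    conv_rhs => rw [← Nat.div_add_mod (a.val + b.val) p]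
    rw [pow_add, pow_mul, hel, one_pow, one_mul]
  have hunit : ∀ (x : A) (a : ZMod p), a ≠ 0 → (x ^ a.val) ^ (a⁻¹).val = x := by
    intro x a ha
    rw [← pow_mul]
    have h1 : (a.val * (a⁻¹).val) % p = 1 := by
      rw [← ZMod.val_mul, mul_inv_cancel₀ ha]
      exact ZMod.val_one'' hp.one_lt.ne'
    conv_lhs => rw [← Nat.div_add_mod (a.val * (a⁻¹).val) p, h1]
    rw [pow_add, pow_mul, hel, one_pow, one_mul, pow_one]
  have hmem : ∀ α β : ZMod p, y ^ α.val * z ^ β.val ∈ N ↔ α = 0 := by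
    intro α β
    constructor
    · intro h
      by_contra hα
      have h1 : y ^ α.val ∈ N := (N.mul_mem_cancel_right (N.pow_mem hz _)).1 h
      have h2 := N.pow_mem h1 (α⁻¹).val
      rw [hunit y α hα] at h2
      exact hy h2
    · rintro rfl
      rw [ZMod.val_zero, pow_zero, one_mul]
      exact N.pow_mem hz _
  have hone : ∀ α β : ZMod p, y ^ α.val * z ^ β.val = 1 ↔ α = 0 ∧ β = 0 := by
    intro α β
    constructor
    · intro h
      have h1 : α = 0 := (hmem α β).1 (by rw [h]; exact N.one_mem)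
      refine ⟨h1, ?_⟩
      by_contra hβ
      rw [h1, ZMod.val_zero, pow_zero, one_mul] at h
      have h2 := hunit z β hβ
      rw [h, one_pow] at h2
      exact hz1 h2.symm
    · rintro ⟨rfl, rfl⟩
      simp
  have hmul : ∀ α u β z' : ZMod p, y ^ (α + u).val * z ^ (β + z').val =
      (y ^ α.val * z ^ β.val) * (y ^ u.val * z ^ z'.val) := by
    intro α u β z'
    rw [hadd, hadd, mul_mul_mul_comm]
  refine ⟨fun x => y ^ x.1.val * z ^ x.2.val, ?_, fun α u β z' => hmul α u β z',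
    fun α β => hmem α β, fun α β => hone α β⟩
  rw [Fintype.bijective_iff_injective_and_card]
  constructor
  · rintro ⟨α, β⟩ ⟨α', β'⟩ h
    have h1 : y ^ α.val * z ^ β.val = y ^ α'.val * z ^ β'.val := h
    have h2 := hmul (α - α') α' (β - β') β'
    rw [sub_add_cancel, sub_add_cancel, h1] at h2
    have h3 := (hone _ _).1 (mul_eq_right.1 h2.symm)
    rw [sub_eq_zero.1 h3.1, sub_eq_zero.1 h3.2]
  · rw [Fintype.card_prod, ZMod.card, ← Nat.card_eq_fintype_card, hA, sq]

/-- Orders with a large prime factor: the projection to the Sylow subgroup. -/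
theorem sylow_part {A : Type} [CommGroup A] [Fintype A] [DecidableEq A] {p m : ℕ}
    (hp : p.Prime) (hp2 : p ≠ 2) (hm : 2 ≤ m) (hpm : 4 * m ^ 2 < p) (hA : Nat.card A = p ^ 2)
    (N : Subgroup A) (hN : Nat.card N = p) (d : A → ℤ) (hsum : ∑ y, d y = (m : ℤ) * p)
    (hcorr : ∀ x, corr d x = m * p * ind (⊥ : Subgroup A) x - m * ind N x + m ^ 2) :
    IsSquare m ∧ p ≤ 4 ^ m := by
  have : Fact p.Prime := ⟨hp⟩
  have hm0 : 0 < m := by omega
  have hS : Nat.card (⊥ : Subgroup A) = 1 := Subgroup.card_bot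
  have hcorr' : ∀ x, corr d x = m * p * ((1 : ℕ) : ℤ) * ind (⊥ : Subgroup A) x -
      m * ((1 : ℕ) : ℤ) * ind N x + m ^ 2 := by
    intro x
    rw [hcorr]
    push_cast
    ring
  have hN1 : Nat.card N = 1 * p := by rw [hN, one_mul]
  have hA' : (Fintype.card A : ℤ) = (p : ℤ) ^ 2 := by
    rw [← Nat.card_eq_fintype_card, hA]
    push_cast
    rfl
  have hp0 : (p : ℤ) ≠ 0 := by exact_mod_cast hp.ne_zero
  have hcos := coset_sum ⊥ N bot_le m p 1 1 hp0 d hA' (by rw [hS]; norm_num)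
    (by rw [hN, one_mul]) hsum (by
      intro x
      rw [hcorr]
      ring)
  by_cases hel : ∀ w : A, w ^ p = 1
  · obtain ⟨Θ, hbij, hmul, hmem, hone⟩ := coords N hA hN hel
    have hsumΘ : ∀ F : A → ℤ, ∑ w, F w = ∑ α, ∑ β, F (Θ (α, β)) := by
      intro F
      rw [← Fintype.sum_prod_type' (f := fun α β => F (Θ (α, β)))]
      exact (Fintype.sum_bijective Θ hbij _ _ fun x => rfl).symm
    have hindN : ∀ α β, ind N (Θ (α, β)) = if α = 0 then 1 else 0 := by
      intro α β
      by_cases h : α = 0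
      · rw [if_pos h, ind_of_mem ((hmem α β).2 h)]
      · rw [if_neg h, ind_of_not fun h' => h ((hmem α β).1 h')]
    have hindB : ∀ α β, ind (⊥ : Subgroup A) (Θ (α, β)) = if α = 0 ∧ β = 0 then 1 else 0 := by
      intro α β
      by_cases h : α = 0 ∧ β = 0
      · rw [if_pos h, ind_of_mem (Subgroup.mem_bot.2 ((hone α β).2 h))]
      · rw [if_neg h, ind_of_not fun h' => h ((hone α β).1 (Subgroup.mem_bot.1 h'))]
    refine grid_main hp2 m hm hpm (fun α β => d (Θ (α, β))) ?_ ?_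
    · intro α
      have h1 := hcos (Θ (α, 0))
      rw [hsumΘ] at h1
      simp only [hindN, ite_mul, one_mul, zero_mul] at h1
      rw [sum_comm] at h1
      simp only [sum_ite_eq', mem_univ, if_true] at h1
      rw [← h1]
      refine sum_congr rfl fun β _ => ?_
      rw [← hmul, zero_add, add_zero]
    · intro u z
      have h1 := hcorr (Θ (u, z))
      unfold corr at h1
      rw [hsumΘ, hindN, hindB] at h1
      have h2 : ∀ α β : ZMod p, d (Θ (α, β)) * d (Θ (u, z) * Θ (α, β)) =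
          d (Θ (α, β)) * d (Θ (α + u, β + z)) := by
        intro α β
        rw [hmul, mul_comm (Θ (u, z))]
      simp only [h2] at h1
      rw [h1]
      simp only [mul_ite, mul_one, mul_zero]
  · exfalso
    push Not at hel
    obtain ⟨w, hw⟩ := hel
    have hτ : Nat.card (tor p (⊥ : Subgroup A) ⊤) ≤ 1 * p := by
      rw [one_mul]
      have h1 : Nat.card (tor p (⊥ : Subgroup A) ⊤) ∣ p ^ 2 := by
        rw [← hA]
        exact Subgroup.card_subgroup_dvd_card _
      obtain ⟨i, hi, hi'⟩ := (Nat.dvd_prime_pow hp).1 h1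
      have h2 : i ≠ 2 := by
        rintro rfl
        rw [← hA] at hi'
        have h3 := Subgroup.eq_top_of_card_eq _ hi'
        have h4 : w ∈ tor p (⊥ : Subgroup A) ⊤ := by
          rw [h3]
          exact Subgroup.mem_top w
        exact hw (Subgroup.mem_bot.1 (mem_tor.1 h4).2)
      rw [hi']
      calc p ^ i ≤ p ^ 1 := Nat.pow_le_pow_right hp.pos (by omega)
        _ = p := pow_one p
    have key := abs_gen hp hp2 ⊥ N bot_le m p 1 1 p hm0 hp.pos dvd_rfl
      (fun h => hp.one_lt.ne' (Nat.dvd_one.1 h)) hA hS hN1 d hsum hcorr' hτ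
    push_cast at key
    have hp0' : (0 : ℤ) < p := by exact_mod_cast hp.pos
    have h5 : 4 * (m : ℤ) ^ 2 < p := by exact_mod_cast hpm
    nlinarith

theorem four_pow_ge (m : ℕ) (hm : 2 ≤ m) : 4 * m ^ 2 ≤ 4 ^ m := by
  induction m, hm using Nat.le_induction with
  | base => norm_num
  | succ n hn ih =>
    have h1 : 4 ^ (n + 1) = 4 ^ n * 4 := pow_succ 4 n
    rw [h1]
    nlinarith

theorem plane_big [Group.IsNilpotent G] (h : Aff k B) (hinv : ∀ (g : G), ∀ b ∈ B, g • b ∈ B)
    (hr : Reg G V) {m p : ℕ} (hk : k = m * p) (hp : p.Prime) (hpm : ¬ p ∣ m) (hm : 2 ≤ m) :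
    (p ≤ 4 * m ^ 2 ∨ IsSquare m) ∧ p ≤ 4 ^ m := by
  classical
  by_cases hbig : p ≤ 4 * m ^ 2
  · exact ⟨Or.inl hbig, hbig.trans (four_pow_ge m hm)⟩
  push Not at hbig
  have hp2 : p ≠ 2 := by
    rintro rfl
    have : 1 ≤ m ^ 2 := Nat.one_le_pow _ _ (by omega)
    omega
  have hmp : m + 1 < p := by nlinarith
  have hk2 := h.two
  have hcard : 0 < Fintype.card V := by
    rw [h.card]
    exact pow_pos (by omega) 2
  obtain ⟨x0⟩ : Nonempty V := Fintype.card_pos_iff.1 hcard
  have hmn : m.Coprime p := ((Nat.Prime.coprime_iff_not_dvd hp).2 hpm).symm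
  obtain ⟨H, hHn, hHc, hcomm⟩ := hall_quot G (m := m) (n := p)
    (by rw [card_reg h hr x0, hk]) (by omega) hp.pos hmn hp.prime.squarefree
  have hHcard : Nat.card H = m ^ 2 := by
    have h1 := H.card_mul_index
    rw [Subgroup.index_eq_card, hHc, card_reg h hr x0, hk, mul_pow] at h1
    exact Nat.eq_of_mul_eq_mul_right (pow_pos hp.pos 2) h1
  have hsub : ∀ K : Subgroup G, ¬ p ∣ Nat.card K → K ≤ H := by
    intro K hK
    have h1 : Nat.card (K.map (QuotientGroup.mk' H)) ∣ p ^ 2 := by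
      rw [← hHc]
      exact Subgroup.card_subgroup_dvd_card _
    have h2 : Nat.card (K.map (QuotientGroup.mk' H)) ∣ Nat.card K := by
      exact Subgroup.card_map_dvd _ _
    have h3 : (p ^ 2).Coprime (Nat.card K) :=
      Nat.Coprime.pow_left 2 ((Nat.Prime.coprime_iff_not_dvd hp).2 hK)
    have h4 := Nat.eq_one_of_dvd_coprimes h3 h1 h2
    have h5 := Subgroup.card_eq_one.1 h4
    rw [Subgroup.map_eq_bot_iff, QuotientGroup.ker_mk'] at h5
    exact h5
  obtain ⟨L, hL, -, hLs⟩ := free_line h hinv hr x0 hp hk hpm hm hmp H hHcard hsub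
  let : CommGroup (G ⧸ H) :=
    { (inferInstance : Group (G ⧸ H)) with
      mul_comm := by
        intro a b
        obtain ⟨x, rfl⟩ := QuotientGroup.mk_surjective a
        obtain ⟨y, rfl⟩ := QuotientGroup.mk_surjective b
        rw [← QuotientGroup.mk_mul, ← QuotientGroup.mk_mul]
        exact (QuotientGroup.eq.2 (hcomm x y)).symm }
  let : Fintype (G ⧸ H) := Fintype.ofFinite _
  obtain ⟨hh, d, hh0, hhm, s1, hN, hsum, hcorr⟩ := plane_data h hinv hr hL x0
    (A := G ⧸ H) (QuotientGroup.mk' H) (QuotientGroup.mk'_surjective H) hk hmn hHc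
  rw [hLs, Subgroup.map_bot, Subgroup.card_bot, Subgroup.card_bot, mul_one] at s1
  rw [hLs, Subgroup.map_bot, Subgroup.card_bot, one_mul] at hN
  have hcorr' : ∀ x, corr d x = m * p * ind (⊥ : Subgroup (G ⧸ H)) x -
      m * ind ((NN h hinv L hL).map (QuotientGroup.mk' H)) x + m ^ 2 := by
    intro x
    rw [hcorr, s1, hLs, Subgroup.map_bot]
    push_cast
    ring
  obtain ⟨h1, h2⟩ := sylow_part hp hp2 hm hbig hHc _ hN d hsum hcorr'
  exact ⟨Or.inr h1, h2⟩

end

theorem hasReg_big {k t : ℕ} (hk : 2 ≤ k) (h : HasReg k t) {m p : ℕ} (hkm : k = m * p)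
    (hp : p.Prime) (hpm : ¬ p ∣ m) (hm : 2 ≤ m) :
    (p ≤ 4 * m ^ 2 ∨ IsSquare m) ∧ p ≤ 4 ^ m := by
  classical
  obtain ⟨B, G, F, hB, hnil, hinv, hF, hfix, hreg⟩ := h
  have hA : Aff k (derB B F) := derived hk rfl hB hF
  let := derAct G F hfix
  have hinv' := derAct_inv G F hfix hinv
  have : Fintype G := Fintype.ofFinite G
  refine plane_big (G := G) hA hinv' ⟨?_, ?_⟩ hkm hp hpm hm
  · intro x y
    obtain ⟨g, ⟨hg, hgxy⟩, -⟩ := hreg x y x.2 y.2
    exact ⟨⟨g, hg⟩, Subtype.ext hgxy⟩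
  · intro g x hgx
    have h1 := (hreg x x x.2 x.2).unique (y₁ := (g : Equiv.Perm _)) (y₂ := 1)
      ⟨g.2, congrArg Subtype.val hgx⟩ ⟨G.one_mem, rfl⟩
    exact Subtype.ext h1

end Pool.Agent.Helper31K9.RNG
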