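import Pool.Agent.Helper31K9.RNG.StF
import Pool.Agent.Helper31K9.RNG.PlaneD

/-!
# The projection to the Sylow subgroup, arbitrary regular groups [SYF]
-/

set_option autoImplicit false

namespace Pool.Agent.Helper31K9.RNG

open Finset

namespace SyfL

/-- sums of functions which are invariant under a subgroup -/
lemma dvd_sum {A : Type} [CommGroup A] [Fintype A] (S : Subgroup A) (F : A → ℤ)
    (hF : ∀ σ ∈ S, ∀ y, F (y * σ) = F y) : (Nat.card S : ℤ) ∣ ∑ y, F y := by
  classical
  let : Fintype (A ⧸ S) := Fintype.ofFinite _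
  rw [← Finset.sum_fiberwise univ (fun y : A => (QuotientGroup.mk y : A ⧸ S)) F]
  refine Finset.dvd_sum fun q _ => ?_
  obtain ⟨y0, rfl⟩ := QuotientGroup.mk_surjective q
  have h : (univ.filter fun y : A => (QuotientGroup.mk y : A ⧸ S) = QuotientGroup.mk y0) =
      univ.image (fun s : S => y0 * (s : A)) := by
    ext y
    rw [mem_filter, mem_image]
    constructor
    · rintro ⟨-, hy⟩
      have h1 := QuotientGroup.eq.1 hy.symm
      exact ⟨⟨_, h1⟩, mem_univ _, by simp⟩
    · rintro ⟨s, -, rfl⟩
      refine ⟨mem_univ _, ?_⟩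
      symm
      rw [QuotientGroup.eq, inv_mul_cancel_left]
      exact s.2
  rw [h, sum_image (fun a _ b _ hab => Subtype.ext (mul_left_cancel hab))]
  have h2 : ∑ s : S, F (y0 * (s : A)) = ∑ _s : S, F y0 := sum_congr rfl fun s _ => hF s s.2 y0
  rw [h2, sum_const, card_univ, ← Nat.card_eq_fintype_card, nsmul_eq_mul]
  exact Dvd.intro _ rfl

end SyfL

theorem syf : S_SYF := by
  intro hG A _ _ _ p m h hp hp2 hm hh hhm hbig hA S N hSN hN d hsum hcorr
  have : Fact p.Prime := ⟨hp⟩
  have hm0 : 0 < m := by omega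
  have hp0 : (p : ℤ) ≠ 0 := by exact_mod_cast hp.ne_zero
  have hp0' : (0 : ℤ) < p := by exact_mod_cast hp.pos
  have hA' : (Fintype.card A : ℤ) = (p : ℤ) ^ 2 := by
    rw [← Nat.card_eq_fintype_card, hA]
    push_cast
    rfl
  have hm2 : m ^ 2 < p := by
    have h1 : m ^ 2 ≤ (m * h) ^ 2 := Nat.pow_le_pow_left (Nat.le_mul_of_pos_right _ hh) 2
    omega
  -- the order of `S`
  have hSp : Nat.card S ∣ p := by
    have h1 : Nat.card N ∣ p ^ 2 := by
      rw [← hA]
      exact Subgroup.card_subgroup_dvd_card _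
    rw [hN, sq] at h1
    exact Nat.dvd_of_mul_dvd_mul_right hp.pos h1
  rcases (Nat.dvd_prime hp).1 hSp with hS | hS
  · -- the stabilizer is trivial
    have hSb : S = ⊥ := Subgroup.card_eq_one.1 hS
    subst hSb
    rw [hS] at hN
    have hNp : Nat.card N = p := by rw [hN, one_mul]
    have hcos := coset_sum ⊥ N bot_le m p h 1 hp0 d hA' (by rw [hS]; norm_num)
      (by rw [hNp, one_mul]) hsum hcorr
    by_cases hel : ∀ w : A, w ^ p = 1
    · obtain ⟨Θ, hbij, hmul, hmem, hone⟩ := coords N hA hNp hel
      have hsumΘ : ∀ F : A → ℤ, ∑ w, F w = ∑ α, ∑ β, F (Θ (α, β)) := by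
        intro F
        rw [← Fintype.sum_prod_type' (f := fun α β => F (Θ (α, β)))]
        exact (Fintype.sum_bijective Θ hbij _ _ fun x => rfl).symm
      have hindN : ∀ α β, ind N (Θ (α, β)) = if α = 0 then 1 else 0 := by
        intro α β
        by_cases h : α = 0
        · rw [if_pos h, ind_of_mem ((hmem α β).2 h)]
        · rw [if_neg h, ind_of_not fun h' => h ((hmem α β).1 h')]
      have hindB : ∀ α β, ind (⊥ : Subgroup A) (Θ (α, β)) = if α = 0 ∧ β = 0 then 1 else 0 := by
        intro α β
        by_cases h : α = 0 ∧ β = 0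
        · rw [if_pos h, ind_of_mem (Subgroup.mem_bot.2 ((hone α β).2 h))]
        · rw [if_neg h, ind_of_not fun h' => h ((hone α β).1 (Subgroup.mem_bot.1 h'))]
      refine hG p ⟨hp⟩ hp2 m h hm hh hhm hbig (fun α β => d (Θ (α, β))) ?_ ?_
      · intro α
        have h1 := hcos (Θ (α, 0))
        rw [hsumΘ] at h1
        simp only [hindN, ite_mul, one_mul, zero_mul] at h1
        rw [sum_comm] at h1
        simp only [sum_ite_eq', mem_univ, if_true] at h1
        rw [← h1]
        refine sum_congr rfl fun β _ => ?_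
        rw [← hmul, zero_add, add_zero]
      · intro u z
        have h1 := hcorr (Θ (u, z))
        unfold corr at h1
        rw [hsumΘ, hindN, hindB] at h1
        have h2 : ∀ α β : ZMod p, d (Θ (α, β)) * d (Θ (u, z) * Θ (α, β)) =
            d (Θ (α, β)) * d (Θ (α + u, β + z)) := by
          intro α β
          rw [hmul, mul_comm (Θ (u, z))]
        simp only [h2] at h1
        rw [h1]
        simp only [mul_ite, mul_one, mul_zero]
        rw [mul_right_comm (m : ℤ) p h]
    · exfalso
      push Not at hel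
      obtain ⟨w, hw⟩ := hel
      have hτ : Nat.card (tor p (⊥ : Subgroup A) ⊤) ≤ 1 * p := by
        rw [one_mul]
        have h1 : Nat.card (tor p (⊥ : Subgroup A) ⊤) ∣ p ^ 2 := by
          rw [← hA]
          exact Subgroup.card_subgroup_dvd_card _
        obtain ⟨i, hi, hi'⟩ := (Nat.dvd_prime_pow hp).1 h1
        have h2 : i ≠ 2 := by
          rintro rfl
          rw [← hA] at hi'
          have h3 := Subgroup.eq_top_of_card_eq _ hi'
          have h4 : w ∈ tor p (⊥ : Subgroup A) ⊤ := by
            rw [h3]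
            exact Subgroup.mem_top w
          exact hw (Subgroup.mem_bot.1 (mem_tor.1 h4).2)
        rw [hi']
        calc p ^ i ≤ p ^ 1 := Nat.pow_le_pow_right hp.pos (by omega)
          _ = p := pow_one p
      have key := abs_gen hp hp2 ⊥ N bot_le m p h 1 p hm0 hp.pos dvd_rfl
        (fun h => hp.one_lt.ne' (Nat.dvd_one.1 h)) hA hS hN d hsum hcorr hτ
      push_cast at key
      have h5 : (m : ℤ) ^ 2 < p := by exact_mod_cast hm2
      nlinarith
  · -- the stabilizer has order `p`
    exfalso
    have hNt : N = ⊤ := by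
      apply Subgroup.eq_top_of_card_eq
      rw [hN, hS, hA, sq]
    -- `d` is constant on the cosets of `S`
    have hinv : ∀ σ ∈ S, ∀ y, d (y * σ) = d y := by
      intro σ hσ
      have h1 := hcorr σ
      have h2 := hcorr 1
      rw [ind_of_mem hσ, ind_of_mem (hSN hσ)] at h1
      rw [ind_of_mem S.one_mem, ind_of_mem N.one_mem] at h2
      have h3 : ∑ y, (d (σ * y) - d y) ^ 2 = 0 := by
        have e1 : ∑ y, (d (σ * y) - d y) ^ 2 =
            ∑ y, d (σ * y) * d (σ * y) + ∑ y, d y * d y - 2 * ∑ y, d y * d (σ * y) := by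
          rw [mul_sum, ← sum_add_distrib, ← sum_sub_distrib]
          exact sum_congr rfl fun y _ => by ring
        have e2 : ∑ y, d (σ * y) * d (σ * y) = ∑ y, d y * d y :=
          Fintype.sum_equiv (Equiv.mulLeft σ) _ _ (fun x => rfl)
        have e3 : ∑ y, d y * d y = corr d 1 := by
          unfold corr
          simp only [one_mul]
        have e4 : ∑ y, d y * d (σ * y) = corr d σ := rfl
        rw [e1, e2, e3, e4, h1, h2]
        ring
      intro y
      have h4 := (sum_eq_zero_iff_of_nonneg (fun y _ => sq_nonneg (d (σ * y) - d y))).1 h3 y (mem_univ y)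
      have h5 : d (σ * y) - d y = 0 := pow_eq_zero_iff (two_ne_zero) |>.1 h4
      rw [mul_comm y σ]
      linarith
    obtain ⟨x, hx⟩ : ∃ x : A, x ∉ S := by
      by_contra hcon
      push Not at hcon
      have h1 : S = ⊤ := (Subgroup.eq_top_iff' S).2 hcon
      rw [h1, Subgroup.card_top, hA] at hS
      have : p < p ^ 2 := by
        have := hp.one_lt
        nlinarith
      omega
    have h1 := hcorr x
    rw [ind_of_not hx, hNt, ind_of_mem (Subgroup.mem_top x)] at h1
    have h2 : (Nat.card S : ℤ) ∣ corr d x := by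
      refine SyfL.dvd_sum S (fun y => d y * d (x * y)) fun σ hσ y => ?_
      rw [hinv σ hσ y, ← mul_assoc, hinv σ hσ (x * y)]
    rw [h1, hS] at h2
    have h3 : (0 : ℤ) < m * p * h * 0 - m * h * 1 + m ^ 2 := by
      have : (h : ℤ) < m := by exact_mod_cast hhm
      have : (0 : ℤ) < m := by exact_mod_cast hm0
      nlinarith
    have h4 := Int.le_of_dvd h3 h2
    have h5 : (m : ℤ) ^ 2 < p := by exact_mod_cast hm2
    have h6 : (0 : ℤ) ≤ m * h := by positivity
    linarith

end Pool.Agent.Helper31K9.RNG
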